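import Pool.Agent.Lib.MP_6083a5_an.NestedD

/-!
A bound of Boole type with arbitrary real poles: a sum of simple fractions with positive residues
is small only on a small set, in terms of the weight of the poles that lie in `[-1, 1]`.
-/

open Polynomial MeasureTheory Filter Topology Set Real Lagrange
open Pool.Agent.Lib.MP_6083a5_an.Nested

namespace Pool.Agent.Lib.MP_6083a5_an.Absolute

open Classical in
theorem boole_weights (S : Finset ℝ) (θ : ℝ → ℝ) (hθ : ∀ b ∈ S, 0 < θ b) {Θ : ℝ} (hΘ0 : 0 < Θ)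
    (hΘ : Θ ≤ ∑ b ∈ S, if b ∈ Icc (-1 : ℝ) 1 then θ b else 0) {s : ℝ} (hs : 0 < s) :
    volume.real {x ∈ Icc (-2 : ℝ) 2 | |∑ b ∈ S, θ b * (x - b)⁻¹| ≤ s} ≤ 80 * s / Θ := by
  set v : ℝ → ℂ := fun b => (b : ℂ) with hv
  set ω : ℂ[X] := nodal S v with hω
  set Nn : ℂ[X] := ∑ b ∈ S, C (θ b : ℂ) * nodal (S.erase b) v with hNn
  set D : ℂ[X] := Nn - C (s * Complex.I) * ω with hD
  have hDe : ∀ z : ℂ, (∀ b ∈ S, z ≠ (b : ℂ)) →
      D.eval z = ω.eval z * (∑ b ∈ S, (θ b : ℂ) * (z - b)⁻¹ - s * Complex.I) := by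
    intro z hz
    rw [hD, eval_sub, eval_mul, eval_C, hNn, eval_num S θ hz]
    ring
  have him : ∀ z : ℂ, (∑ b ∈ S, (θ b : ℂ) * (z - b)⁻¹ - s * Complex.I).im
      = -(∑ b ∈ S, θ b * (z.im / Complex.normSq (z - b))) - s := by
    intro z
    rw [Complex.sub_im, Complex.im_sum, ← Finset.sum_neg_distrib]
    simp only [im_frac]
    simp
  have hD0 : ∀ z : ℂ, 0 ≤ z.im → D.eval z ≠ 0 := by
    intro z hz
    by_cases h : ∀ b ∈ S, z ≠ (b : ℂ)
    · rw [hDe z h]
      refine mul_ne_zero (eval_nodal_not_at_node h) fun h0 => ?_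
      have h1 := him z
      rw [h0, Complex.zero_im] at h1
      have h2 : 0 ≤ ∑ b ∈ S, θ b * (z.im / Complex.normSq (z - b)) :=
        Finset.sum_nonneg fun b hb => mul_nonneg (hθ b hb).le
          (div_nonneg hz (Complex.normSq_nonneg _))
      linarith
    · push Not at h
      obtain ⟨b, hb, rfl⟩ := h
      have h1 : ω.eval (b : ℂ) = 0 := eval_nodal_at_node (v := v) hb
      rw [hD, eval_sub, eval_mul, h1, mul_zero, sub_zero, hNn, eval_finsetSum,
        Finset.sum_eq_single_of_mem b hb]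
      · rw [eval_mul, eval_C]
        refine mul_ne_zero (by exact_mod_cast (hθ b hb).ne') (eval_nodal_not_at_node ?_)
        intro i hi h
        exact (Finset.mem_erase.1 hi).1 (Complex.ofReal_injective h).symm
      · intro i _ hib
        rw [eval_mul, eval_nodal_at_node (v := v) (Finset.mem_erase.2 ⟨hib.symm, hb⟩), mul_zero]
  have hdeg : ω.natDegree ≤ D.natDegree := by
    rw [hω, natDegree_nodal]
    refine le_natDegree_of_ne_zero ?_
    have h1 : Nn.coeff S.card = 0 := by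
      rw [hNn, finsetSum_coeff]
      refine Finset.sum_eq_zero fun b hb => ?_
      rw [coeff_C_mul, coeff_eq_zero_of_natDegree_lt, mul_zero]
      rw [natDegree_nodal]
      exact Finset.card_erase_lt_of_mem hb
    have h2 : ω.coeff S.card = 1 := by
      rw [hω, ← natDegree_nodal (v := v)]
      exact nodal_monic.coeff_natDegree
    rw [hD, coeff_sub, coeff_C_mul, h1, h2]
    simp [hs.ne']
  obtain ⟨hi, hint⟩ := poisson_reproduce ω D hD0 hdeg 0 1 one_pos
  have hF : ∀ z : ℂ, (∀ b ∈ S, z ≠ (b : ℂ)) →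
      ω.eval z / D.eval z = (∑ b ∈ S, (θ b : ℂ) * (z - b)⁻¹ - s * Complex.I)⁻¹ := by
    intro z hz
    have h1 : ω.eval z ≠ 0 := eval_nodal_not_at_node hz
    rw [hDe z hz, div_mul_cancel_left₀ h1]
  have hz0 : ((0 : ℝ) : ℂ) + ((1 : ℝ) : ℂ) * Complex.I = Complex.I := by simp
  rw [hz0] at hint
  have hup : (ω.eval Complex.I / D.eval Complex.I).im ≤ 2 / Θ := by
    rw [hF _ fun b _ h => by simpa using congrArg Complex.im h]
    refine (Complex.im_le_norm _).trans ?_
    rw [norm_inv]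
    have h1 := Complex.abs_im_le_norm
      (∑ b ∈ S, (θ b : ℂ) * (Complex.I - b)⁻¹ - s * Complex.I)
    rw [him] at h1
    have h2 : Θ / 2 ≤ ∑ b ∈ S, θ b * (Complex.I.im / Complex.normSq (Complex.I - b)) := by
      refine (div_le_div_of_nonneg_right hΘ (by norm_num)).trans ?_
      rw [Finset.sum_div]
      refine Finset.sum_le_sum fun b hb => ?_
      have h3 : Complex.normSq (Complex.I - b) = b ^ 2 + 1 := by
        simp [Complex.normSq_apply]; ring
      rw [h3, Complex.I_im]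
      split_ifs with h4
      · have h5 : b ^ 2 ≤ 1 := by nlinarith [h4.1, h4.2]
        rw [div_eq_mul_one_div]
        exact mul_le_mul_of_nonneg_left (one_div_le_one_div_of_le (by positivity) (by linarith))
          (hθ b hb).le
      · rw [zero_div]
        exact mul_nonneg (hθ b hb).le (by positivity)
    have h6 := neg_le_abs
      (-(∑ b ∈ S, θ b * (Complex.I.im / Complex.normSq (Complex.I - b))) - s)
    rw [← inv_div]
    exact inv_anti₀ (by positivity) (by linarith)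
  set B := {x ∈ Icc (-2 : ℝ) 2 | |∑ b ∈ S, θ b * (x - b)⁻¹| ≤ s} with hB
  have hBm : MeasurableSet B := by
    have h1 : MeasurableSet {x : ℝ | |∑ b ∈ S, θ b * (x - b)⁻¹| ≤ s} :=
      measurableSet_le (by fun_prop) measurable_const
    exact measurableSet_Icc.inter h1
  have hBf : volume B ≠ ⊤ :=
    ((measure_mono fun x hx => hx.1).trans_lt isCompact_Icc.measure_lt_top).ne
  have hae : ∀ᵐ y : ℝ, y ∉ (S : Set ℝ) := S.countable_toSet.ae_notMem _
  have hlow : ∀ᵐ y : ℝ, B.indicator (fun _ => 1 / (40 * s)) y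
      ≤ ((pk 1 (0 - y) : ℂ) * (ω.eval (y : ℂ) / D.eval (y : ℂ))).im := by
    filter_upwards [hae] with y hy
    have hy' : ∀ b ∈ S, (y : ℂ) ≠ (b : ℂ) := fun b hb h =>
      hy (Complex.ofReal_injective h ▸ hb)
    set u := ∑ b ∈ S, θ b * (y - b)⁻¹ with hu
    have h1 : ∑ b ∈ S, (θ b : ℂ) * ((y : ℂ) - b)⁻¹ = (u : ℂ) := by
      rw [hu]; push_cast; rfl
    have h2 : (((u : ℂ) - s * Complex.I)⁻¹).im = s / (u ^ 2 + s ^ 2) := by
      rw [Complex.inv_im]
      simp [Complex.normSq_apply, sq]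
    rw [hF _ hy', h1, Complex.im_ofReal_mul, h2]
    by_cases hyB : y ∈ B
    · rw [indicator_of_mem hyB]
      have h3 : u ^ 2 ≤ s ^ 2 := sq_le_sq' (abs_le.1 hyB.2).1 (abs_le.1 hyB.2).2
      have h4 : 1 / (2 * s) ≤ s / (u ^ 2 + s ^ 2) := by
        rw [div_le_div_iff₀ (by positivity) (by positivity)]
        nlinarith
      have h5 : 1 / 20 ≤ pk 1 (0 - y) := by
        unfold pk
        have h6 : (0 - y) ^ 2 ≤ 4 := by nlinarith [hyB.1.1, hyB.1.2]
        have h7 := pi_le_four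
        have h8 := pi_pos
        refine one_div_le_one_div_of_le (by positivity) ?_
        nlinarith [sq_nonneg (0 - y)]
      calc 1 / (40 * s) = 1 / 20 * (1 / (2 * s)) := by field_simp; norm_num
        _ ≤ _ := mul_le_mul h5 h4 (by positivity) (pk_pos one_pos _).le
    · rw [indicator_of_notMem hyB]
      exact mul_nonneg (pk_pos one_pos _).le (by positivity)
  have h9 := integral_mono_ae ((integrableOn_const hBf).integrable_indicator hBm) hi.im hlow
  rw [integral_indicator hBm, setIntegral_const, smul_eq_mul] at h9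
  have h10 : ∫ y : ℝ, ((pk 1 (0 - y) : ℂ) * (ω.eval (y : ℂ) / D.eval (y : ℂ))).im
      = (ω.eval Complex.I / D.eval Complex.I).im := by
    rw [← hint]
    exact integral_im hi
  have h11 : volume.real B * (1 / (40 * s)) ≤ 2 / Θ := h9.trans (h10.le.trans hup)
  rw [mul_one_div, div_le_iff₀ (by positivity)] at h11
  refine h11.trans (le_of_eq ?_)
  ring

open Classical in
theorem boole {κ : Type*} (P : Finset κ) (q : κ → ℝ) {M : ℝ} (hM0 : 0 < M)
    (hM : M ≤ (P.filter fun a => q a ∈ Icc (-1 : ℝ) 1).card) {s : ℝ} (hs : 0 < s) :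
    volume.real {x ∈ Icc (-2 : ℝ) 2 | |∑ a ∈ P, (x - q a)⁻¹| ≤ s} ≤ 80 * s / M := by
  have h := boole_weights (P.image q)
    (fun b => ((P.filter fun a => q a = b).card : ℝ)) (fun b hb => ?_) hM0 ?_ hs
  · have h1 : ∀ x : ℝ, ∑ a ∈ P, (x - q a)⁻¹
        = ∑ b ∈ P.image q, ((P.filter fun a => q a = b).card : ℝ) * (x - b)⁻¹ := by
      intro x
      rw [Finset.sum_comp (fun b => (x - b)⁻¹) q]
      simp only [nsmul_eq_mul]
    simp only [h1]
    exact h
  · obtain ⟨a, ha, rfl⟩ := Finset.mem_image.1 hb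
    exact Nat.cast_pos.2 (Finset.card_pos.2 ⟨a, Finset.mem_filter.2 ⟨ha, rfl⟩⟩)
  · refine hM.trans (le_of_eq ?_)
    rw [Finset.card_filter, Nat.cast_sum]
    have h2 := Finset.sum_comp (s := P) (fun b : ℝ => if b ∈ Icc (-1 : ℝ) 1 then (1 : ℝ) else 0) q
    simp only [nsmul_eq_mul, mul_ite, mul_one, mul_zero] at h2
    rw [← h2]
    simp only [Nat.cast_ite, Nat.cast_one, Nat.cast_zero]

end Pool.Agent.Lib.MP_6083a5_an.Absolute
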