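import Pool.Agent.Lib.MP_6083a5_an.AbsA

/-!
The descent over scales of time, run in the local time of the nodes that fall in `[-1, 1]`.
-/

open MeasureTheory Filter Topology Set Real
open Pool.Agent.Lib.MP_6083a5_an.Nested hiding boole boole_weights exists_cells descent

namespace Pool.Agent.Lib.MP_6083a5_an.Absolute

lemma half_subset : Icc (-(1 / 2) : ℝ) (1 / 2) ⊆ Icc (-1 : ℝ) 1 :=
  Icc_subset_Icc (by norm_num) (by norm_num)

open Classical in
lemma exists_cells {κ : Type*} (P : Finset κ) (q : κ → ℝ) {M : ℝ} (hM0 : 0 < M)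
    (hM : M ≤ (P.filter fun a => q a ∈ Icc (-1 : ℝ) 1).card) (N : Finset ℝ)
    (hN : ∀ a ∈ P, q a ∈ Icc (-1 : ℝ) 1 → q a ∈ N) {δ s : ℝ}
    (hδ : 0 < δ) (hδ1 : δ ≤ 1 / 16) (hs : 0 < s) {E : Set ℝ} (hE : IsCompact E)
    (hEH : E ⊆ Icc (-(1 / 2) : ℝ) (1 / 2)) :
    ∃ J : Finset ℤ, (∀ j ∈ J, Good (fun x => ∑ a ∈ P, log (x - q a)) δ (s * δ / 2) j) ∧
      (volume.real E - N.card * (16 * δ) - 640 * s / M) / 8
        - 7 / 8 * (volume.real (Metric.cthickening (8 * δ) E) - volume.real E)
        ≤ ∑ j ∈ J, ((volume.restrict E).real (kk (8 * δ) ⁻¹' {j}) - 7 * δ) := by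
  have hEI : E ⊆ Icc (-1 : ℝ) 1 := hEH.trans half_subset
  have hδ8 : 0 < 8 * δ := by positivity
  set J := (Finset.Icc (kk (8 * δ) (-1)) (kk (8 * δ) 1)).filter fun j =>
    Good (fun x => ∑ a ∈ P, log (x - q a)) δ (s * δ / 2) j ∧ ∃ x ∈ E, kk (8 * δ) x = j with hJ
  refine ⟨J, fun j hj => (Finset.mem_filter.1 hj).2.1, ?_⟩
  have hcell : ∀ k ∈ J, MeasurableSet (kk (8 * δ) ⁻¹' {k}) := fun k _ =>
    measurable_kk _ (measurableSet_singleton k)
  have hEf : volume E ≠ ⊤ := hE.measure_lt_top.ne
  have : IsFiniteMeasure (volume.restrict E) := isFiniteMeasure_restrict.2 hEf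
  set U := kk (8 * δ) ⁻¹' (J : Set ℤ) with hU
  set K := Metric.cthickening (8 * δ) E with hK
  have hKf : volume K ≠ ⊤ := hE.cthickening.measure_lt_top.ne
  have hUK : U ⊆ K := by
    intro y hy
    have hy' : kk (8 * δ) y ∈ J := hy
    obtain ⟨x, hx, hxy⟩ := (Finset.mem_filter.1 hy').2.2
    obtain ⟨a1, a2⟩ := (kk_iff hδ8).1 hxy
    obtain ⟨a3, a4⟩ := (kk_iff hδ8 (x := y)).1 rfl
    refine Metric.mem_cthickening_of_dist_le y x _ E hx ?_
    rw [Real.dist_eq, abs_le]
    constructor <;> linarith
  have hUf : volume U ≠ ⊤ := measure_ne_top_of_subset hUK hKf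
  have h1 : ∑ j ∈ J, (volume.restrict E).real (kk (8 * δ) ⁻¹' {j}) = volume.real (U ∩ E) := by
    rw [sum_measureReal_preimage_singleton J hcell, measureReal_restrict_apply' hE.measurableSet]
  have h2 : volume.real U = J.card * (8 * δ) := by
    rw [hU, ← sum_measureReal_preimage_singleton J hcell fun k _ => by
      rw [cell_eq hδ8]; exact measure_Ico_lt_top.ne]
    simp only [volume_cell hδ8, Finset.sum_const, nsmul_eq_mul]
  have h3 : volume.real U ≤ volume.real (U ∩ E) + (volume.real K - volume.real E) := by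
    rw [← measureReal_inter_add_sdiff hE.measurableSet hUf,
      ← measureReal_sdiff (Metric.self_subset_cthickening E) hE.measurableSet hKf]
    exact add_le_add_right (measureReal_mono (sdiff_subset_sdiff_left hUK)
      (measure_ne_top_of_subset sdiff_subset hKf)) _
  set B := {x ∈ Icc (-2 : ℝ) 2 | |∑ a ∈ P, (x - q a)⁻¹| ≤ s} with hB
  have hBf : volume B ≠ ⊤ :=
    ((measure_mono fun x hx => hx.1).trans_lt isCompact_Icc.measure_lt_top).ne
  have hBv : volume.real B ≤ 80 * s / M := boole P q hM0 hM hs
  set B1 := ⋃ b ∈ N, Metric.closedBall b (8 * δ) with hB1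
  set B2 := ⋃ i ∈ Finset.Icc (-4 : ℤ) 3, (fun x : ℝ => x + i * δ) ⁻¹' B with hB2
  have h4 : volume.real B1 ≤ N.card * (16 * δ) := by
    refine (measureReal_biUnion_finset_le _ _).trans (le_of_eq ?_)
    simp only [Real.volume_real_closedBall hδ8.le, Finset.sum_const, nsmul_eq_mul]
    ring
  have h5 : volume.real B2 ≤ 640 * s / M := by
    refine (measureReal_biUnion_finset_le _ _).trans ?_
    simp only [measureReal_def, measure_preimage_add_right, Finset.sum_const, nsmul_eq_mul]
    rw [Int.card_Icc, show (3 + 1 - -4 : ℤ).toNat = 8 by decide]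
    rw [measureReal_def] at hBv
    have : 640 * s / M = 8 * (80 * s / M) := by ring
    push_cast
    linarith
  have h6 : E ⊆ (U ∩ E) ∪ (B1 ∪ B2) := by
    intro x hx
    by_contra hc
    simp only [mem_union, not_or, hB1, hB2, mem_iUnion, not_exists] at hc
    obtain ⟨c1, c2, c3⟩ := hc
    have hxI := hEI hx
    refine c1 ⟨show kk (8 * δ) x ∈ J from ?_, hx⟩
    refine Finset.mem_filter.2 ⟨Finset.mem_Icc.2 ⟨?_, ?_⟩, ?_, x, hx, rfl⟩
    · exact Int.floor_mono (div_le_div_of_nonneg_right hxI.1 hδ8.le)
    · exact Int.floor_mono (div_le_div_of_nonneg_right hxI.2 hδ8.le)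
    · rw [kk_eight]
      refine good_of P q hδ hs (fun a ha => ?_) fun i hi => ?_
      · by_cases hq : q a ∈ Icc (-1 : ℝ) 1
        · have := c2 _ (hN a ha hq)
          rwa [Metric.mem_closedBall, Real.dist_eq, not_le] at this
        · have d1 := hEH hx
          rw [mem_Icc, not_and_or, not_le, not_le] at hq
          rw [lt_abs]
          rcases hq with d2 | d2
          · left; linarith [d1.1]
          · right; linarith [d1.2]
      · by_contra h
        have d1 : (-4 : ℝ) ≤ i := by exact_mod_cast (Finset.mem_Icc.1 hi).1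
        have d2 : (i : ℝ) ≤ 3 := by exact_mod_cast (Finset.mem_Icc.1 hi).2
        exact c3 i hi ⟨⟨by nlinarith [hxI.1], by nlinarith [hxI.2]⟩, not_lt.1 h⟩
  have h7 : volume.real E ≤ volume.real (U ∩ E) + (volume.real B1 + volume.real B2) := by
    have f1 : volume B1 ≠ ⊤ := (measure_biUnion_lt_top N.finite_toSet
      fun _ _ => measure_closedBall_lt_top).ne
    have f2 : volume B2 ≠ ⊤ := (measure_biUnion_lt_top (Finset.Icc (-4 : ℤ) 3).finite_toSet
      fun _ _ => by rw [measure_preimage_add_right]; exact hBf.lt_top).ne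
    exact (measureReal_mono h6 (measure_union_ne_top
      (measure_ne_top_of_subset inter_subset_right hEf) (measure_union_ne_top f1 f2))).trans
      ((measureReal_union_le _ _).trans (add_le_add_right (measureReal_union_le _ _) _))
  rw [Finset.sum_sub_distrib, h1, Finset.sum_const, nsmul_eq_mul]
  linarith

open Classical in
theorem descent {E : Set ℝ} (hE : IsCompact E) (hEH : E ⊆ Icc (-(1 / 2) : ℝ) (1 / 2)) {e0 : ℝ}
    (he0 : 0 < e0) (he : e0 ≤ volume.real E) (t γ : ℕ → ℝ) (m : ℕ → ℕ) (hm : StrictMono m)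
    (hm1 : ∀ j, t (m j) ∈ Icc (-1 : ℝ) 1) (hm2 : ∀ i, t i ∈ Icc (-1 : ℝ) 1 → ∃ j, m j = i)
    (N0 a0 : ℕ) (hv : ∀ n, N0 ≤ n → ∀ᵐ x ∂volume.restrict E, vv t γ (m n) x ≤ 0)
    (ha0 : ∀ a, a0 ≤ a →
      volume.real (Metric.cthickening (e0 / 8 / 8 ^ a) E) - volume.real E ≤ e0 / 28) (b : ℕ) :
    ∀ W, Wt (volume.restrict E) (e0 / 8 / 8 ^ (a0 + b + 1)) W → ∀ q s : ℕ, N0 ≤ s →
      (∑ n ∈ Finset.range (q * 8 ^ (a0 + b)), ∫ x in E, W x * vv t γ (m (s + n)) x)
        + (q * 8 ^ (a0 + b) : ℕ) * (b * (e0 ^ 3 / 20971520)) ≤ 0 := by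
  have hEI : E ⊆ Icc (-1 : ℝ) 1 := hEH.trans half_subset
  have hEf : volume E ≠ ⊤ := hE.measure_lt_top.ne
  have : IsFiniteMeasure (volume.restrict E) := isFiniteMeasure_restrict.2 hEf
  have he2 : e0 ≤ 2 := by
    refine he.trans ((measureReal_mono hEI isCompact_Icc.measure_lt_top.ne).trans ?_)
    rw [Real.volume_real_Icc_of_le (by norm_num)]
    norm_num
  induction b with
  | zero =>
    intro W hW q s hs
    simp only [Nat.cast_zero, zero_mul, mul_zero, add_zero]
    refine Finset.sum_nonpos fun n _ => integral_nonpos_of_ae ?_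
    filter_upwards [hv (s + n) (by omega)] with x hx
    exact mul_nonpos_of_nonneg_of_nonpos (hW.nonneg x) hx
  | succ b ih =>
    intro W hW
    set a := a0 + b with ha
    set g := e0 ^ 3 / 20971520 with hg
    set H := 4 * 8 ^ a with hH
    have hH0 : 0 < H := by positivity
    have hT : 8 ^ (a0 + (b + 1)) = H + H := by rw [← add_assoc, ← ha, pow_succ, hH]; ring
    have one : ∀ s : ℕ, N0 ≤ s →
        (∑ n ∈ Finset.range (H + H), ∫ x in E, W x * vv t γ (m (s + n)) x)
        + (H + H : ℕ) * (((b + 1 : ℕ) : ℝ) * g) ≤ 0 := by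
      intro s hs
      set δ : ℝ := e0 / 8 / 8 ^ (a0 + (b + 1) + 1) with hδdef
      have hδ : 0 < δ := by positivity
      have h8 : (0 : ℝ) < 8 ^ a := by positivity
      have h81 : (1 : ℝ) ≤ 8 ^ a := one_le_pow₀ (by norm_num)
      have hHr : (H : ℝ) = 4 * 8 ^ a := by rw [hH]; push_cast; ring
      have hHδ : H * δ = e0 / 128 := by
        rw [hHr, hδdef, ← add_assoc, ← ha, pow_succ, pow_succ]
        field_simp
        norm_num
      have hδ8 : 8 * δ = e0 / 8 / 8 ^ (a + 1) := by
        rw [hδdef, ← add_assoc, ← ha, pow_succ _ (a + 1)]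
        field_simp
      have hδ1 : δ ≤ 1 / 16 := by nlinarith
      set P := (Finset.range H).sigma fun n => Finset.Ico (m (s + n)) (m (s + H + n)) with hP
      have hHp : (0 : ℝ) < H := by exact_mod_cast hH0
      have hPc : (H : ℝ) ^ 2 ≤ (P.filter fun p => t p.2 ∈ Icc (-1 : ℝ) 1).card := by
        have c1 := Finset.card_le_card_of_injOn (s := Finset.range H ×ˢ Finset.range H)
          (t := P.filter fun p => t p.2 ∈ Icc (-1 : ℝ) 1)
          (fun p => (⟨p.1, m (s + p.1 + p.2)⟩ : Σ _ : ℕ, ℕ)) (fun p hp => ?_) fun p _ p' _ h => ?_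
        · rw [Finset.card_product, Finset.card_range] at c1
          rw [sq]
          exact_mod_cast c1
        · have c2 := Finset.mem_product.1 (Finset.mem_coe.1 hp)
          simp only [Finset.mem_range] at c2
          refine Finset.mem_coe.2 (Finset.mem_filter.2 ⟨Finset.mem_sigma.2
            ⟨Finset.mem_range.2 c2.1, Finset.mem_Ico.2
              ⟨hm.monotone (Nat.le_add_right _ _), hm ?_⟩⟩, hm1 _⟩)
          change s + p.1 + p.2 < s + H + p.1
          omega
        · have c2 : p.1 = p'.1 := congrArg Sigma.fst h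
          have c3 : m (s + p.1 + p.2) = m (s + p'.1 + p'.2) :=
            congrArg (fun z : Σ _ : ℕ, ℕ => z.2) h
          have c4 := hm.injective c3
          exact Prod.ext c2 (by omega)
      obtain ⟨J, hJ1, hJ2⟩ := exists_cells P (fun p => t p.2) (by positivity) hPc
        ((Finset.range (H + H)).image fun i => t (m (s + i)))
        (fun p hp hq => by
          obtain ⟨j, hj⟩ := hm2 _ hq
          obtain ⟨c1, c2⟩ := Finset.mem_sigma.1 hp
          rw [← hj, Finset.mem_Ico, hm.le_iff_le, hm.lt_iff_lt] at c2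
          rw [Finset.mem_range] at c1
          exact Finset.mem_image.2 ⟨j - s, Finset.mem_range.2 (by omega), by
            rw [show s + (j - s) = j by omega, hj]⟩)
        hδ hδ1 (s := e0 / 2560 * H ^ 2) (by positivity) hE hEH
      have hlogi : ∀ n, Integrable
          (fun x => ∑ i ∈ Finset.Ico (m (s + n)) (m (s + H + n)), log (x - t i))
          (volume.restrict E) := fun n =>
        integrable_finsetSum _ fun i _ => integrable_log_sub hEI _
      obtain ⟨ε, hεm, hε1, hε⟩ := exists_test (volume.restrict E) hδ (by positivity)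
        (fun k => by
          rw [measureReal_restrict_apply' hE.measurableSet]
          refine (measureReal_mono inter_subset_left ?_).trans (volume_cell hδ k).le
          rw [cell_eq hδ]; exact measure_Ico_lt_top.ne) _
        (integrable_finsetSum _ fun p _ => integrable_log_sub hEI _) J hJ1
      obtain ⟨w1, w2, w3, w4⟩ := hε W hW
      rw [hδ8] at w1 w2
      have i1 := ih _ w2 4 s hs
      have i2 := ih _ w1 4 (s + H) (by omega)
      rw [← hH] at i1 i2
      have hWε : ∀ f, Integrable f (volume.restrict E) →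
          Integrable (fun x => W x * ε x * f x) (volume.restrict E) := by
        intro f hf
        simp only [mul_assoc]
        exact hW.integrable_mul (hf.bdd_mul (c := 1) hεm.aestronglyMeasurable
          (Eventually.of_forall hε1))
      have hn : ∀ n, (∫ x in E, W x * (1 - ε x) * vv t γ (m (s + n)) x)
          + ∫ x in E, W x * (1 + ε x) * vv t γ (m (s + H + n)) x
          = (∫ x in E, W x * vv t γ (m (s + n)) x) + (∫ x in E, W x * vv t γ (m (s + (H + n))) x)
            + ∫ x in E, W x * ε x
              * ∑ i ∈ Finset.Ico (m (s + n)) (m (s + H + n)), log (x - t i) := by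
        intro n
        have j1 := integrable_vv hE hEI t γ (m (s + n))
        have j2 := integrable_vv hE hEI t γ (m (s + H + n))
        have j3 : ∀ x, vv t γ (m (s + H + n)) x = vv t γ (m (s + n)) x
            + ∑ i ∈ Finset.Ico (m (s + n)) (m (s + H + n)), log (x - t i)
            + (γ (m (s + H + n)) - γ (m (s + n))) := by
          intro x
          unfold vv
          rw [← Finset.sum_range_add_sum_Ico _ (hm.monotone (show s + n ≤ s + H + n by omega))]
          ring
        have j4 : ∫ x in E, W x * (1 - ε x) * vv t γ (m (s + n)) x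
            = (∫ x in E, W x * vv t γ (m (s + n)) x)
              - ∫ x in E, W x * ε x * vv t γ (m (s + n)) x := by
          rw [← integral_sub (hW.integrable_mul j1) (hWε _ j1)]
          exact integral_congr_ae (Eventually.of_forall fun x => by ring)
        have j5 : ∫ x in E, W x * (1 + ε x) * vv t γ (m (s + H + n)) x
            = (∫ x in E, W x * vv t γ (m (s + H + n)) x)
              + ∫ x in E, W x * ε x * vv t γ (m (s + H + n)) x := by
          rw [← integral_add (hW.integrable_mul j2) (hWε _ j2)]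
          exact integral_congr_ae (Eventually.of_forall fun x => by ring)
        have j6 : ∫ x in E, W x * ε x * vv t γ (m (s + H + n)) x
            = (∫ x in E, W x * ε x * vv t γ (m (s + n)) x)
              + (∫ x in E, W x * ε x * ∑ i ∈ Finset.Ico (m (s + n)) (m (s + H + n)), log (x - t i))
              + ∫ x in E, W x * ε x * (γ (m (s + H + n)) - γ (m (s + n))) := by
          have j7 : Integrable (fun x => W x * ε x * vv t γ (m (s + n)) x
              + W x * ε x * ∑ i ∈ Finset.Ico (m (s + n)) (m (s + H + n)), log (x - t i))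
              (volume.restrict E) :=
            (hWε _ j1).add (hWε _ (hlogi n))
          rw [← integral_add (hWε _ j1) (hWε _ (hlogi n)),
            ← integral_add j7 (hWε _ (integrable_const _))]
          exact integral_congr_ae (Eventually.of_forall fun x => by
            simp only [j3 x]; ring)
        rw [integral_mul_const, w3, zero_mul, add_zero] at j6
        rw [j4, j5, j6, ← add_assoc s H n]
        ring
      have hs1 := Finset.sum_congr (rfl : Finset.range H = Finset.range H) fun n _ => hn n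
      rw [Finset.sum_add_distrib, Finset.sum_add_distrib, Finset.sum_add_distrib,
        ← integral_finsetSum _ fun n _ => hWε _ (hlogi n)] at hs1
      have hs2 : ∫ x in E, ∑ n ∈ Finset.range H,
            W x * ε x * ∑ i ∈ Finset.Ico (m (s + n)) (m (s + H + n)), log (x - t i)
          = ∫ x in E, W x * ε x * ∑ p ∈ P, log (x - t p.2) := by
        refine integral_congr_ae (Eventually.of_forall fun x => ?_)
        simp only [hP, Finset.sum_sigma, Finset.mul_sum]
      have hc : ((((Finset.range (H + H)).image fun i => t (m (s + i))).card : ℕ) : ℝ) ≤ H + H := by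
        exact_mod_cast Finset.card_image_le.trans (Finset.card_range _).le
      have k1 : 640 * (e0 / 2560 * H ^ 2) / H ^ 2 = e0 / 4 := by
        field_simp; norm_num
      have k2 := ha0 (a + 1) (by omega)
      rw [← hδ8] at k2
      have k3 := mul_le_mul_of_nonneg_right hc (by positivity : 0 ≤ 16 * δ)
      have k4 : e0 / 32 ≤ ∑ j ∈ J, ((volume.restrict E).real (kk (8 * δ) ⁻¹' {j}) - 7 * δ) := by
        rw [k1] at hJ2
        nlinarith
      have k5 : 2 * (e0 / 2560 * H ^ 2 * δ / 2) * (e0 / 32) = (H + H) * g := by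
        have : 2 * (e0 / 2560 * H ^ 2 * δ / 2) * (e0 / 32) = e0 ^ 2 / 81920 * H * (H * δ) := by
          ring
        rw [this, hHδ, hg]
        ring
      have k6 := (mul_le_mul_of_nonneg_left k4
        (by positivity : 0 ≤ 2 * (e0 / 2560 * H ^ 2 * δ / 2))).trans w4
      rw [Finset.sum_range_add]
      rw [k5, ← hs2] at k6
      push_cast
      linarith
    intro q
    rw [hT]
    induction q with
    | zero => intro s _; simp
    | succ q ihq =>
      intro s hs
      have h1 := ihq s hs
      have h2 := one (s + q * (H + H)) (by omega)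
      rw [Nat.succ_mul, Finset.sum_range_add]
      simp only [← add_assoc s]
      push_cast at h1 h2 ⊢
      linarith

end Pool.Agent.Lib.MP_6083a5_an.Absolute
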