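import Pool.Agent.Lib.MP_6083a5_an.AbsB

/-!
Two sided control of the normalised node polynomial for bounded nodes, and the linear growth of
the number of nodes in `[-1, 1]` when the Lebesgue functions grow slowly on a large set.
-/

open MeasureTheory Filter Topology Set Real Lagrange
open Pool.Agent.Lib.MP_6083a5_an.Nested hiding boole boole_weights exists_cells descent upper lower
  exists_rpow_bound

namespace Pool.Agent.Lib.MP_6083a5_an.Absolute

lemma upper {t : ℕ → ℝ} (ht : Function.Injective t) {B : ℝ} {n : ℕ}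
    (hn : 1 ≤ n) {x : ℝ} (hB : ∀ k, |x - t k| ≤ B) (hx : ∀ k, x ≠ t k) :
    ∑ i ∈ Finset.range n, log (x - t i) + log (wsum t n) ≤ log (B * leb t n x) := by
  have h0 : 0 < |∏ i ∈ Finset.range n, (x - t i)| :=
    abs_pos.2 (Finset.prod_ne_zero_iff.2 fun i _ => sub_ne_zero.2 (hx i))
  have h1 := wsum_pos ht hn
  rw [sum_log_eq t n hx, ← log_mul h0.ne' h1.ne', leb_eq t n hx, mul_left_comm]
  refine log_le_log (by positivity) (mul_le_mul_of_nonneg_left ?_ h0.le)
  rw [wsum, Finset.mul_sum]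
  refine Finset.sum_le_sum fun k _ => ?_
  have h2 : 0 < |x - t k| := abs_pos.2 (sub_ne_zero.2 (hx k))
  have h4 : 1 ≤ B * |x - t k|⁻¹ := by
    rw [← div_eq_mul_inv, le_div_iff₀ h2, one_mul]
    exact hB k
  nlinarith [abs_nonneg (nodalWeight (Finset.range n) t k)]

lemma exists_rpow_bound {p : ℝ} (hp : -1 < p) (hp0 : p ≤ 0) : ∃ C : ℝ, 0 ≤ C ∧ ∀ E : Set ℝ,
    MeasurableSet E → E ⊆ Icc (-(1 / 2) : ℝ) (1 / 2) → ∀ b : ℝ,
      Integrable (fun x => |x - b| ^ p) (volume.restrict E) ∧ ∫ x in E, |x - b| ^ p ≤ C := by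
  obtain ⟨C, hC0, hC⟩ := Nested.exists_rpow_bound hp
  refine ⟨C + 4, by positivity, fun E hE hEH b => ?_⟩
  have hEI : E ⊆ Icc (-1 : ℝ) 1 := hEH.trans half_subset
  by_cases hb : b ∈ Icc (-1 : ℝ) 1
  · exact ⟨(hC E hE hEI b hb).1, (hC E hE hEI b hb).2.trans (by linarith)⟩
  have hEf : volume E ≠ ⊤ := measure_ne_top_of_subset hEI isCompact_Icc.measure_lt_top.ne
  have h1 : ∀ x ∈ E, |x - b| ^ p ≤ 2 := by
    intro x hx
    have d1 := hEH hx
    have d2 : 1 / 2 ≤ |x - b| := by
      rw [mem_Icc, not_and_or, not_le, not_le] at hb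
      rw [le_abs]
      rcases hb with d2 | d2
      · left; linarith [d1.1]
      · right; linarith [d1.2]
    calc |x - b| ^ p ≤ (1 / 2 : ℝ) ^ p := rpow_le_rpow_of_nonpos (by norm_num) d2 hp0
      _ ≤ (1 / 2 : ℝ) ^ (-1 : ℝ) :=
        rpow_le_rpow_of_exponent_ge (by norm_num) (by norm_num) hp.le
      _ = 2 := by rw [rpow_neg_one]; norm_num
  have h2 : Integrable (fun _ : ℝ => (2 : ℝ)) (volume.restrict E) := integrableOn_const hEf
  have h3 : Integrable (fun x => |x - b| ^ p) (volume.restrict E) := by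
    refine h2.mono' (Measurable.aestronglyMeasurable (by fun_prop)) ?_
    filter_upwards [ae_restrict_mem hE] with x hx
    rw [norm_of_nonneg (by positivity)]
    exact h1 x hx
  refine ⟨h3, (setIntegral_mono_on h3 h2 hE h1).trans ?_⟩
  rw [setIntegral_const, smul_eq_mul]
  linarith [volume_le_two hEI]

lemma lower {θ : ℝ} (hθ : 0 < θ) : ∃ C : ℝ, ∀ E : Set ℝ, IsCompact E →
    E ⊆ Icc (-(1 / 2) : ℝ) (1 / 2) → ∀ t : ℕ → ℝ, Function.Injective t → ∀ n : ℕ, 1 ≤ n →
      -(2 * θ * log n + C) ≤ ∫ x in E, vv t (fun n => log (wsum t n)) n x := by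
  obtain ⟨C, hC0, hC⟩ := exists_rpow_bound (p := -(1 + θ)⁻¹)
    (neg_lt_neg (inv_lt_one_of_one_lt₀ (by linarith))) (neg_nonpos.2 (by positivity))
  refine ⟨(1 + θ) * C, fun E hE hEH t ht n hn => ?_⟩
  have hEI : E ⊆ Icc (-1 : ℝ) 1 := hEH.trans half_subset
  have hC' := fun k => hC E hE.measurableSet hEH (t k)
  have h1 := wsum_pos ht hn
  have hn0 : (0 : ℝ) < n := by exact_mod_cast hn
  have hlog : 0 ≤ log n := log_natCast_nonneg n
  have i0 : Integrable (fun _ : ℝ => θ * log n) (volume.restrict E) :=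
    integrableOn_const hE.measure_lt_top.ne
  have i1 : ∀ k ∈ Finset.range n, Integrable (fun x =>
      (|nodalWeight (Finset.range n) t k| / wsum t n + θ / n) * |x - t k| ^ (-(1 + θ)⁻¹))
      (volume.restrict E) := fun k _ => (hC' k).1.const_mul _
  have i2 := integrable_finsetSum _ i1
  have i3 : Integrable (fun x => -(θ * log n + ∑ k ∈ Finset.range n,
      (|nodalWeight (Finset.range n) t k| / wsum t n + θ / n) * |x - t k| ^ (-(1 + θ)⁻¹)))
      (volume.restrict E) := (i0.add i2).neg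
  refine le_trans ?_ (integral_mono_ae i3 (integrable_vv hE hEI t _ n) ?_)
  · rw [integral_neg, integral_add i0 i2, integral_finsetSum _ i1, setIntegral_const,
      smul_eq_mul, neg_le_neg_iff]
    have a1 : ∑ k ∈ Finset.range n, ∫ x in E,
        (|nodalWeight (Finset.range n) t k| / wsum t n + θ / n) * |x - t k| ^ (-(1 + θ)⁻¹)
        ≤ ∑ k ∈ Finset.range n, (|nodalWeight (Finset.range n) t k| / wsum t n + θ / n) * C := by
      refine Finset.sum_le_sum fun k _ => ?_
      rw [integral_const_mul]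
      exact mul_le_mul_of_nonneg_left (hC' k).2 (by positivity)
    have a2 : ∑ k ∈ Finset.range n, (|nodalWeight (Finset.range n) t k| / wsum t n + θ / n)
        = 1 + θ := by
      rw [Finset.sum_add_distrib, ← Finset.sum_div, Finset.sum_const, Finset.card_range,
        nsmul_eq_mul]
      change wsum t n / wsum t n + _ = _
      field_simp
    rw [← Finset.sum_mul, a2] at a1
    have a3 := mul_le_mul_of_nonneg_right (volume_le_two hEI) (by positivity : 0 ≤ θ * log n)
    linarith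
  · filter_upwards [ae_not_node t E] with x hx
    exact lower_pt ht hn hθ hx

lemma interp_bound {t : ℕ → ℝ} (ht : Function.Injective t) {n : ℕ} (f : Polynomial ℝ)
    (hf : f.natDegree < n) {A : ℝ} (hA : ∀ k < n, |f.eval (t k)| ≤ A) (y : ℝ) :
    |f.eval y| ≤ A * leb t n y := by
  have h1 : f.degree < (Finset.range n).card := by
    rw [Finset.card_range]
    exact Polynomial.degree_le_natDegree.trans_lt (by exact_mod_cast hf)
  have h2 := congrArg (Polynomial.eval y) (Lagrange.eq_interpolate ht.injOn h1)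
  rw [h2, Lagrange.interpolate_apply, Polynomial.eval_finsetSum, leb, Finset.mul_sum]
  refine (Finset.abs_sum_le_sum_abs _ _).trans (Finset.sum_le_sum fun k hk => ?_)
  rw [Polynomial.eval_mul, Polynomial.eval_C, abs_mul]
  exact mul_le_mul_of_nonneg_right (hA k (Finset.mem_range.1 hk)) (abs_nonneg _)

lemma peak_pt {t : ℕ → ℝ} (ht : Function.Injective t) {R : ℝ} (hR : 2 ≤ R) (htR : ∀ i, |t i| ≤ R)
    {n r : ℕ} (L : Finset ℕ) (hL : ∀ k < n, t k ∈ Icc (-1 : ℝ) 1 → k ∈ L)
    (hLI : ∀ k ∈ L, t k ∈ Icc (-1 : ℝ) 1) (hr : L.card + 2 * r < n) {y : ℝ}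
    (hy : y ∈ Icc (-(1 / 2) : ℝ) (1 / 2)) (hx : ∀ k, y ≠ t k) :
    ∑ i ∈ L, log (y - t i) + r * log (R ^ 2 - 1 / 4)
      ≤ L.card * log (R + 1) + r * log (R ^ 2 - 1) + log (leb t n y) := by
  set f : Polynomial ℝ := nodal L t * (Polynomial.C (R ^ 2) - Polynomial.X ^ 2) ^ r with hf
  have hev : ∀ x, f.eval x = (∏ i ∈ L, (x - t i)) * (R ^ 2 - x ^ 2) ^ r := by
    intro x
    simp [hf, eval_nodal]
  have hdeg : f.natDegree < n := by
    refine lt_of_le_of_lt ?_ hr
    refine Polynomial.natDegree_mul_le.trans (add_le_add (natDegree_nodal).le ?_)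
    refine Polynomial.natDegree_pow_le.trans ?_
    rw [mul_comm]
    refine Nat.mul_le_mul_right _ ?_
    compute_degree
  have h1 : 0 < R ^ 2 - 1 := by nlinarith
  have h2 := interp_bound ht f hdeg (A := (R + 1) ^ L.card * (R ^ 2 - 1) ^ r) (fun k hk => ?_) y
  · have h3 : 1 ≤ leb t n y := one_le_leb ht (by omega) y
    have h4 : 0 < |∏ i ∈ L, (y - t i)| :=
      abs_pos.2 (Finset.prod_ne_zero_iff.2 fun i _ => sub_ne_zero.2 (hx i))
    have h5 : R ^ 2 - 1 / 4 ≤ R ^ 2 - y ^ 2 := by nlinarith [hy.1, hy.2]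
    have h6 : |∏ i ∈ L, (y - t i)| * (R ^ 2 - 1 / 4) ^ r ≤ |f.eval y| := by
      rw [hev, abs_mul]
      refine mul_le_mul_of_nonneg_left (le_trans ?_ (le_abs_self _)) h4.le
      exact pow_le_pow_left₀ (by linarith) h5 r
    have h7 : 0 < R ^ 2 - 1 / 4 := by linarith
    have h8 := log_le_log (by positivity) (h6.trans h2)
    rw [log_mul h4.ne' (by positivity), log_mul (by positivity) (by positivity),
      log_mul (by positivity) (by positivity), log_pow, log_pow, log_pow, log_abs,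
      log_prod fun i _ => sub_ne_zero.2 (hx i)] at h8
    exact h8
  · rw [hev]
    by_cases hkI : t k ∈ Icc (-1 : ℝ) 1
    · rw [Finset.prod_eq_zero (hL k hk hkI) (sub_self _), zero_mul, abs_zero]
      positivity
    · rw [abs_mul, Finset.abs_prod, abs_pow]
      have d1 := abs_le.1 (htR k)
      have d2 : 1 ≤ t k ^ 2 := by
        rw [mem_Icc, not_and_or, not_le, not_le] at hkI
        rcases hkI with d | d <;> nlinarith
      refine mul_le_mul ?_ (pow_le_pow_left₀ (abs_nonneg _) ?_ r) (by positivity) (by positivity)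
      · rw [← Finset.prod_const]
        refine Finset.prod_le_prod (fun _ _ => abs_nonneg _) fun i hi => ?_
        have d3 := hLI i hi
        rw [abs_le]
        constructor <;> linarith [d1.1, d1.2, d3.1, d3.2]
      · rw [abs_le]
        constructor <;> nlinarith [d1.1, d1.2]

open Classical in
theorem local_time {t : ℕ → ℝ} (ht : Function.Injective t) {R : ℝ} (hR : 2 ≤ R)
    (htR : ∀ i, |t i| ≤ R) {E : Set ℝ} (hE : IsCompact E) (hEH : E ⊆ Icc (-(1 / 2) : ℝ) (1 / 2))
    (he : 1 / 2 ≤ volume.real E) {c : ℝ} (hc : 0 < c) {N : ℕ}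
    (hleb : ∀ x ∈ E, ∀ n, N ≤ n → leb t n x ≤ (n : ℝ) ^ c) :
    ∃ K : ℝ, 1 ≤ K ∧ ∀ n, N ≤ n →
      (n : ℝ) ≤ K * (Nat.count (fun i => t i ∈ Icc (-1 : ℝ) 1) n + 1) := by
  have hEI : E ⊆ Icc (-1 : ℝ) 1 := hEH.trans half_subset
  obtain ⟨C, hC0, hC⟩ := exists_rpow_bound (p := -(1 / 2)) (by norm_num) (by norm_num)
  have hlog : ∀ i, -(2 * C) ≤ ∫ x in E, log (x - t i) := by
    intro i
    obtain ⟨c1, c2⟩ := hC E hE.measurableSet hEH (t i)
    refine le_trans ?_ (integral_mono_ae (c1.const_mul (-2)) (integrable_log_sub hEI _) ?_)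
    · rw [integral_const_mul]
      linarith
    · filter_upwards [ae_not_node t E] with x hx
      have c3 : 0 < |x - t i| := abs_pos.2 (sub_ne_zero.2 (hx i))
      have c4 := log_le_sub_one_of_pos (rpow_pos_of_pos c3 (-(1 / 2)))
      rw [log_rpow c3, log_abs] at c4
      linarith
  set η := log (R ^ 2 - 1 / 4) - log (R ^ 2 - 1) with hη
  have hη0 : 0 < η := sub_pos.2 (log_lt_log (by nlinarith) (by linarith))
  set A := log (R + 1) with hA
  have hA0 : 0 ≤ A := log_nonneg (by linarith)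
  set ε := η / (16 * c) with hε
  have hε0 : 0 < ε := by positivity
  set D := 2 * C + 2 * A + η + 2 * c * |log ε| with hD
  have hD1 : η ≤ D := by
    have : 0 ≤ 2 * c * |log ε| := by positivity
    linarith
  have hK : 1 ≤ 8 * D / η := by
    rw [le_div_iff₀ hη0]
    linarith
  refine ⟨8 * D / η, hK, fun n hn => ?_⟩
  rw [Nat.count_eq_card_filter_range]
  set L := (Finset.range n).filter fun i => t i ∈ Icc (-1 : ℝ) 1 with hL
  have hM0 : (0 : ℝ) ≤ L.card := Nat.cast_nonneg _
  by_cases hM : n ≤ L.card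
  · have : (n : ℝ) ≤ L.card := by exact_mod_cast hM
    nlinarith
  set r := (n - L.card - 1) / 2 with hr
  have hr1 : L.card + 2 * r < n := by omega
  have hr2 : (n : ℝ) ≤ L.card + 2 * r + 2 := by exact_mod_cast (by omega : n ≤ L.card + 2 * r + 2)
  have hr0 : (0 : ℝ) ≤ r := Nat.cast_nonneg _
  have hn0 : (0 : ℝ) < n := by exact_mod_cast (by omega : 0 < n)
  have h1 : ∫ x in E, ∑ i ∈ L, log (x - t i) ≤ ∫ _ in E, (L.card * A - r * η + c * log n) := by
    refine integral_mono_ae (integrable_finsetSum _ fun i _ => integrable_log_sub hEI _)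
      (integrableOn_const hE.measure_lt_top.ne) ?_
    filter_upwards [ae_not_node t E, ae_restrict_mem hE.measurableSet] with x hx hxE
    have c1 := peak_pt ht hR htR L
      (fun k hk hI => Finset.mem_filter.2 ⟨Finset.mem_range.2 hk, hI⟩)
      (fun k hk => (Finset.mem_filter.1 hk).2) hr1 (hEH hxE) hx
    have c2 := log_le_log (zero_lt_one.trans_le (one_le_leb ht (by omega) x)) (hleb x hxE n hn)
    rw [log_rpow hn0] at c2
    rw [hη]
    linarith
  rw [integral_finsetSum _ fun i _ => integrable_log_sub hEI _, setIntegral_const,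
    smul_eq_mul] at h1
  have h2 := Finset.sum_le_sum (s := L) fun i _ => hlog i
  rw [Finset.sum_const, nsmul_eq_mul] at h2
  have h3 := mul_le_mul_of_nonneg_right he (by positivity : 0 ≤ r * η)
  have h4 := mul_le_mul_of_nonneg_right (volume_le_two hEI)
    (add_nonneg (mul_nonneg hM0 hA0) (mul_nonneg hc.le (log_natCast_nonneg n)))
  have h5 := log_le_sub_one_of_pos (mul_pos hε0 hn0)
  rw [log_mul hε0.ne' hn0.ne'] at h5
  have h6 : 2 * c * log n ≤ η * n / 8 + 2 * c * |log ε| := by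
    have c1 : η * n / 8 = 2 * c * (ε * n) := by
      rw [hε]; field_simp; norm_num
    rw [c1, ← mul_add]
    exact mul_le_mul_of_nonneg_left (by linarith [neg_abs_le (log ε)]) (by positivity)
  have h7 := mul_le_mul_of_nonneg_right hr2 hη0.le
  rw [div_mul_eq_mul_div, le_div_iff₀ hη0, hD]
  have h8 : 0 ≤ L.card * η := by positivity
  have h9 : 0 ≤ L.card * (c * |log ε|) := by positivity
  nlinarith

end Pool.Agent.Lib.MP_6083a5_an.Absolute
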