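import Pool.Agent.Lib.MP_6083a5_an.AbsC

/-!
An absolute exponent: the set where the Lebesgue functions of a nested sequence of nodes stay
below `n ^ c` has density below one half in every interval, so it is null.
-/

open MeasureTheory Filter Topology Set Real Lagrange
open Pool.Agent.Lib.MP_6083a5_an.Nested hiding boole boole_weights exists_cells descent upper lower
  exists_rpow_bound small_set

namespace Pool.Agent.Lib.MP_6083a5_an.Absolute

theorem small_set : ∃ c : ℝ, 0 < c ∧ ∀ t : ℕ → ℝ, Function.Injective t → ∀ R : ℝ, 2 ≤ R →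
    (∀ i, |t i| ≤ R) → ∀ N : ℕ,
      volume.real {x ∈ Icc (-(1 / 2) : ℝ) (1 / 2) | ∀ n, N ≤ n → leb t n x ≤ (n : ℝ) ^ c}
        < 1 / 2 := by
  classical
  set e0 : ℝ := 1 / 2 with he0def
  have he0 : 0 < e0 := by norm_num [he0def]
  set g := e0 ^ 3 / 20971520 with hg
  have hg0 : 0 < g := by positivity
  refine ⟨g / 24, by positivity, fun t ht R hR htR N => ?_⟩
  set c := g / 24 with hc
  have hc0 : 0 < c := by positivity
  set E := {x ∈ Icc (-e0) e0 | ∀ n, N ≤ n → leb t n x ≤ (n : ℝ) ^ c} with hEdef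
  have hEH : E ⊆ Icc (-(1 / 2) : ℝ) (1 / 2) := fun x hx => hx.1
  have hEI : E ⊆ Icc (-1 : ℝ) 1 := hEH.trans half_subset
  have hE : IsCompact E := by
    refine isCompact_Icc.inter_right (t := {x | ∀ n, N ≤ n → leb t n x ≤ (n : ℝ) ^ c}) ?_
    simp only [Set.ofPred_forall]
    refine isClosed_iInter fun n => isClosed_iInter fun _ => isClosed_le ?_ continuous_const
    exact continuous_finsetSum _ fun k _ => (Polynomial.continuous _).abs
  by_contra hne
  have he : e0 ≤ volume.real E := not_lt.1 hne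
  have hEf : volume E ≠ ⊤ := hE.measure_lt_top.ne
  have : IsFiniteMeasure (volume.restrict E) := isFiniteMeasure_restrict.2 hEf
  obtain ⟨K, hK1, hK⟩ := local_time ht hR htR hE hEH he hc0 (N := N) fun x hx => hx.2
  set p : ℕ → Prop := fun i => t i ∈ Icc (-1 : ℝ) 1 with hp
  have hinf : (ofPred p).Infinite := by
    intro hfin
    obtain ⟨n, hn1, hn2⟩ := ((tendsto_natCast_atTop_atTop (R := ℝ).eventually_gt_atTop
      (K * (hfin.toFinset.card + 1))).and (eventually_ge_atTop N)).exists
    have a1 : ((Nat.count p n : ℕ) : ℝ) ≤ hfin.toFinset.card := by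
      exact_mod_cast Nat.count_le_card hfin n
    have a2 := hK n hn2
    nlinarith
  set m := Nat.nth p with hmdef
  have hm : StrictMono m := Nat.nth_strictMono hinf
  have hmK : ∀ j, N ≤ j → (m j : ℝ) ≤ K * (j + 1) := by
    intro j hj
    have a1 := hK (m j) (hj.trans hm.le_apply)
    rwa [hmdef, Nat.count_nth_of_infinite hinf] at a1
  obtain ⟨C, hC⟩ := lower hc0
  have t1 : Tendsto (fun r => volume.real (Metric.cthickening r E)) (𝓝 0) (𝓝 (volume.real E)) :=
    (ENNReal.tendsto_toReal hEf).comp (tendsto_measure_cthickening_of_isCompact hE)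
  have t2 : Tendsto (fun a : ℕ => e0 / 8 / (8 : ℝ) ^ a) atTop (𝓝 0) :=
    tendsto_const_nhds.div_atTop (tendsto_pow_atTop_atTop_of_one_lt (by norm_num))
  obtain ⟨a0, ha0⟩ := eventually_atTop.1 ((t1.comp t2).eventually
    (ge_mem_nhds (show volume.real E < volume.real E + e0 / 28 by linarith)))
  set γ : ℕ → ℝ := fun n => log (wsum t n) - log ((R + 1) * (n : ℝ) ^ c) with hγ
  set C' := C + 2 * log (R + 1) + 4 * c * log K with hC'
  obtain ⟨b, hb1, hb2⟩ := ((tendsto_natCast_atTop_atTop (R := ℝ).eventually_gt_atTop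
    ((2 * C' + g * (a0 + 1)) / g)).and (eventually_ge_atTop (N + 1))).exists
  have hs : N + 1 ≤ 8 ^ (a0 + b) :=
    hb2.trans ((Nat.le_add_left b a0).trans (Nat.lt_pow_self (by norm_num)).le)
  have hd := descent hE hEH he0 he t γ m hm (fun j => Nat.nth_mem_of_infinite hinf j)
    (fun i hi => ⟨Nat.count p i, Nat.nth_count hi⟩) (N + 1) a0 (fun n hn => ?_)
    (fun a ha => sub_le_iff_le_add'.2 (ha0 a ha)) b (fun _ => 1)
    ⟨measurable_const, fun _ => zero_le_one, ⟨1, fun _ => le_rfl⟩, fun k => by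
      rw [setIntegral_const, smul_eq_mul, mul_one]⟩ 1 _ hs
  · set T := 8 ^ (a0 + b) with hT
    rw [one_mul, ← hg] at hd
    have hl2 : log 2 ≤ 1 := by linarith [log_le_sub_one_of_pos (show (0 : ℝ) < 2 by norm_num)]
    have h1 : ∀ n ∈ Finset.range T, -(4 * c * (3 * (a0 + b) + 1) + C')
        ≤ ∫ x in E, 1 * vv t γ (m (T + n)) x := by
      intro n hn
      have hn1 : 1 ≤ m (T + n) := le_trans (by omega) hm.le_apply
      have hn0 : (0 : ℝ) < (m (T + n) : ℕ) := by exact_mod_cast hn1
      have a1 : ∀ x, 1 * vv t γ (m (T + n)) x = vv t (fun n => log (wsum t n)) (m (T + n)) x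
          - log ((R + 1) * ((m (T + n) : ℕ) : ℝ) ^ c) := fun x => by
        simp only [vv, hγ]; ring
      simp only [a1]
      rw [integral_sub (integrable_vv hE hEI t _ _) (integrable_const _), setIntegral_const,
        smul_eq_mul, log_mul (by positivity) (rpow_pos_of_pos hn0 _).ne', log_rpow hn0]
      have a2 := hC E hE hEH t ht _ hn1
      have a3 : log ((m (T + n) : ℕ) : ℝ) ≤ log K + (3 * (a0 + b) + 1) := by
        have b1 : T + n + 1 ≤ 2 ^ (3 * (a0 + b) + 1) := by
          have := Finset.mem_range.1 hn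
          rw [pow_succ, pow_mul]
          norm_num
          omega
        have b2 : ((T + n : ℕ) : ℝ) + 1 ≤ 2 ^ (3 * (a0 + b) + 1) := by exact_mod_cast b1
        have b3 := (hmK (T + n) (by omega)).trans (mul_le_mul_of_nonneg_left b2 (by linarith))
        refine (log_le_log hn0 b3).trans ?_
        rw [log_mul (by positivity) (by positivity), log_pow]
        push_cast
        exact add_le_add_right (mul_le_of_le_one_right (by positivity) hl2) _
      have a4 : 0 ≤ log ((m (T + n) : ℕ) : ℝ) := log_natCast_nonneg _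
      have a5 : 0 ≤ log (R + 1) := log_nonneg (by linarith)
      have a6 := mul_le_mul_of_nonneg_right (volume_le_two hEI)
        (by positivity : 0 ≤ log (R + 1) + c * log ((m (T + n) : ℕ) : ℝ))
      have a7 := mul_le_mul_of_nonneg_left a3 hc0.le
      rw [hC']
      linarith
    have h2 := Finset.sum_le_sum h1
    rw [Finset.sum_const, Finset.card_range, nsmul_eq_mul] at h2
    have hT0 : (0 : ℝ) < T := by rw [hT]; positivity
    have h3 : T * (b * g) ≤ T * (4 * c * (3 * (a0 + b) + 1) + C') := by linarith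
    have h4 := le_of_mul_le_mul_left h3 hT0
    rw [div_lt_iff₀ hg0] at hb1
    rw [hc] at h4
    clear_value C' c g
    linarith
  · filter_upwards [ae_not_node t E, ae_restrict_mem hE.measurableSet] with x hx hxE
    have hn1 : n ≤ m n := hm.le_apply
    have a0 : ∀ k, |x - t k| ≤ R + 1 := fun k => by
      have b1 := abs_le.1 (htR k)
      have b2 := hEI hxE
      rw [abs_le]
      constructor <;> linarith [b1.1, b1.2, b2.1, b2.2]
    have a1 := upper ht (by omega : 1 ≤ m n) a0 hx
    have a2 := one_le_leb ht (by omega : 1 ≤ m n) x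
    have a3 : log ((R + 1) * leb t (m n) x) ≤ log ((R + 1) * (m n : ℝ) ^ c) :=
      log_le_log (by positivity) (mul_le_mul_of_nonneg_left (hxE.2 _ (by omega)) (by positivity))
    simp only [vv, hγ]
    linarith

lemma leb_prod (x : ℕ → ℝ) (n : ℕ) (y : ℝ) : leb x n y
    = ∑ k ∈ Finset.range n, |∏ i ∈ (Finset.range n).erase k, (y - x i) / (x k - x i)| := by
  refine Finset.sum_congr rfl fun k _ => ?_
  congr 1
  rw [Lagrange.basis, Polynomial.eval_prod]
  refine Finset.prod_congr rfl fun i _ => ?_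
  simp [Lagrange.basisDivisor, div_eq_inv_mul]

lemma leb_affine (x : ℕ → ℝ) (n : ℕ) (y y0 : ℝ) {a : ℝ} (ha : a ≠ 0) :
    leb (fun k => a * (x k - y0)) n (a * (y - y0)) = leb x n y := by
  rw [leb_prod, leb_prod]
  refine Finset.sum_congr rfl fun k _ => ?_
  congr 1
  refine Finset.prod_congr rfl fun i _ => ?_
  rw [← mul_sub, ← mul_sub, mul_div_mul_left _ _ ha, sub_sub_sub_cancel_right,
    sub_sub_sub_cancel_right]

theorem null_set : ∃ c : ℝ, 0 < c ∧ ∀ x : ℕ → ℝ, Function.Injective x →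
    (∀ i, x i ∈ Icc (-1 : ℝ) 1) → ∀ N : ℕ,
      volume {y : ℝ | ∀ n, N ≤ n → leb x n y ≤ (n : ℝ) ^ c} = 0 := by
  obtain ⟨c, hc, h⟩ := small_set
  refine ⟨c, hc, fun x hx hI N => ?_⟩
  set F := {y : ℝ | ∀ n, N ≤ n → leb x n y ≤ (n : ℝ) ^ c} with hF
  by_contra hne
  have h1 := Besicovitch.ae_tendsto_measure_inter_div volume F
  have : (ae (volume.restrict F)).NeBot := ae_restrict_neBot.2 hne
  obtain ⟨y0, hy0⟩ := h1.exists
  obtain ⟨r, hr1, hr0⟩ := ((hy0.eventually (lt_mem_nhds
    (show (2⁻¹ : ENNReal) < 1 by norm_num))).and self_mem_nhdsWithin).exists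
  have hr : 0 < r := hr0
  have ha : 0 < (2 * r)⁻¹ := by positivity
  have h2 := h (fun k => (2 * r)⁻¹ * (x k - y0))
    (fun i j hij => hx (sub_left_injective (mul_left_cancel₀ ha.ne' hij)))
    (2 + (2 * r)⁻¹ * (1 + |y0|)) (le_add_of_nonneg_right (by positivity)) (fun i => by
      rw [abs_mul, abs_of_pos ha]
      have b1 : |x i - y0| ≤ 1 + |y0| :=
        (abs_sub _ _).trans (add_le_add_left (abs_le.2 (hI i)) _)
      linarith [mul_le_mul_of_nonneg_left b1 ha.le]) N
  set G := {u ∈ Icc (-(1 / 2) : ℝ) (1 / 2) | ∀ n, N ≤ n →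
    leb (fun k => (2 * r)⁻¹ * (x k - y0)) n u ≤ (n : ℝ) ^ c} with hG
  have hGf : volume G ≠ ⊤ :=
    ((measure_mono fun y hy => hy.1).trans_lt isCompact_Icc.measure_lt_top).ne
  have h3 : F ∩ Metric.closedBall y0 r
      ⊆ (fun y => y + -y0) ⁻¹' ((fun u => (2 * r)⁻¹ * u) ⁻¹' G) := by
    rintro y ⟨hy1, hy2⟩
    rw [Metric.mem_closedBall, Real.dist_eq, abs_le] at hy2
    simp only [mem_preimage, ← sub_eq_add_neg]
    refine ⟨⟨?_, ?_⟩, fun n hn => ?_⟩
    · rw [le_inv_mul_iff₀ (by positivity)]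
      linarith [hy2.1]
    · rw [inv_mul_le_iff₀ (by positivity)]
      linarith [hy2.2]
    · rw [leb_affine x n y y0 ha.ne']
      exact hy1 n hn
  have h4 := measure_mono (μ := volume) h3
  rw [measure_preimage_add_right, Real.volume_preimage_mul_left ha.ne', inv_inv,
    abs_of_pos (by positivity)] at h4
  have h5 : volume G ≤ 2⁻¹ := by
    rw [← ENNReal.ofReal_toReal hGf]
    refine (ENNReal.ofReal_le_ofReal h2.le).trans (le_of_eq ?_)
    rw [one_div, ENNReal.ofReal_inv_of_pos (by norm_num)]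
    norm_num
  refine hr1.not_ge (ENNReal.div_le_of_le_mul' ?_)
  rw [Real.volume_closedBall]
  exact h4.trans (mul_le_mul_right h5 _)

end Pool.Agent.Lib.MP_6083a5_an.Absolute
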