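import Pool.Agent.Lib.MP_6083a5_an.Poisson

/-!
A nonnegative polynomial that approximates the Poisson kernel on `[-1, 1]`.
-/

open Polynomial MeasureTheory Filter Topology Set Real

namespace Pool.Agent.Lib.MP_6083a5_an

lemma mul_sinh_le (m : ℕ) {b : ℝ} (hb : 0 ≤ b) : m * sinh b ≤ sinh (m * b) := by
  induction m with
  | zero => simp
  | succ m ih =>
    push_cast
    rw [add_mul (m : ℝ) 1 b, one_mul, sinh_add]
    have h1 := one_le_cosh b
    have h2 := one_le_cosh (m * b)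
    have h3 : 0 ≤ sinh b := sinh_nonneg_iff.mpr hb
    have h4 : 0 ≤ sinh (m * b) := sinh_nonneg_iff.mpr (by positivity)
    nlinarith

lemma cos_parts (x y : ℝ) : Complex.cos (x + y * Complex.I) =
    ((cos x * cosh y : ℝ) : ℂ) + ((-(sin x * sinh y) : ℝ) : ℂ) * Complex.I := by
  rw [Complex.cos_add_mul_I]
  push_cast
  ring

lemma abs_sinh_le_norm_cos (x y : ℝ) : |sinh y| ≤ ‖Complex.cos (x + y * Complex.I)‖ := by
  rw [← sq_le_sq₀ (abs_nonneg _) (norm_nonneg _), sq_abs, ← Complex.normSq_eq_norm_sq, cos_parts,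
    Complex.normSq_add_mul_I]
  have h1 := cosh_sq y
  have h2 := sin_sq_add_cos_sq x
  have h3 : (cos x * cosh y) ^ 2 + (-(sin x * sinh y)) ^ 2 = cos x ^ 2 + sinh y ^ 2 := by
    rw [mul_pow, h1, neg_sq, mul_pow]
    linear_combination (sinh y ^ 2) * h2
  rw [h3]
  nlinarith [sq_nonneg (cos x)]

lemma cheb_lower (m : ℕ) (z : ℂ) : m * |z.im| ≤ ‖(Chebyshev.T ℂ m).eval z‖ := by
  obtain ⟨θ, rfl⟩ := Complex.cos_surjective z
  rw [Chebyshev.T_complex_cos]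
  have h1 : ((m : ℤ) : ℂ) * θ = ((m * θ.re : ℝ) : ℂ) + ((m * θ.im : ℝ) : ℂ) * Complex.I := by
    conv_lhs => rw [← Complex.re_add_im θ]
    push_cast
    ring
  have h2 : |(Complex.cos θ).im| ≤ |sinh θ.im| := by
    conv_lhs => rw [← Complex.re_add_im θ, cos_parts]
    simp only [Complex.add_im, Complex.ofReal_im, Complex.mul_im, Complex.ofReal_re, Complex.I_im,
      mul_one, Complex.I_re, mul_zero, add_zero, zero_add, abs_neg, abs_mul]
    exact mul_le_of_le_one_left (abs_nonneg _) (abs_sin_le_one _)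
  rw [h1]
  refine le_trans ?_ (abs_sinh_le_norm_cos _ _)
  rw [abs_sinh, abs_mul, Nat.abs_cast]
  rw [abs_sinh] at h2
  calc (m : ℝ) * |(Complex.cos θ).im| ≤ m * sinh |θ.im| := by gcongr
    _ ≤ _ := mul_sinh_le m (abs_nonneg _)

lemma cheb_upper (m : ℕ) {y : ℝ} (hy : y ∈ Icc (-1 : ℝ) 1) :
    ‖(Chebyshev.T ℂ m).eval (y : ℂ)‖ ≤ 1 := by
  rw [← cos_arccos hy.1 hy.2, Complex.ofReal_cos, Chebyshev.T_complex_cos]
  have : ((m : ℤ) : ℂ) * (arccos y : ℂ) = ((m * arccos y : ℝ) : ℂ) := by push_cast; ring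
  rw [this, ← Complex.ofReal_cos, Complex.norm_real, Real.norm_eq_abs]
  exact abs_cos_le_one _

theorem exists_poly_pk (m : ℕ) (hm : 1 ≤ m) (ξ η σ : ℝ) (hη : 0 < η) (hσ : 1 ≤ σ * (m * η))
    (hσ1 : σ ≤ 1) :
    ∃ (T : ℂ[X]) (τ : ℝ → ℝ), (∀ y : ℝ, T.eval (y : ℂ) = (τ y : ℂ)) ∧ T.natDegree + 2 ≤ 2 * m ∧
      (∀ y, 0 ≤ τ y) ∧ ∀ y ∈ Icc (-1 : ℝ) 1,
        (1 - σ) ^ 2 * pk η (ξ - y) ≤ τ y ∧ τ y ≤ (1 + σ) ^ 2 * pk η (ξ - y) := by
  set z0 : ℂ := ξ + η * Complex.I with hz0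
  have hz0im : z0.im = η := by simp [hz0]
  set c : ℂ := (Chebyshev.T ℂ m).eval z0 with hc
  have hmη : 0 < m * η := by positivity
  have hc1 : m * η ≤ ‖c‖ := by
    have := cheb_lower m z0
    rwa [hz0im, abs_of_pos hη] at this
  have hc0 : c ≠ 0 := norm_pos_iff.mp (hmη.trans_le hc1)
  have hσ0 : 0 < σ := by
    by_contra h
    push Not at h
    nlinarith
  have hroot : (1 - C c⁻¹ * Chebyshev.T ℂ m).IsRoot z0 := by
    simp only [IsRoot.def, eval_sub, eval_one, eval_mul, eval_C, ← hc]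
    field_simp
    ring
  obtain ⟨V, hV⟩ := dvd_iff_isRoot.mpr hroot
  have hVdeg : V.natDegree + 1 ≤ m := by
    by_cases h0 : V = 0
    · simpa [h0] using hm
    have e2 : (1 - C c⁻¹ * Chebyshev.T ℂ m).natDegree ≤ m := by
      refine (natDegree_sub_le _ _).trans (max_le (by simp) ((natDegree_C_mul_le _ _).trans ?_))
      rw [Chebyshev.natDegree_T]
      simp
    rw [hV, natDegree_mul (X_sub_C_ne_zero _) h0, natDegree_X_sub_C] at e2
    omega
  refine ⟨C ((η / π : ℝ) : ℂ) * (V * V.map (starRingEnd ℂ)),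
    fun y => η / π * ‖V.eval (y : ℂ)‖ ^ 2, fun y => ?_, ?_, fun y => ?_, fun y hy => ?_⟩
  · have h1 : (V.map (starRingEnd ℂ)).eval (y : ℂ) = (starRingEnd ℂ) (V.eval (y : ℂ)) := by
      conv_lhs => rw [← Complex.conj_ofReal y]
      rw [eval_map, eval₂_at_apply]
    rw [eval_mul, eval_mul, eval_C, h1, Complex.mul_conj, Complex.normSq_eq_norm_sq]
    push_cast
    ring
  · have h1 : (C ((η / π : ℝ) : ℂ) * (V * V.map (starRingEnd ℂ))).natDegree
        ≤ V.natDegree + V.natDegree :=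
      (natDegree_C_mul_le _ _).trans (natDegree_mul_le.trans (add_le_add le_rfl natDegree_map_le))
    omega
  · have := pi_pos
    positivity
  · have h1 := congrArg (eval (y : ℂ)) hV
    simp only [eval_sub, eval_one, eval_mul, eval_C, eval_X] at h1
    have h2 : ‖c⁻¹ * (Chebyshev.T ℂ m).eval (y : ℂ)‖ ≤ σ := by
      rw [norm_mul, norm_inv]
      have a1 := cheb_upper m hy
      have a2 : ‖c‖⁻¹ ≤ σ := by
        rw [inv_le_iff_one_le_mul₀ (hmη.trans_le hc1)]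
        calc 1 ≤ σ * (m * η) := hσ
          _ ≤ σ * ‖c‖ := by gcongr
      calc ‖c‖⁻¹ * ‖(Chebyshev.T ℂ m).eval (y : ℂ)‖ ≤ σ * 1 := by gcongr
        _ = σ := mul_one _
    have h3 : ‖(y : ℂ) - z0‖ ^ 2 = (ξ - y) ^ 2 + η ^ 2 := by
      have : (y : ℂ) - z0 = ((y - ξ : ℝ) : ℂ) + ((-η : ℝ) : ℂ) * Complex.I := by
        rw [hz0]; push_cast; ring
      rw [this, ← Complex.normSq_eq_norm_sq, Complex.normSq_add_mul_I]
      ring
    have h4 : η / π * ‖V.eval (y : ℂ)‖ ^ 2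
        = ‖1 - c⁻¹ * (Chebyshev.T ℂ m).eval (y : ℂ)‖ ^ 2 * pk η (ξ - y) := by
      rw [h1, norm_mul, mul_pow, h3]
      unfold pk
      have := pi_pos
      field_simp
    have h5 : 1 - σ ≤ ‖1 - c⁻¹ * (Chebyshev.T ℂ m).eval (y : ℂ)‖ := by
      have := norm_sub_norm_le (1 : ℂ) (c⁻¹ * (Chebyshev.T ℂ m).eval (y : ℂ))
      rw [norm_one] at this
      linarith
    have h6 : ‖1 - c⁻¹ * (Chebyshev.T ℂ m).eval (y : ℂ)‖ ≤ 1 + σ := by
      have := norm_sub_le (1 : ℂ) (c⁻¹ * (Chebyshev.T ℂ m).eval (y : ℂ))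
      rw [norm_one] at this
      linarith
    have h7 := pk_pos hη (ξ - y)
    have h8 : 0 ≤ 1 - σ := by linarith
    simp only [h4]
    constructor <;> gcongr

end Pool.Agent.Lib.MP_6083a5_an
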