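import Pool.Agent.Lib.MP_6083a5_an.Residue

/-!
The key identity: a nonnegative density `χ` with the same moments as the measure carrying the
absolute nodal weights, and a bounded density `φ ≤ χ * |ω|` with a large Poisson integral.
-/

open Polynomial MeasureTheory Filter Topology Set Real Lagrange

namespace Pool.Agent.Lib.MP_6083a5_an

variable {ι : Type*} [DecidableEq ι]

lemma den_pos {a b ρ s : ℝ} (hρ : 0 < ρ) (hs : 0 < s) (hab : a ≠ 0 ∨ b ≠ 0) :
    0 < (a ^ 2 - ρ ^ 2 * b ^ 2) ^ 2 + (2 * ρ * s * (a * b)) ^ 2 := by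
  by_cases ha : a = 0
  · have hb : b ≠ 0 := by tauto
    subst ha
    have : 0 < ρ ^ 2 * b ^ 2 := by positivity
    nlinarith
  · by_cases hb : b = 0
    · subst hb
      have : 0 < a ^ 2 := by positivity
      nlinarith
    · have : 0 < (2 * ρ * s * (a * b)) ^ 2 := by positivity
      nlinarith [sq_nonneg (a ^ 2 - ρ ^ 2 * b ^ 2)]

lemma quad_ne_zero {a b ρ s : ℝ} (hρ : 0 < ρ) (hs : 0 < s) (hab : a ≠ 0 ∨ b ≠ 0) :
    ((a ^ 2 - ρ ^ 2 * b ^ 2 : ℝ) : ℂ) + ((2 * ρ * s * (a * b) : ℝ) : ℂ) * Complex.I ≠ 0 := by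
  intro h
  have h1 := congrArg Complex.normSq h
  rw [Complex.normSq_add_mul_I, map_zero] at h1
  exact (den_pos hρ hs hab).ne' h1

lemma im_div_quad (c u v : ℝ) :
    ((c : ℂ) / ((u : ℂ) + (v : ℂ) * Complex.I)).im = -(c * v / (u ^ 2 + v ^ 2)) := by
  rw [div_eq_mul_inv, Complex.im_ofReal_mul, Complex.inv_im, Complex.normSq_add_mul_I]
  simp only [Complex.add_im, Complex.ofReal_im, Complex.mul_im, Complex.ofReal_re, Complex.I_im,
    mul_one, Complex.I_re, mul_zero, add_zero, zero_add]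
  ring

omit [DecidableEq ι] in
lemma coeff_nodal_top (S : Finset ι) (v : ι → ℂ) {M : ℕ} (hM : S.card ≤ M) :
    (nodal S v).coeff M = ((if S.card = M then 1 else 0 : ℝ) : ℂ) := by
  split_ifs with h
  · rw [← h, ← natDegree_nodal (v := v)]
    exact nodal_monic.coeff_natDegree
  · rw [coeff_eq_zero_of_natDegree_lt]
    · simp
    · rw [natDegree_nodal]; omega

theorem key_identity [Fintype ι] (t : ι → ℝ) (ht : Function.Injective t)
    (hn : 1 ≤ Fintype.card ι) (ξ η s : ℝ) (hη : 0 < η) (hs : 0 < s) :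
    ∃ χ φ : ℝ → ℝ, (∀ y, 0 ≤ χ y) ∧ (∀ y, 0 ≤ φ y) ∧ (∀ y, φ y ≤ 1 / s) ∧
      (∀ y, φ y ≤ χ y * |∏ k, (y - t k)|) ∧ Integrable (fun y => pk η (ξ - y) * φ y) ∧
      1 / (1 + s) ≤ ∫ y, pk η (ξ - y) * φ y ∧
      ∀ (T : ℂ[X]) (τ : ℝ → ℝ), (∀ y : ℝ, T.eval (y : ℂ) = (τ y : ℂ)) →
        T.natDegree + 2 ≤ Fintype.card ι →
        Integrable (fun y => τ y * χ y) ∧
          ∫ y, τ y * χ y = π * ∑ k, τ (t k) * |nodalWeight Finset.univ t k| := by
  classical
  set v : ι → ℂ := fun k => (t k : ℂ) with hv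
  set w : ι → ℝ := nodalWeight Finset.univ t with hw
  have hw0 : ∀ k, w k ≠ 0 := fun k => nodalWeight_ne_zero ht.injOn (Finset.mem_univ k)
  set A : Finset ι := Finset.univ.filter fun k => 0 < w k with hA
  set B : Finset ι := Finset.univ.filter fun k => ¬ 0 < w k with hB
  have hd : Disjoint A B := Finset.disjoint_filter_filter_not _ _ _
  have hu : A ∪ B = Finset.univ := Finset.filter_union_filter_not_eq _ _
  have hcard : A.card + B.card = Fintype.card ι := by
    rw [← Finset.card_union_of_disjoint hd, hu, Finset.card_univ]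
  have hH : ∀ z : ℂ, 0 < z.im → 0 ≤ ((nodal A v).eval z / (nodal B v).eval z).im :=
    fun z hz => herglotz t ht A B hd hu (fun k hk => (Finset.mem_filter.mp hk).2.le)
      (fun k hk => not_lt.mp (Finset.mem_filter.mp hk).2) hz
  set z0 : ℂ := ξ + η * Complex.I with hz0
  have hz0im : 0 < z0.im := by simpa [hz0] using hη
  set g : ℂ := (nodal A v).eval z0 / (nodal B v).eval z0 with hg
  have hg0 : g ≠ 0 :=
    div_ne_zero (eval_nodal_ne_zero_of_im A t hz0im) (eval_nodal_ne_zero_of_im B t hz0im)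
  set ρ : ℝ := ‖g‖ with hρ
  have hρ0 : 0 < ρ := norm_pos_iff.mpr hg0
  set α : ℝ → ℝ := fun y => ∏ k ∈ A, (y - t k) with hα
  set β : ℝ → ℝ := fun y => ∏ k ∈ B, (y - t k) with hβ
  have hαβ : ∀ y, ∏ k, (y - t k) = α y * β y := fun y => by
    rw [← hu, Finset.prod_union hd]
  have hne : ∀ y, α y ≠ 0 ∨ β y ≠ 0 := by
    intro y
    by_contra hcon
    push Not at hcon
    obtain ⟨a, ha, ha'⟩ := Finset.prod_eq_zero_iff.mp hcon.1
    obtain ⟨b, hb, hb'⟩ := Finset.prod_eq_zero_iff.mp hcon.2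
    have : a = b := ht (by linarith)
    exact Finset.disjoint_left.mp hd ha (this ▸ hb)
  set Dp : ℂ[X] := nodal A v * nodal A v - C ((ρ ^ 2 : ℝ) : ℂ) * (nodal B v * nodal B v)
    + C (((2 * ρ * s : ℝ) : ℂ) * Complex.I) * (nodal A v * nodal B v) with hDp
  set Rp : ℂ[X] := nodal A v * nodal A v + C ((ρ ^ 2 : ℝ) : ℂ) * (nodal B v * nodal B v) with hRp
  have hDy : ∀ y : ℝ, Dp.eval (y : ℂ) = ((α y ^ 2 - ρ ^ 2 * β y ^ 2 : ℝ) : ℂ)
      + ((2 * ρ * s * (α y * β y) : ℝ) : ℂ) * Complex.I := by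
    intro y
    simp only [hDp, eval_add, eval_sub, eval_mul, eval_C, hv, eval_nodal_real]
    push_cast
    simp only [hα, hβ]
    push_cast
    ring
  have hRy : ∀ y : ℝ, Rp.eval (y : ℂ) = ((α y ^ 2 + ρ ^ 2 * β y ^ 2 : ℝ) : ℂ) := by
    intro y
    simp only [hRp, eval_add, eval_mul, eval_C, hv, eval_nodal_real]
    push_cast
    simp only [hα, hβ]
    push_cast
    ring
  have hDz : ∀ z : ℂ, 0 < z.im → Dp.eval z = (nodal A v).eval z * (nodal B v).eval z *
      ((nodal A v).eval z / (nodal B v).eval z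
        - (ρ ^ 2 : ℝ) * ((nodal A v).eval z / (nodal B v).eval z)⁻¹
        + ((2 * ρ * s : ℝ) : ℂ) * Complex.I) := by
    intro z hz
    have h1 : (nodal A v).eval z ≠ 0 := eval_nodal_ne_zero_of_im A t hz
    have h2 : (nodal B v).eval z ≠ 0 := eval_nodal_ne_zero_of_im B t hz
    simp only [hDp, eval_add, eval_sub, eval_mul, eval_C]
    field_simp
  have hDne : ∀ z : ℂ, 0 ≤ z.im → Dp.eval z ≠ 0 := by
    intro z hz
    rcases hz.eq_or_lt with h | h
    · have : z = (z.re : ℂ) := by
        apply Complex.ext <;> simp [← h]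
      rw [this, hDy]
      exact quad_ne_zero hρ0 hs (hne _)
    · rw [hDz z h]
      refine mul_ne_zero (mul_ne_zero (eval_nodal_ne_zero_of_im A t h)
        (eval_nodal_ne_zero_of_im B t h)) fun h0 => ?_
      have h1 := congrArg Complex.im h0
      have h2 := hH z h
      generalize (nodal A v).eval z / (nodal B v).eval z = G at h1 h2
      rw [Complex.add_im, Complex.sub_im, Complex.im_ofReal_mul, Complex.im_ofReal_mul,
        Complex.inv_im, Complex.I_im, Complex.zero_im] at h1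
      have h3 : 0 ≤ ρ ^ 2 * (G.im / Complex.normSq G) :=
        mul_nonneg (sq_nonneg _) (div_nonneg h2 (Complex.normSq_nonneg _))
      have h4 : 0 < 2 * ρ * s := by positivity
      rw [neg_div] at h1
      linarith
  set M := max A.card B.card with hM
  have hAM : (nodal A v).natDegree ≤ M := by rw [natDegree_nodal]; exact le_max_left _ _
  have hBM : (nodal B v).natDegree ≤ M := by rw [natDegree_nodal]; exact le_max_right _ _
  have hDdeg : M + M ≤ Dp.natDegree := by
    apply le_natDegree_of_ne_zero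
    simp only [hDp, coeff_add, coeff_sub, coeff_C_mul, coeff_mul_add_eq_of_natDegree_le hAM hAM,
      coeff_mul_add_eq_of_natDegree_le hBM hBM, coeff_mul_add_eq_of_natDegree_le hAM hBM]
    rw [coeff_nodal_top A v (le_max_left _ _), coeff_nodal_top B v (le_max_right _ _)]
    have hab : (if A.card = M then 1 else 0 : ℝ) ≠ 0 ∨ (if B.card = M then 1 else 0 : ℝ) ≠ 0 := by
      rcases max_choice A.card B.card with h | h
      · left; rw [if_pos (by rw [hM, h])]; norm_num
      · right; rw [if_pos (by rw [hM, h])]; norm_num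
    have := quad_ne_zero hρ0 hs hab
    convert this using 1
    push_cast
    ring
  have hRdeg : Rp.natDegree ≤ M + M := by
    refine (natDegree_add_le _ _).trans (max_le ?_ ((natDegree_C_mul_le _ _).trans ?_))
    · exact natDegree_mul_le.trans (add_le_add hAM hAM)
    · exact natDegree_mul_le.trans (add_le_add hBM hBM)
  set den : ℝ → ℝ := fun y => (α y ^ 2 - ρ ^ 2 * β y ^ 2) ^ 2 + (2 * ρ * s * (α y * β y)) ^ 2
    with hden
  have hden0 : ∀ y, 0 < den y := fun y => den_pos hρ0 hs (hne y)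
  -- the Poisson part
  have hP := poisson_reproduce (C ((2 * ρ : ℝ) : ℂ) * (nodal A v * nodal B v)) Dp hDne
    ((natDegree_C_mul_le _ _).trans (natDegree_mul_le.trans ((add_le_add hAM hBM).trans hDdeg)))
    ξ η hη
  have hPfun : ∀ y : ℝ, pk η (ξ - y) * (4 * ρ ^ 2 * s * (α y * β y) ^ 2 / den y) =
      -((pk η (ξ - y) : ℂ) * ((C ((2 * ρ : ℝ) : ℂ) * (nodal A v * nodal B v)).eval (y : ℂ)
        / Dp.eval (y : ℂ))).im := by
    intro y
    have e1 : (C ((2 * ρ : ℝ) : ℂ) * (nodal A v * nodal B v)).eval (y : ℂ)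
        = ((2 * ρ * (α y * β y) : ℝ) : ℂ) := by
      simp only [eval_mul, eval_C, hv, eval_nodal_real]
      push_cast
      simp only [hα, hβ]
      push_cast
      ring
    rw [Complex.im_ofReal_mul, e1, hDy, im_div_quad]
    simp only [hden]
    ring
  have hPval : -((C ((2 * ρ : ℝ) : ℂ) * (nodal A v * nodal B v)).eval z0 / Dp.eval z0).im
      = ρ / (g.im + ρ * s) := by
    have h1 := eval_nodal_ne_zero_of_im A t hz0im
    have h2 := eval_nodal_ne_zero_of_im B t hz0im
    have h3 : g - (ρ ^ 2 : ℝ) * g⁻¹ + ((2 * ρ * s : ℝ) : ℂ) * Complex.I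
        = ((0 : ℝ) : ℂ) + ((2 * g.im + 2 * ρ * s : ℝ) : ℂ) * Complex.I := by
      have a1 : ((ρ ^ 2 : ℝ) : ℂ) * g⁻¹ = (starRingEnd ℂ) g := by
        rw [hρ, ← Complex.normSq_eq_norm_sq, Complex.normSq_eq_conj_mul_self]
        field_simp
      rw [a1, Complex.sub_conj]
      push_cast
      ring
    rw [hDz z0 hz0im, ← hg, h3, eval_mul, eval_mul, eval_C, mul_comm ((2 * ρ : ℝ) : ℂ),
      mul_div_mul_left _ _ (mul_ne_zero h1 h2), im_div_quad]
    have h4 : 0 < g.im + ρ * s := by
      have := hH z0 hz0im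
      positivity
    field_simp
    ring
  refine ⟨fun y => 2 * ρ * s * (α y ^ 2 + ρ ^ 2 * β y ^ 2) / den y,
    fun y => 4 * ρ ^ 2 * s * (α y * β y) ^ 2 / den y, fun y => ?_, fun y => ?_, fun y => ?_,
    fun y => ?_, ?_, ?_, ?_⟩
  · have := hden0 y
    positivity
  · have := hden0 y
    positivity
  · rw [div_le_div_iff₀ (hden0 y) hs]
    simp only [hden]
    nlinarith [sq_nonneg (α y ^ 2 - ρ ^ 2 * β y ^ 2)]
  · rw [hαβ, div_mul_eq_mul_div]
    refine div_le_div_of_nonneg_right ?_ (hden0 y).le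
    have h1 : 2 * ρ * |α y * β y| ≤ α y ^ 2 + ρ ^ 2 * β y ^ 2 := by
      rw [abs_mul, ← sq_abs (α y), ← sq_abs (β y)]
      nlinarith [sq_nonneg (|α y| - ρ * |β y|)]
    calc 4 * ρ ^ 2 * s * (α y * β y) ^ 2
        = 2 * ρ * s * (2 * ρ * |α y * β y|) * |α y * β y| := by
          rw [← sq_abs (α y * β y)]; ring
      _ ≤ _ := by gcongr
  · simp only [hPfun]
    exact hP.1.im.neg
  · simp only [hPfun]
    have h3 := integral_im hP.1
    simp only [RCLike.im_to_complex] at h3
    rw [integral_neg, h3, hP.2, hPval]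
    have h4 : g.im ≤ ρ := (le_abs_self _).trans (Complex.abs_im_le_norm g)
    have h5 : 0 < g.im + ρ * s := by
      have := hH z0 hz0im
      positivity
    rw [div_le_div_iff₀ (by positivity) h5]
    linarith
  · intro T τ hT hTdeg
    have hres := residue_real t ht (T * Rp) Dp hDne
      (by
        have := natDegree_mul_le (p := T) (q := Rp)
        omega) hn (fun k => -(τ (t k) * |w k|)) (by
        intro k
        rw [eval_mul, hT, hRy, hDy, ← hw]
        have hk : k ∈ A ∪ B := hu ▸ Finset.mem_univ k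
        have hne' := hne (t k)
        rcases Finset.mem_union.mp hk with hk | hk
        · have a1 : α (t k) = 0 := Finset.prod_eq_zero hk (sub_self _)
          have a2 : β (t k) ≠ 0 := by tauto
          have a3 : 0 < w k := (Finset.mem_filter.mp hk).2
          rw [a1, abs_of_pos a3]
          have a4 : (β (t k) : ℂ) ≠ 0 := by exact_mod_cast a2
          have a5 : (ρ : ℂ) ≠ 0 := by exact_mod_cast hρ0.ne'
          push_cast
          field_simp
          ring
        · have a1 : β (t k) = 0 := Finset.prod_eq_zero hk (sub_self _)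
          have a2 : α (t k) ≠ 0 := by tauto
          have a3 : w k ≤ 0 := not_lt.mp (Finset.mem_filter.mp hk).2
          rw [a1, abs_of_nonpos a3]
          have a4 : (α (t k) : ℂ) ≠ 0 := by exact_mod_cast a2
          push_cast
          field_simp
          ring)
    have hae : (fun y : ℝ => τ y * (2 * ρ * s * (α y ^ 2 + ρ ^ 2 * β y ^ 2) / den y)) =ᵐ[volume]
        fun y : ℝ => -((T * Rp).eval (y : ℂ) /
          (((∏ k, (y - t k) : ℝ) : ℂ) * Dp.eval (y : ℂ))).im := by
      have hfin : (Set.range t).Finite := Set.finite_range t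
      filter_upwards [hfin.countable.ae_notMem volume] with y hy
      have hyk : ∏ k, (y - t k) ≠ 0 :=
        Finset.prod_ne_zero_iff.mpr fun k _ h => hy ⟨k, by linarith⟩
      rw [eval_mul, hT, hRy, ← div_div, ← Complex.ofReal_mul, ← Complex.ofReal_div, hDy,
        im_div_quad]
      rw [hαβ] at hyk ⊢
      have := hden0 y
      have ha : α y ≠ 0 := left_ne_zero_of_mul hyk
      have hb : β y ≠ 0 := right_ne_zero_of_mul hyk
      simp only [hden] at this ⊢
      field_simp
    refine ⟨hres.1.neg.congr hae.symm, ?_⟩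
    rw [integral_congr_ae hae, integral_neg, hres.2, Finset.sum_neg_distrib]
    ring

end Pool.Agent.Lib.MP_6083a5_an
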