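import Pool.Agent.Lib.MP_6083a5_an.Key
import Pool.Agent.Lib.MP_6083a5_an.Cheb

/-!
The sharp local lower bound for the node polynomial and its consequence for the Lebesgue function.
-/

open Polynomial MeasureTheory Filter Topology Set Real Lagrange

namespace Pool.Agent.Lib.MP_6083a5_an

variable {ι : Type*} [DecidableEq ι] [Fintype ι]

/-- The Poisson integral of the measure that puts the absolute nodal weights on the nodes. -/
noncomputable def Qf (t : ι → ℝ) (h ξ : ℝ) : ℝ :=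
  ∑ k, |nodalWeight Finset.univ t k| * pk h (ξ - t k)

lemma Qf_nonneg (t : ι → ℝ) {h : ℝ} (hh : 0 < h) (ξ : ℝ) : 0 ≤ Qf t h ξ :=
  Finset.sum_nonneg fun _ _ => mul_nonneg (abs_nonneg _) (pk_pos hh _).le

lemma Qf_pos (t : ι → ℝ) (ht : Function.Injective t) (hn : 1 ≤ Fintype.card ι) {h : ℝ}
    (hh : 0 < h) (ξ : ℝ) : 0 < Qf t h ξ := by
  have : Nonempty ι := Fintype.card_pos_iff.mp hn
  refine Finset.sum_pos (fun k _ => mul_pos (abs_pos.mpr ?_) (pk_pos hh _)) Finset.univ_nonempty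
  exact nodalWeight_ne_zero ht.injOn (Finset.mem_univ k)

lemma continuous_Qf (t : ι → ℝ) {h : ℝ} (hh : 0 < h) : Continuous (Qf t h) := by
  unfold Qf
  refine continuous_finsetSum _ fun k _ => continuous_const.mul ?_
  exact (continuous_pk hh).comp (continuous_id.sub continuous_const)

lemma Qf_semigroup (t : ι → ℝ) {h η : ℝ} (hh : 0 < h) (hη : 0 < η) (ξ : ℝ) :
    Integrable (fun y => pk h (ξ - y) * Qf t η y) ∧
    ∫ y, pk h (ξ - y) * Qf t η y = Qf t (h + η) ξ := by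
  have hfun : (fun y => pk h (ξ - y) * Qf t η y) = fun y => ∑ k,
      |nodalWeight Finset.univ t k| * (pk h (ξ - y) * pk η (y - t k)) := by
    funext y
    unfold Qf
    rw [Finset.mul_sum]
    exact Finset.sum_congr rfl fun k _ => by ring
  have hi : ∀ k ∈ (Finset.univ : Finset ι), Integrable fun y =>
      |nodalWeight Finset.univ t k| * (pk h (ξ - y) * pk η (y - t k)) :=
    fun k _ => (pk_semigroup hh hη ξ (t k)).1.const_mul _
  rw [hfun]
  refine ⟨integrable_finsetSum _ hi, ?_⟩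
  rw [integral_finsetSum _ hi]
  unfold Qf
  refine Finset.sum_congr rfl fun k _ => ?_
  rw [integral_const_mul, (pk_semigroup hh hη ξ (t k)).2]

theorem local_bound (t : ι → ℝ) (ht : Function.Injective t) (htI : ∀ k, t k ∈ Icc (-1 : ℝ) 1)
    (m : ℕ) (hm : 1 ≤ m) (hmn : 2 * m ≤ Fintype.card ι) (ξ η σ s : ℝ) (hη : 0 < η)
    (hσ : 1 ≤ σ * (m * η)) (hσ1 : σ ≤ 1) (hs : 0 < s) (F : Set ℝ) (hF : MeasurableSet F)
    (hFI : F ⊆ Icc (-1 : ℝ) 1) (M : ℝ) (hM0 : 0 ≤ M) (hM : ∀ y ∈ F, |∏ k, (y - t k)| ≤ M) :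
    (1 - σ) ^ 2 * (1 / (1 + s) - 1 / s * ∫ y in Fᶜ, pk η (ξ - y))
      ≤ π * ((1 + σ) ^ 2 * Qf t η ξ) * M := by
  obtain ⟨χ, φ, hχ0, hφ0, hφ1, hφχ, hPi, hPv, hT⟩ := key_identity t ht (by omega) ξ η s hη hs
  obtain ⟨T, τ, hTτ, hTdeg, hτ0, hτ⟩ := exists_poly_pk m hm ξ η σ hη hσ hσ1
  obtain ⟨hi, hv⟩ := hT T τ hTτ (by omega)
  have hpi := pi_pos
  have h1 : ∫ y, τ y * χ y ≤ π * ((1 + σ) ^ 2 * Qf t η ξ) := by
    rw [hv]
    unfold Qf
    rw [Finset.mul_sum (a := (1 + σ) ^ 2)]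
    refine mul_le_mul_of_nonneg_left (Finset.sum_le_sum fun k _ => ?_) hpi.le
    have := (hτ (t k) (htI k)).2
    calc τ (t k) * |nodalWeight Finset.univ t k|
        ≤ (1 + σ) ^ 2 * pk η (ξ - t k) * |nodalWeight Finset.univ t k| := by gcongr
      _ = _ := by ring
  have h2 : ∫ y in F, τ y * χ y ≤ ∫ y, τ y * χ y :=
    setIntegral_le_integral hi (Eventually.of_forall fun y => mul_nonneg (hτ0 y) (hχ0 y))
  have h3 : (1 - σ) ^ 2 * ∫ y in F, pk η (ξ - y) * φ y ≤ (∫ y in F, τ y * χ y) * M := by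
    rw [← integral_const_mul, ← integral_mul_const]
    refine setIntegral_mono_on (hPi.const_mul _).integrableOn (hi.mul_const _).integrableOn hF
      fun y hy => ?_
    have a1 := (hτ y (hFI hy)).1
    have a2 : φ y ≤ χ y * M := (hφχ y).trans (by have := hχ0 y; gcongr; exact hM y hy)
    have a3 := hφ0 y
    have a4 := hτ0 y
    calc (1 - σ) ^ 2 * (pk η (ξ - y) * φ y) = (1 - σ) ^ 2 * pk η (ξ - y) * φ y := by ring
      _ ≤ τ y * (χ y * M) := by gcongr
      _ = _ := by ring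
  have h4 : ∫ y in Fᶜ, pk η (ξ - y) * φ y ≤ 1 / s * ∫ y in Fᶜ, pk η (ξ - y) := by
    rw [← integral_const_mul]
    refine setIntegral_mono_on hPi.integrableOn
      ((integrable_pk_sub hη ξ).const_mul _).integrableOn hF.compl fun y _ => ?_
    have a1 := hφ1 y
    have a2 := pk_pos hη (ξ - y)
    rw [mul_comm]
    gcongr
  have h5 := integral_add_compl hF hPi
  calc (1 - σ) ^ 2 * (1 / (1 + s) - 1 / s * ∫ y in Fᶜ, pk η (ξ - y))
      ≤ (1 - σ) ^ 2 * ∫ y in F, pk η (ξ - y) * φ y := by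
        gcongr
        linarith
    _ ≤ (∫ y in F, τ y * χ y) * M := h3
    _ ≤ _ := by gcongr; exact h2.trans h1

lemma lebesgue_lower (t : ι → ℝ) {x ξ D ε : ℝ} (hD : 0 < D) (hε : 0 ≤ ε) (hx : |x - ξ| ≤ ε * D)
    (hx0 : ∏ k, (x - t k) ≠ 0) (J : ℕ) :
    |∏ k, (x - t k)| * (2 * (1 - ε) * ∑ j ∈ Finset.range J, Qf t ((j + 1) * D) ξ / (j + 1))
      ≤ ∑ k, |(Lagrange.basis Finset.univ t k).eval x| := by
  have hxk : ∀ k, x - t k ≠ 0 := fun k => Finset.prod_ne_zero_iff.mp hx0 k (Finset.mem_univ k)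
  have h1 : ∑ k, |(Lagrange.basis Finset.univ t k).eval x|
      = |∏ k, (x - t k)| * ∑ k, |nodalWeight Finset.univ t k| * (1 / |x - t k|) := by
    rw [Finset.mul_sum]
    refine Finset.sum_congr rfl fun k _ => ?_
    rw [eval_basis_not_at_node (Finset.mem_univ k) (sub_ne_zero.mp (hxk k)), eval_nodal, abs_mul,
      abs_mul, abs_inv, one_div]
  rw [h1]
  gcongr
  have h2 : 2 * (1 - ε) * ∑ j ∈ Finset.range J, Qf t ((j + 1) * D) ξ / (j + 1)
      = ∑ k, |nodalWeight Finset.univ t k| *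
        (2 * ∑ j ∈ Finset.range J, (1 - ε) * pk ((j + 1) * D) (ξ - t k) / (j + 1)) := by
    unfold Qf
    simp only [Finset.mul_sum, Finset.sum_div]
    rw [Finset.sum_comm]
    refine Finset.sum_congr rfl fun k _ => Finset.sum_congr rfl fun j _ => by ring
  rw [h2]
  gcongr with k _
  have h3 := pk_sum_le hD (hxk k) J
  have h4 : ∑ j ∈ Finset.range J, (1 - ε) * pk ((j + 1) * D) (ξ - t k) / (j + 1)
      ≤ ∑ j ∈ Finset.range J, pk ((j + 1) * D) (x - t k) / (j + 1) := by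
    gcongr with j _
    refine pk_harnack (by positivity) hε ?_
    have : x - t k - (ξ - t k) = x - ξ := by ring
    rw [this]
    refine hx.trans ?_
    gcongr
    have : (0 : ℝ) ≤ j * D := by positivity
    linarith
  have h5 : 0 < |x - t k| := abs_pos.mpr (hxk k)
  calc 2 * ∑ j ∈ Finset.range J, (1 - ε) * pk ((j + 1) * D) (ξ - t k) / (j + 1)
      ≤ 2 * (1 / (2 * |x - t k|)) := by gcongr; exact h4.trans h3
    _ = 1 / |x - t k| := by field_simp

/-- The constant that tends to `1` with `ε`. -/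
noncomputable def kap (ε : ℝ) : ℝ := (1 - ε) ^ 3 * (1 / (1 + ε) - 2 * ε) / (1 + ε) ^ 2

theorem point_bound (t : ι → ℝ) (ht : Function.Injective t) (htI : ∀ k, t k ∈ Icc (-1 : ℝ) 1)
    (m : ℕ) (hm : 1 ≤ m) (hmn : 2 * m ≤ Fintype.card ι) (ξ η ε D Λ : ℝ) (hη : 0 < η)
    (hε : 0 < ε) (hε1 : ε < 1) (hε2 : 0 < 1 / (1 + ε) - 2 * ε)
    (hσ : 1 ≤ ε * (m * η)) (hD : 2 * η ≤ ε ^ 3 * D) (E : Set ℝ) (hE : IsCompact E)
    (hEI : E ⊆ Icc (-1 : ℝ) 1) (hξ : ξ ∈ E) (hgood : ∫ y in Eᶜ, pk η (ξ - y) ≤ ε ^ 2)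
    (hΛ : ∀ x ∈ E, ∑ k, |(Lagrange.basis Finset.univ t k).eval x| ≤ Λ) (J : ℕ) :
    2 * kap ε * ∑ j ∈ Finset.range J, Qf t ((j + 1) * D) ξ / (j + 1) ≤ π * Λ * Qf t η ξ := by
  have hD0 : 0 < D := by
    by_contra h
    push Not at h
    have : ε ^ 3 * D ≤ 0 := mul_nonpos_of_nonneg_of_nonpos (by positivity) h
    linarith
  set F := E ∩ Metric.closedBall ξ (ε * D) with hF
  have hFc : IsCompact F := hE.inter_right Metric.isClosed_closedBall
  have hFne : F.Nonempty := ⟨ξ, hξ, Metric.mem_closedBall_self (by positivity)⟩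
  have hcont : Continuous fun y : ℝ => |∏ k, (y - t k)| := by fun_prop
  obtain ⟨x, hxF, hx⟩ := hFc.exists_isMaxOn hFne hcont.continuousOn
  have h1 := local_bound t ht htI m hm hmn ξ η ε ε hη hσ hε1.le hε F hFc.measurableSet
    (fun y hy => hEI hy.1) |∏ k, (x - t k)| (abs_nonneg _) (fun y hy => hx hy)
  have hip := integrable_pk_sub hη ξ
  have hεD : 0 < ε * D := by positivity
  have h2 : ∫ y in Fᶜ, pk η (ξ - y) ≤ 2 * ε ^ 2 := by
    have hsub : Fᶜ = Eᶜ ∪ (E ∩ (Metric.closedBall ξ (ε * D))ᶜ) := by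
      ext y; simp only [hF, mem_compl_iff, mem_inter_iff, mem_union]; tauto
    have hm2 : MeasurableSet (E ∩ (Metric.closedBall ξ (ε * D))ᶜ) :=
      hE.measurableSet.inter measurableSet_closedBall.compl
    rw [hsub, setIntegral_union (disjoint_compl_left.mono_right inter_subset_left) hm2
      hip.integrableOn hip.integrableOn]
    have a1 : ∫ y in E ∩ (Metric.closedBall ξ (ε * D))ᶜ, pk η (ξ - y)
        ≤ ∫ y in E ∩ (Metric.closedBall ξ (ε * D))ᶜ, 2 * η / (ε * D) * pk (ε * D) (ξ - y) := by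
      refine setIntegral_mono_on hip.integrableOn
        ((integrable_pk_sub hεD ξ).const_mul _).integrableOn hm2 fun y hy => ?_
      refine pk_tail hη hεD ?_
      have := hy.2
      simp only [mem_compl_iff, Metric.mem_closedBall, not_le, Real.dist_eq] at this
      rw [abs_sub_comm]
      exact this.le
    have a2 : ∫ y in E ∩ (Metric.closedBall ξ (ε * D))ᶜ, 2 * η / (ε * D) * pk (ε * D) (ξ - y)
        ≤ ∫ y, 2 * η / (ε * D) * pk (ε * D) (ξ - y) :=
      setIntegral_le_integral ((integrable_pk_sub hεD ξ).const_mul _)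
        (Eventually.of_forall fun y => mul_nonneg (by positivity) (pk_pos hεD _).le)
    have a4 : ∫ y, 2 * η / (ε * D) * pk (ε * D) (ξ - y) = 2 * η / (ε * D) := by
      rw [integral_const_mul, integral_pk_sub hεD, mul_one]
    have a3 : 2 * η / (ε * D) ≤ ε ^ 2 := by
      rw [div_le_iff₀ hεD]
      linarith
    linarith
  have h3 : (1 - ε) ^ 2 * (1 / (1 + ε) - 2 * ε)
      ≤ π * ((1 + ε) ^ 2 * Qf t η ξ) * |∏ k, (x - t k)| := by
    refine le_trans ?_ h1
    refine mul_le_mul_of_nonneg_left (sub_le_sub_left ?_ _) (sq_nonneg _)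
    calc 1 / ε * ∫ y in Fᶜ, pk η (ξ - y) ≤ 1 / ε * (2 * ε ^ 2) := by gcongr
      _ = 2 * ε := by field_simp
  have hε3 : 0 < 1 - ε := by linarith
  have hx0 : ∏ k, (x - t k) ≠ 0 := by
    intro h
    rw [h, abs_zero, mul_zero] at h3
    have : 0 < (1 - ε) ^ 2 * (1 / (1 + ε) - 2 * ε) := by positivity
    linarith
  have h4 := (lebesgue_lower t hD0 hε.le (by simpa [Real.dist_eq] using hxF.2) hx0 J).trans
    (hΛ x hxF.1)
  set S := ∑ j ∈ Finset.range J, Qf t ((j + 1) * D) ξ / (j + 1) with hS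
  have hS0 : 0 ≤ S := Finset.sum_nonneg fun j _ =>
    div_nonneg (Qf_nonneg t (by positivity) _) (by positivity)
  have hQ := Qf_nonneg t hη ξ
  have hpi := pi_pos
  calc 2 * kap ε * S
      = (1 - ε) ^ 2 * (1 / (1 + ε) - 2 * ε) * (2 * (1 - ε) * S) / (1 + ε) ^ 2 := by
        unfold kap; ring
    _ ≤ π * ((1 + ε) ^ 2 * Qf t η ξ) * |∏ k, (x - t k)| * (2 * (1 - ε) * S) / (1 + ε) ^ 2 := by
        gcongr
    _ = π * (|∏ k, (x - t k)| * (2 * (1 - ε) * S)) * Qf t η ξ := by field_simp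
    _ ≤ _ := by gcongr

end Pool.Agent.Lib.MP_6083a5_an
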