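import Pool.Agent.Lib.MP_6083a5_an.Poisson

/-!
Measure theoretic estimates for the Poisson kernel on compact sets.
-/

open MeasureTheory Filter Topology Set Real

namespace Pool.Agent.Lib.MP_6083a5_an

lemma integrable_prod_of_continuous {F : ℝ × ℝ → ℝ} (hF : Continuous F) {A B K : Set ℝ}
    (hK : IsCompact K) (hA : A ⊆ K) (hB : B ⊆ K) :
    Integrable F ((volume.restrict A).prod (volume.restrict B)) := by
  rw [Measure.prod_restrict]
  exact (hF.continuousOn.integrableOn_compact (hK.prod hK)).mono_set (prod_mono hA hB)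

lemma continuous_pk2 {h : ℝ} (hh : 0 < h) : Continuous fun p : ℝ × ℝ => pk h (p.1 - p.2) :=
  (continuous_pk hh).comp (continuous_fst.sub continuous_snd)

lemma pairing {Γ : Set ℝ} (hΓ : IsCompact Γ) {f : ℝ → ℝ} (hf : Continuous f) (hf0 : ∀ x, 0 < f x)
    {h : ℝ} (hh : 0 < h) :
    ∫ ξ in Γ, ∫ y in Γ, pk h (ξ - y) ≤ ∫ ξ in Γ, (∫ y in Γ, pk h (ξ - y) * f y) / f ξ := by
  have c0 := continuous_pk2 hh
  have c1 : Continuous fun p : ℝ × ℝ => pk h (p.1 - p.2) * (f p.2 / f p.1) :=
    c0.mul ((hf.comp continuous_snd).div (hf.comp continuous_fst) fun p => (hf0 _).ne')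
  have c2 : Continuous fun p : ℝ × ℝ => pk h (p.1 - p.2) * (f p.1 / f p.2) :=
    c0.mul ((hf.comp continuous_fst).div (hf.comp continuous_snd) fun p => (hf0 _).ne')
  have i0 := integrable_prod_of_continuous c0 hΓ subset_rfl subset_rfl
  have i1 := integrable_prod_of_continuous c1 hΓ subset_rfl subset_rfl
  have i2 := integrable_prod_of_continuous c2 hΓ subset_rfl subset_rfl
  have e1 : ∫ ξ in Γ, (∫ y in Γ, pk h (ξ - y) * f y) / f ξ
      = ∫ p, pk h (p.1 - p.2) * (f p.2 / f p.1) ∂(volume.restrict Γ).prod (volume.restrict Γ) := by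
    rw [integral_prod _ i1]
    refine integral_congr_ae (Eventually.of_forall fun ξ => ?_)
    simp only
    rw [← integral_div]
    refine integral_congr_ae (Eventually.of_forall fun y => ?_)
    simp only
    ring
  have e2 : ∫ p, pk h (p.1 - p.2) * (f p.2 / f p.1) ∂(volume.restrict Γ).prod (volume.restrict Γ)
      = ∫ p, pk h (p.1 - p.2) * (f p.1 / f p.2)
        ∂(volume.restrict Γ).prod (volume.restrict Γ) := by
    rw [← integral_prod_swap]
    refine integral_congr_ae (Eventually.of_forall fun p => ?_)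
    simp only [Prod.fst_swap, Prod.snd_swap]
    rw [pk_sub_comm]
  have e3 : 2 * ∫ p, pk h (p.1 - p.2) ∂(volume.restrict Γ).prod (volume.restrict Γ)
      ≤ ∫ p, pk h (p.1 - p.2) * (f p.2 / f p.1) ∂(volume.restrict Γ).prod (volume.restrict Γ)
        + ∫ p, pk h (p.1 - p.2) * (f p.1 / f p.2)
          ∂(volume.restrict Γ).prod (volume.restrict Γ) := by
    rw [← integral_add i1 i2, ← integral_const_mul]
    refine integral_mono (i0.const_mul _) (i1.add i2) fun p => ?_
    have a1 := hf0 p.1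
    have a2 := hf0 p.2
    have a3 := pk_pos hh (p.1 - p.2)
    have a4 : 2 ≤ f p.2 / f p.1 + f p.1 / f p.2 := by
      rw [div_add_div _ _ a1.ne' a2.ne', le_div_iff₀ (by positivity)]
      nlinarith [sq_nonneg (f p.1 - f p.2)]
    simp only
    nlinarith
  rw [e1, ← integral_prod _ i0]
  linarith

lemma setIntegral_pk_nonneg {h : ℝ} (hh : 0 < h) (A : Set ℝ) (ξ : ℝ) :
    0 ≤ ∫ y in A, pk h (ξ - y) :=
  integral_nonneg fun _ => (pk_pos hh _).le

lemma setIntegral_pk_le_one {h : ℝ} (hh : 0 < h) (A : Set ℝ) (ξ : ℝ) :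
    ∫ y in A, pk h (ξ - y) ≤ 1 := by
  rw [← integral_pk_sub hh ξ]
  exact setIntegral_le_integral (integrable_pk_sub hh ξ)
    (Eventually.of_forall fun _ => (pk_pos hh _).le)

lemma integrableOn_inner {h : ℝ} (hh : 0 < h) {A B K : Set ℝ} (hK : IsCompact K) (hA : A ⊆ K)
    (hB : B ⊆ K) : IntegrableOn (fun ξ => ∫ y in B, pk h (ξ - y)) A :=
  (integrable_prod_of_continuous (continuous_pk2 hh) hK hA hB).integral_prod_left

lemma bilin_le {h : ℝ} (hh : 0 < h) {A B K : Set ℝ} (hK : IsCompact K) (hA : A ⊆ K)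
    (hB : B ⊆ K) : ∫ ξ in A, ∫ y in B, pk h (ξ - y) ≤ volume.real B := by
  have i0 := integrable_prod_of_continuous (continuous_pk2 hh) hK hA hB
  have hBfin : volume B ≠ ⊤ := ((measure_mono hB).trans_lt hK.measure_lt_top).ne
  rw [integral_integral_swap (f := fun ξ y => pk h (ξ - y)) i0]
  calc ∫ y in B, ∫ ξ in A, pk h (ξ - y) ≤ ∫ _ in B, (1 : ℝ) := by
        refine integral_mono i0.integral_prod_right (integrableOn_const hBfin) fun y => ?_
        simp only [pk_sub_comm h _ y]
        exact setIntegral_pk_le_one hh A y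
    _ = volume.real B := by simp

lemma compl_integral_eq {h : ℝ} (hh : 0 < h) {E : Set ℝ} (hE : MeasurableSet E) (ξ : ℝ) :
    ∫ y in Eᶜ, pk h (ξ - y) = 1 - ∫ y in E, pk h (ξ - y) := by
  have := integral_add_compl hE (integrable_pk_sub hh ξ)
  rw [integral_pk_sub hh] at this
  linarith

lemma continuous_compl_integral {h : ℝ} (hh : 0 < h) {E : Set ℝ} (hE : IsCompact E) :
    Continuous fun ξ => ∫ y in Eᶜ, pk h (ξ - y) := by
  simp only [compl_integral_eq hh hE.measurableSet]
  exact continuous_const.sub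
    (continuous_parametric_integral_of_continuous (f := fun ξ y => pk h (ξ - y))
      (continuous_pk2 hh) hE)

lemma defect_le {h δ : ℝ} (hh : 0 < h) (hδ : 0 < δ) {E : Set ℝ} (hE : IsCompact E) :
    ∫ ξ in E, ∫ y in Eᶜ, pk h (ξ - y)
      ≤ 2 * h / δ * volume.real E + volume.real (Metric.cthickening δ E \ E) := by
  set K := Metric.cthickening δ E with hK
  have hKc : IsCompact K := hE.cthickening
  have hEK : E ⊆ K := Metric.self_subset_cthickening E
  have hm : MeasurableSet (K \ E) := hKc.measurableSet.diff hE.measurableSet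
  have h1 : ∀ ξ ∈ E, ∫ y in Eᶜ, pk h (ξ - y) ≤ 2 * h / δ + ∫ y in K \ E, pk h (ξ - y) := by
    intro ξ hξ
    have hip := integrable_pk_sub hh ξ
    have hsub : Eᶜ = Kᶜ ∪ (K \ E) := by
      ext y
      have := @hEK y
      simp only [mem_compl_iff, mem_union, Set.mem_sdiff]
      tauto
    rw [hsub, setIntegral_union (disjoint_compl_left.mono_right sdiff_subset) hm
      hip.integrableOn hip.integrableOn]
    have a1 : ∫ y in Kᶜ, pk h (ξ - y) ≤ ∫ y in Kᶜ, 2 * h / δ * pk δ (ξ - y) := by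
      refine setIntegral_mono_on hip.integrableOn
        ((integrable_pk_sub hδ ξ).const_mul _).integrableOn hKc.measurableSet.compl
        fun y hy => ?_
      refine pk_tail hh hδ ?_
      by_contra hcon
      push Not at hcon
      refine hy (Metric.mem_cthickening_of_dist_le y ξ δ E hξ ?_)
      rw [Real.dist_eq, abs_sub_comm]
      exact hcon.le
    have a2 : ∫ y in Kᶜ, 2 * h / δ * pk δ (ξ - y) ≤ 2 * h / δ := by
      rw [integral_const_mul]
      exact mul_le_of_le_one_right (by positivity) (setIntegral_pk_le_one hδ _ _)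
    linarith
  have hEfin : volume E ≠ ⊤ := hE.measure_lt_top.ne
  have i1 := integrableOn_inner hh hKc hEK (sdiff_subset : K \ E ⊆ K)
  calc ∫ ξ in E, ∫ y in Eᶜ, pk h (ξ - y)
      ≤ ∫ ξ in E, (2 * h / δ + ∫ y in K \ E, pk h (ξ - y)) := by
        refine setIntegral_mono_on
          ((continuous_compl_integral hh hE).continuousOn.integrableOn_compact hE)
          ((integrableOn_const hEfin).add i1) hE.measurableSet h1
    _ = 2 * h / δ * volume.real E + ∫ ξ in E, ∫ y in K \ E, pk h (ξ - y) := by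
        have i0 : IntegrableOn (fun _ : ℝ => 2 * h / δ) E := integrableOn_const hEfin
        rw [integral_add i0 i1, setIntegral_const, smul_eq_mul, mul_comm]
    _ ≤ _ := by
        gcongr
        exact bilin_le hh hKc hEK sdiff_subset

lemma defect_small {E : Set ℝ} (hE : IsCompact E) {γ : ℝ} (hγ : 0 < γ) :
    ∃ U : ℝ, 0 < U ∧ ∀ h, 0 < h → h ≤ U → ∫ ξ in E, ∫ y in Eᶜ, pk h (ξ - y) ≤ γ := by
  have h1 := tendsto_measure_cthickening_of_isCompact (μ := volume) hE
  have h2 : Tendsto (fun r => volume.real (Metric.cthickening r E)) (𝓝 0) (𝓝 (volume.real E)) :=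
    (ENNReal.tendsto_toReal hE.measure_lt_top.ne).comp h1
  have h3 : ∀ᶠ r in 𝓝 (0 : ℝ), volume.real (Metric.cthickening r E) < volume.real E + γ / 2 :=
    h2.eventually (gt_mem_nhds (by linarith))
  obtain ⟨δ, hδ, hδ0⟩ := ((h3.filter_mono nhdsWithin_le_nhds).and
    (self_mem_nhdsWithin : Ioi (0 : ℝ) ∈ 𝓝[>] 0)).exists
  have hδ1 : (0 : ℝ) < δ := hδ0
  have hE0 : 0 ≤ volume.real E := measureReal_nonneg
  refine ⟨γ * δ / (4 * (volume.real E + 1)), by positivity, fun h hh hU => ?_⟩
  refine (defect_le hh hδ1 hE).trans ?_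
  have a1 : volume.real (Metric.cthickening δ E \ E)
      = volume.real (Metric.cthickening δ E) - volume.real E :=
    measureReal_sdiff (Metric.self_subset_cthickening E) hE.measurableSet
      (hE.cthickening.measure_lt_top.ne)
  have a2 : 2 * h / δ * volume.real E ≤ γ / 2 := by
    rw [le_div_iff₀ (by positivity)] at hU
    rw [div_mul_eq_mul_div, div_le_iff₀ hδ1]
    nlinarith
  linarith

lemma bilin_ge {h : ℝ} (hh : 0 < h) {E Γ : Set ℝ} (hE : IsCompact E) (hΓ : IsCompact Γ)
    (hΓE : Γ ⊆ E) :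
    volume.real E - (∫ ξ in E, ∫ y in Eᶜ, pk h (ξ - y)) - 2 * volume.real (E \ Γ)
      ≤ ∫ ξ in Γ, ∫ y in Γ, pk h (ξ - y) := by
  have h1 : ∀ ξ, ∫ y in Γ, pk h (ξ - y)
      = 1 - (∫ y in Eᶜ, pk h (ξ - y)) - ∫ y in E \ Γ, pk h (ξ - y) := by
    intro ξ
    rw [compl_integral_eq hh hE.measurableSet,
      setIntegral_sdiff hΓ.measurableSet (integrable_pk_sub hh ξ).integrableOn hΓE]
    ring
  have hΓfin : volume Γ ≠ ⊤ := hΓ.measure_lt_top.ne
  have i1 : IntegrableOn (fun ξ => ∫ y in Eᶜ, pk h (ξ - y)) E :=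
    (continuous_compl_integral hh hE).continuousOn.integrableOn_compact hE
  have i2 := integrableOn_inner hh hE hΓE (sdiff_subset : E \ Γ ⊆ E)
  have i3 : IntegrableOn (fun ξ => 1 - ∫ y in Eᶜ, pk h (ξ - y)) Γ :=
    (integrableOn_const hΓfin).sub (i1.mono_set hΓE)
  simp only [h1]
  have i0 : IntegrableOn (fun _ : ℝ => (1 : ℝ)) Γ := integrableOn_const hΓfin
  rw [integral_sub i3 i2, integral_sub i0 (i1.mono_set hΓE),
    setIntegral_const, smul_eq_mul, mul_one]
  have a1 : ∫ ξ in Γ, ∫ y in Eᶜ, pk h (ξ - y) ≤ ∫ ξ in E, ∫ y in Eᶜ, pk h (ξ - y) :=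
    setIntegral_mono_set i1 (Eventually.of_forall fun ξ => setIntegral_pk_nonneg hh _ _)
      hΓE.eventuallyLE
  have a2 := bilin_le hh hE hΓE (sdiff_subset : E \ Γ ⊆ E)
  have a3 : volume.real (E \ Γ) = volume.real E - volume.real Γ :=
    measureReal_sdiff hΓE hΓ.measurableSet hE.measure_lt_top.ne
  linarith

lemma bad_set_le {η a : ℝ} (hη : 0 < η) {E : Set ℝ} (hE : IsCompact E) :
    a * volume.real (E \ (E ∩ {ξ | ∫ y in Eᶜ, pk η (ξ - y) ≤ a}))
      ≤ ∫ ξ in E, ∫ y in Eᶜ, pk η (ξ - y) := by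
  set B := E \ (E ∩ {ξ | ∫ y in Eᶜ, pk η (ξ - y) ≤ a}) with hB
  have hc := continuous_compl_integral hη hE
  have hBm : MeasurableSet B := hE.measurableSet.diff
    (hE.measurableSet.inter (isClosed_le hc continuous_const).measurableSet)
  have hBE : B ⊆ E := sdiff_subset
  have hBfin : volume B ≠ ⊤ := ((measure_mono hBE).trans_lt hE.measure_lt_top).ne
  have i1 : IntegrableOn (fun ξ => ∫ y in Eᶜ, pk η (ξ - y)) E :=
    hc.continuousOn.integrableOn_compact hE
  calc a * volume.real B = ∫ _ in B, a := by rw [setIntegral_const, smul_eq_mul, mul_comm]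
    _ ≤ ∫ ξ in B, ∫ y in Eᶜ, pk η (ξ - y) := by
        refine setIntegral_mono_on (integrableOn_const hBfin) (i1.mono_set hBE) hBm fun ξ hξ => ?_
        by_contra hcon
        push Not at hcon
        exact hξ.2 ⟨hξ.1, hcon.le⟩
    _ ≤ _ := setIntegral_mono_set i1
        (Eventually.of_forall fun ξ => setIntegral_pk_nonneg hη _ _) hBE.eventuallyLE

end Pool.Agent.Lib.MP_6083a5_an
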