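import Pool.Agent.Lib.MP_6083a5_an.Local
import Pool.Agent.Lib.MP_6083a5_an.Pair

/-!
A compact set on which the Lebesgue functions stay below `lam * log n` with `lam < 2 / π` for all
large `n` is a null set.
-/

open Polynomial MeasureTheory Filter Topology Set Real Lagrange

namespace Pool.Agent.Lib.MP_6083a5_an

theorem finite_bound {ι : Type*} [DecidableEq ι] [Fintype ι] (t : ι → ℝ)
    (ht : Function.Injective t) (htI : ∀ k, t k ∈ Icc (-1 : ℝ) 1)
    (m : ℕ) (hm : 1 ≤ m) (hmn : 2 * m ≤ Fintype.card ι) (η ε D Λ U : ℝ) (hη : 0 < η)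
    (hε : 0 < ε) (hε1 : ε < 1) (hε2 : 0 < 1 / (1 + ε) - 2 * ε)
    (hσ : 1 ≤ ε * (m * η)) (hD : 2 * η ≤ ε ^ 3 * D) (E : Set ℝ) (hE : IsCompact E)
    (hEI : E ⊆ Icc (-1 : ℝ) 1) (hE0 : 0 < volume.real E)
    (hU : ∀ h, 0 < h → h ≤ U → ∫ ξ in E, ∫ y in Eᶜ, pk h (ξ - y) ≤ ε ^ 3 * volume.real E / 3)
    (hηU : η ≤ U) (J : ℕ) (hJ : J * D ≤ U)
    (hΛ : ∀ x ∈ E, ∑ k, |(Lagrange.basis Finset.univ t k).eval x| ≤ Λ) :
    2 * kap ε * (1 - ε) * log (J + 1) ≤ π * Λ := by
  have hn : 1 ≤ Fintype.card ι := by omega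
  have hε3 : ε ^ 3 ≤ ε := by
    have : ε ^ 2 ≤ 1 := pow_le_one₀ hε.le hε1.le
    nlinarith
  have hD0 : 0 < D := by
    by_contra h
    push Not at h
    have : ε ^ 3 * D ≤ 0 := mul_nonpos_of_nonneg_of_nonpos (by positivity) h
    linarith
  have hηD : η < D := by nlinarith
  have hkap : 0 < kap ε := by
    unfold kap
    have : 0 < 1 - ε := by linarith
    positivity
  set e := volume.real E with he
  set Γ := E ∩ {ξ | ∫ y in Eᶜ, pk η (ξ - y) ≤ ε ^ 2} with hΓ
  have hΓc : IsCompact Γ :=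
    hE.inter_right (isClosed_le (continuous_compl_integral hη hE) continuous_const)
  have hΓE : Γ ⊆ E := inter_subset_left
  have hbad : volume.real (E \ Γ) ≤ ε * e / 3 := by
    have h1 := (bad_set_le (a := ε ^ 2) hη hE).trans (hU η hη hηU)
    rw [← hΓ] at h1
    have h2 : ε ^ 2 * volume.real (E \ Γ) ≤ ε ^ 2 * (ε * e / 3) := by linarith
    exact le_of_mul_le_mul_left h2 (by positivity)
  have hQc := continuous_Qf t hη
  have hQ0 := Qf_pos t ht hn hη
  have hci : ∀ j : ℕ, IntegrableOn (fun ξ => Qf t ((j + 1) * D) ξ / Qf t η ξ) Γ := fun j =>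
    ((continuous_Qf t (by positivity)).div hQc
      fun ξ => (hQ0 ξ).ne').continuousOn.integrableOn_compact hΓc
  have hj : ∀ j ∈ Finset.range J, (1 - ε) * e ≤ ∫ ξ in Γ, Qf t ((j + 1) * D) ξ / Qf t η ξ := by
    intro j hj
    have hj' : (j : ℝ) + 1 ≤ J := by exact_mod_cast Finset.mem_range.mp hj
    have hjD : (0 : ℝ) ≤ j * D := by positivity
    have hh : 0 < (j + 1) * D - η := by linarith
    have hhU : (j + 1) * D - η ≤ U := by
      have : (j + 1) * D ≤ J * D := by gcongr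
      linarith
    have h1 := bilin_ge hh hE hΓc hΓE
    have h2 := hU _ hh hhU
    have h3 := pairing hΓc hQc hQ0 hh
    have h4 : ∫ ξ in Γ, (∫ y in Γ, pk ((j + 1) * D - η) (ξ - y) * Qf t η y) / Qf t η ξ
        ≤ ∫ ξ in Γ, Qf t ((j + 1) * D) ξ / Qf t η ξ := by
      refine setIntegral_mono_on ?_ (hci j) hΓc.measurableSet fun ξ _ => ?_
      · refine (Continuous.div ?_ hQc fun ξ => (hQ0 ξ).ne').continuousOn.integrableOn_compact hΓc
        exact continuous_parametric_integral_of_continuous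
          (f := fun ξ y => pk ((j + 1) * D - η) (ξ - y) * Qf t η y)
          ((continuous_pk2 hh).mul (hQc.comp continuous_snd)) hΓc
      · refine div_le_div_of_nonneg_right ?_ (hQ0 ξ).le
        obtain ⟨a1, a2⟩ := Qf_semigroup t hh hη ξ
        rw [sub_add_cancel] at a2
        rw [← a2]
        exact setIntegral_le_integral a1
          (Eventually.of_forall fun y => mul_nonneg (pk_pos hh _).le (hQ0 y).le)
    have h5 : ε ^ 3 * e ≤ ε * e := by gcongr
    linarith
  have hΛ0 : 0 ≤ Λ := by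
    have : E.Nonempty := by
      by_contra h
      rw [not_nonempty_iff_eq_empty] at h
      simp [he, h] at hE0
    obtain ⟨x, hx⟩ := this
    exact (Finset.sum_nonneg fun _ _ => abs_nonneg _).trans (hΛ x hx)
  have hpi := pi_pos
  have hΓfin : volume Γ ≠ ⊤ := hΓc.measure_lt_top.ne
  have hint : 2 * kap ε * ∑ j ∈ Finset.range J,
      (∫ ξ in Γ, Qf t ((j + 1) * D) ξ / Qf t η ξ) / (j + 1) ≤ π * Λ * e := by
    have i1 : ∀ j ∈ Finset.range J,
        Integrable (fun ξ => Qf t ((j + 1) * D) ξ / Qf t η ξ / (j + 1)) (volume.restrict Γ) :=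
      fun j _ => (hci j).div_const _
    simp only [← integral_div]
    rw [← integral_finsetSum _ i1, ← integral_const_mul]
    calc ∫ ξ in Γ, 2 * kap ε * ∑ j ∈ Finset.range J, Qf t ((j + 1) * D) ξ / Qf t η ξ / (j + 1)
        ≤ ∫ _ in Γ, π * Λ := by
          refine setIntegral_mono_on ((integrable_finsetSum _ i1).const_mul _)
            (integrableOn_const hΓfin) hΓc.measurableSet fun ξ hξ => ?_
          have a1 := point_bound t ht htI m hm hmn ξ η ε D Λ hη hε hε1 hε2 hσ hD E hE hEI hξ.1 hξ.2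
            hΛ J
          have a2 : ∑ j ∈ Finset.range J, Qf t ((j + 1) * D) ξ / Qf t η ξ / (j + 1)
              = (∑ j ∈ Finset.range J, Qf t ((j + 1) * D) ξ / (j + 1)) / Qf t η ξ := by
            rw [Finset.sum_div]
            exact Finset.sum_congr rfl fun j _ => by ring
          rw [a2, ← mul_div_assoc, div_le_iff₀ (hQ0 ξ)]
          exact a1
      _ = π * Λ * volume.real Γ := by rw [setIntegral_const, smul_eq_mul, mul_comm]
      _ ≤ π * Λ * e := by
          gcongr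
          exact measureReal_mono hΓE hE.measure_lt_top.ne
  have hharm : log (J + 1) ≤ ∑ j ∈ Finset.range J, 1 / ((j : ℝ) + 1) := by
    have := log_add_one_le_harmonic J
    simpa [harmonic] using this
  have hε4 : 0 < 1 - ε := by linarith
  have hfin : 2 * kap ε * (1 - ε) * log (J + 1) * e ≤ π * Λ * e := by
    refine le_trans ?_ hint
    calc 2 * kap ε * (1 - ε) * log (J + 1) * e
        ≤ 2 * kap ε * (1 - ε) * (∑ j ∈ Finset.range J, 1 / ((j : ℝ) + 1)) * e := by gcongr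
      _ = 2 * kap ε * ∑ j ∈ Finset.range J, (1 - ε) * e / (j + 1) := by
          rw [mul_assoc (2 * kap ε), mul_assoc (2 * kap ε), Finset.mul_sum, Finset.sum_mul]
          congr 1
          exact Finset.sum_congr rfl fun j _ => by ring
      _ ≤ _ := by
          gcongr with j hj'
          exact hj j hj'
  exact le_of_mul_le_mul_right hfin hE0

lemma exists_eps {c : ℝ} (hc : c < 2) :
    ∃ ε : ℝ, 0 < ε ∧ ε < 1 ∧ 0 < 1 / (1 + ε) - 2 * ε ∧ c < 2 * kap ε * (1 - ε) ^ 2 := by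
  have h1 : ContinuousAt (fun ε : ℝ => 1 / (1 + ε) - 2 * ε) 0 := by
    fun_prop (disch := norm_num)
  have h2 : ContinuousAt (fun ε : ℝ => 2 * kap ε * (1 - ε) ^ 2) 0 := by
    unfold kap
    fun_prop (disch := norm_num)
  have h3 : ∀ᶠ ε in 𝓝 (0 : ℝ), 0 < 1 / (1 + ε) - 2 * ε :=
    h1.eventually (lt_mem_nhds (by norm_num))
  have h4 : ∀ᶠ ε in 𝓝 (0 : ℝ), c < 2 * kap ε * (1 - ε) ^ 2 :=
    h2.eventually (lt_mem_nhds (by simpa [kap] using hc))
  have h5 : ∀ᶠ ε in 𝓝 (0 : ℝ), ε < 1 := gt_mem_nhds (by norm_num)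
  obtain ⟨ε, ⟨a1, a2, a3⟩, a4⟩ := (((h3.and (h4.and h5)).filter_mono nhdsWithin_le_nhds).and
    (self_mem_nhdsWithin : Ioi (0 : ℝ) ∈ 𝓝[>] 0)).exists
  exact ⟨ε, a4, a3, a1, a2⟩

/-- For an arbitrary triangular array of nodes. -/
theorem null_set (t : (n : ℕ) → Fin n → ℝ) (ht : ∀ n, Function.Injective (t n))
    (htI : ∀ n k, t n k ∈ Icc (-1 : ℝ) 1) (lam : ℝ) (hlam : lam < 2 / π) (N : ℕ) :
    volume {x ∈ Icc (-1 : ℝ) 1 | ∀ n, N ≤ n →
      ∑ k, |(Lagrange.basis Finset.univ (t n) k).eval x| ≤ lam * log n} = 0 := by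
  set E := {x ∈ Icc (-1 : ℝ) 1 | ∀ n, N ≤ n →
      ∑ k, |(Lagrange.basis Finset.univ (t n) k).eval x| ≤ lam * log n} with hEdef
  have hEI : E ⊆ Icc (-1 : ℝ) 1 := fun x hx => hx.1
  have hE : IsCompact E := by
    refine isCompact_Icc.inter_right (t := {x | ∀ n, N ≤ n →
      ∑ k, |(Lagrange.basis Finset.univ (t n) k).eval x| ≤ lam * log n}) ?_
    simp only [Set.ofPred_forall]
    refine isClosed_iInter fun n => isClosed_iInter fun _ => isClosed_le ?_ continuous_const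
    exact continuous_finsetSum _ fun k _ => (Polynomial.continuous _).abs
  by_contra hne
  have hE0 : 0 < volume.real E := ENNReal.toReal_pos hne hE.measure_lt_top.ne
  have hpi := pi_pos
  obtain ⟨ε, hε, hε1, hε2, hε3⟩ := exists_eps (c := π * lam) (by
    rw [lt_div_iff₀ hpi] at hlam; linarith)
  obtain ⟨U, hU0, hU⟩ := defect_small hE (γ := ε ^ 3 * volume.real E / 3) (by positivity)
  set c := U * ε ^ 4 / 6 with hc
  have hc0 : 0 < c := by positivity
  have ev1 : ∀ᶠ n : ℕ in atTop, -log c / ε ≤ log n :=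
    (tendsto_log_atTop.comp tendsto_natCast_atTop_atTop).eventually_ge_atTop _
  have ev2 : ∀ᶠ n : ℕ in atTop, 3 / (ε * U) ≤ (n : ℝ) :=
    tendsto_natCast_atTop_atTop.eventually_ge_atTop _
  obtain ⟨n, hn1, hn2, hn3, hn4⟩ :=
    (ev1.and (ev2.and ((eventually_ge_atTop N).and (eventually_ge_atTop 2)))).exists
  have hn0 : (0 : ℝ) < n := by exact_mod_cast (by omega : 0 < n)
  have hlog : 0 < log n := log_pos (by exact_mod_cast (by omega : 1 < n))
  have hD0 : 0 < 6 / (ε ^ 4 * n) := by positivity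
  have hb := finite_bound (t n) (ht n) (htI n) (n / 2) (by omega) (by simp; omega)
    (3 / (ε * n)) ε (6 / (ε ^ 4 * n)) (lam * log n) U (by positivity) hε hε1 hε2
    (by
      have a1 : (n : ℝ) ≤ 3 * ((n / 2 : ℕ) : ℝ) := by exact_mod_cast (by omega : n ≤ 3 * (n / 2))
      have a2 : ε * (((n / 2 : ℕ) : ℝ) * (3 / (ε * n))) = 3 * ((n / 2 : ℕ) : ℝ) / n := by
        field_simp
      rw [a2, le_div_iff₀ hn0]
      linarith)
    (le_of_eq (by field_simp; norm_num)) E hE hEI hE0 hU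
    (by
      rw [div_le_iff₀ (by positivity)] at hn2 ⊢
      linarith)
    ⌊c * n⌋₊
    (by
      have a1 : (⌊c * n⌋₊ : ℝ) ≤ c * n := Nat.floor_le (by positivity)
      calc (⌊c * n⌋₊ : ℝ) * (6 / (ε ^ 4 * n)) ≤ c * n * (6 / (ε ^ 4 * n)) := by gcongr
        _ = U := by rw [hc]; field_simp)
    (fun x hx => hx.2 n hn3)
  have h1 : (1 - ε) * log n ≤ log (⌊c * n⌋₊ + 1) := by
    have a1 : c * n ≤ ⌊c * n⌋₊ + 1 := (Nat.lt_floor_add_one _).le
    have a2 : log (c * n) ≤ log (⌊c * n⌋₊ + 1) := log_le_log (by positivity) a1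
    rw [log_mul hc0.ne' hn0.ne'] at a2
    rw [div_le_iff₀ hε] at hn1
    linarith
  have hkap : 0 < kap ε := by
    unfold kap
    have : 0 < 1 - ε := by linarith
    positivity
  have hε4 : 0 < 1 - ε := by linarith
  have h2 : 2 * kap ε * (1 - ε) * ((1 - ε) * log n) ≤ π * (lam * log n) :=
    le_trans (by gcongr) hb
  nlinarith

end Pool.Agent.Lib.MP_6083a5_an
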