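import Pool.Agent.Lib.MP_6083a5_an.NestedA

/-!
Cells of a grid on which a logarithmic potential separates two eighths of the cell, and the test
function built from such cells.
-/

open MeasureTheory Filter Topology Set Real

namespace Pool.Agent.Lib.MP_6083a5_an.Nested

/-- The index of the cell of the grid of mesh `δ` that contains `x`. -/
noncomputable def kk (δ x : ℝ) : ℤ := ⌊x / δ⌋

lemma kk_eight (δ x : ℝ) : kk (8 * δ) x = kk δ x / 8 := by
  unfold kk
  have h := Int.floor_div_cast_of_nonneg (n := 8) (by norm_num) (x / δ)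
  rw [← h, div_div, mul_comm]
  norm_num

lemma kk_iff {δ : ℝ} (hδ : 0 < δ) {x : ℝ} {k : ℤ} :
    kk δ x = k ↔ k * δ ≤ x ∧ x < (k + 1) * δ := by
  unfold kk
  rw [Int.floor_eq_iff, le_div_iff₀ hδ, div_lt_iff₀ hδ]

lemma measurable_kk (δ : ℝ) : Measurable (kk δ) :=
  Int.measurable_floor.comp (measurable_id.div_const δ)

lemma cell_eq {δ : ℝ} (hδ : 0 < δ) (k : ℤ) : kk δ ⁻¹' {k} = Ico (k * δ) ((k + 1) * δ) := by
  ext x
  exact kk_iff hδ

lemma volume_cell {δ : ℝ} (hδ : 0 < δ) (k : ℤ) : volume.real (kk δ ⁻¹' {k}) = δ := by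
  rw [cell_eq hδ, Real.volume_real_Ico_of_le (by linarith)]
  ring

lemma inv_anti_free {a b q : ℝ} (hab : a ≤ b) (hq : q < a ∨ b < q) : (b - q)⁻¹ ≤ (a - q)⁻¹ := by
  rcases hq with h | h
  · exact inv_anti₀ (by linarith) (by linarith)
  · have h1 : (q - a)⁻¹ ≤ (q - b)⁻¹ := inv_anti₀ (by linarith) (by linarith)
    rw [← neg_sub q b, ← neg_sub q a, inv_neg, inv_neg]
    linarith

lemma ratio_pos {u v q : ℝ} (huv : u ≤ v) (hq : q < u ∨ v < q) :
    u - q ≠ 0 ∧ v - q ≠ 0 ∧ 0 < (v - q) / (u - q) := by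
  rcases hq with h | h
  · exact ⟨by linarith, by linarith, div_pos (by linarith) (by linarith)⟩
  · exact ⟨by linarith, by linarith, div_pos_of_neg_of_neg (by linarith) (by linarith)⟩

lemma log_step_ge {u v y q : ℝ} (huv : u ≤ v) (hvy : v ≤ y) (hq : q < u ∨ y < q) :
    (v - u) * (y - q)⁻¹ ≤ log (v - q) - log (u - q) := by
  obtain ⟨h1, h2, h3⟩ := ratio_pos huv (q := q) (hq.imp id fun h => by linarith)
  have h4 := one_sub_inv_le_log_of_pos h3
  rw [log_div h2 h1] at h4
  have h5 := inv_anti_free hvy (q := q) (hq.imp (fun h => by linarith) id)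
  have h6 : 1 - ((v - q) / (u - q))⁻¹ = (v - u) * (v - q)⁻¹ := by
    field_simp
    ring
  rw [h6] at h4
  exact (mul_le_mul_of_nonneg_left h5 (by linarith)).trans h4

lemma log_step_le {u v y q : ℝ} (hyu : y ≤ u) (huv : u ≤ v) (hq : q < y ∨ v < q) :
    log (v - q) - log (u - q) ≤ (v - u) * (y - q)⁻¹ := by
  obtain ⟨h1, h2, h3⟩ := ratio_pos huv (q := q) (hq.imp (fun h => by linarith) id)
  have h4 := log_le_sub_one_of_pos h3
  rw [log_div h2 h1] at h4
  have h5 := inv_anti_free hyu (q := q) (hq.imp id fun h => by linarith)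
  have h6 : (v - q) / (u - q) - 1 = (v - u) * (u - q)⁻¹ := by
    field_simp
    ring
  rw [h6] at h4
  exact h4.trans (mul_le_mul_of_nonneg_left h5 (by linarith))

/-- The function `G` separates two eighths of the cell number `j` of mesh `8 * δ`. -/
def Good (G : ℝ → ℝ) (δ β : ℝ) (j : ℤ) : Prop :=
  ∃ l r : ℤ, ∃ c : ℝ, l / 8 = j ∧ r / 8 = j ∧ l ≠ r ∧
    (∀ x, kk δ x = l → c + β ≤ G x) ∧ ∀ x, kk δ x = r → G x ≤ c - β

lemma good_of {κ : Type*} (P : Finset κ) (q : κ → ℝ) {δ s x0 : ℝ} (hδ : 0 < δ) (hs : 0 < s)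
    (hfar : ∀ a ∈ P, 8 * δ < |x0 - q a|)
    (hh : ∀ i ∈ Finset.Icc (-4 : ℤ) 3, s < |∑ a ∈ P, (x0 + i * δ - q a)⁻¹|) :
    Good (fun x => ∑ a ∈ P, log (x - q a)) δ (s * δ / 2) (kk δ x0 / 8) := by
  set k := kk δ x0 with hk
  set j := k / 8 with hj
  obtain ⟨hx1, hx2⟩ := (kk_iff hδ).1 hk.symm
  have hk1 : (8 * j : ℝ) ≤ k := by exact_mod_cast (by omega : 8 * j ≤ k)
  have hk2 : (k : ℝ) ≤ 8 * j + 7 := by exact_mod_cast (by omega : k ≤ 8 * j + 7)
  set A : ℝ := 8 * j * δ with hA
  have hx3 : A ≤ x0 := (mul_le_mul_of_nonneg_right hk1 hδ.le).trans hx1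
  have hx4 : x0 ≤ A + 8 * δ := by nlinarith
  have hq : ∀ a ∈ P, q a < A ∨ A + 8 * δ < q a := by
    intro a ha
    rcases lt_abs.1 (hfar a ha) with h | h
    · left; linarith
    · right; linarith
  have h1 := hh (8 * j + 3 - k) (Finset.mem_Icc.2 (by omega))
  set y : ℝ := x0 + ((8 * j + 3 - k : ℤ) : ℝ) * δ with hy
  have hy1 : A + 3 * δ ≤ y := by rw [hy, hA]; push_cast; nlinarith
  have hy2 : y ≤ A + 4 * δ := by rw [hy, hA]; push_cast; nlinarith
  set h := ∑ a ∈ P, (y - q a)⁻¹ with hdef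
  have hge : ∀ u v : ℝ, A ≤ u → u + δ / 2 ≤ v → v ≤ y → s < h →
      ∑ a ∈ P, log (u - q a) + s * δ / 2 ≤ ∑ a ∈ P, log (v - q a) := by
    intro u v a1 a2 a3 a4
    have a5 : (v - u) * h ≤ ∑ a ∈ P, log (v - q a) - ∑ a ∈ P, log (u - q a) := by
      rw [hdef, Finset.mul_sum, ← Finset.sum_sub_distrib]
      exact Finset.sum_le_sum fun a ha => log_step_ge (by linarith) a3
        ((hq a ha).imp (fun b => by linarith) fun b => by linarith)
    nlinarith
  have hle : ∀ u v : ℝ, y ≤ u → u + δ / 2 ≤ v → v ≤ A + 8 * δ → s < -h →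
      ∑ a ∈ P, log (v - q a) + s * δ / 2 ≤ ∑ a ∈ P, log (u - q a) := by
    intro u v a1 a2 a3 a4
    have a5 : ∑ a ∈ P, log (v - q a) - ∑ a ∈ P, log (u - q a) ≤ (v - u) * h := by
      rw [hdef, Finset.mul_sum, ← Finset.sum_sub_distrib]
      exact Finset.sum_le_sum fun a ha => log_step_le a1 (by linarith)
        ((hq a ha).imp (fun b => by linarith) fun b => by linarith)
    nlinarith
  rcases lt_abs.1 h1 with h2 | h2
  · refine ⟨8 * j + 2, 8 * j, ∑ a ∈ P, log (A + 3 / 2 * δ - q a), by omega, by omega, by omega,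
      fun x hx => ?_, fun x hx => ?_⟩
    · obtain ⟨b1, b2⟩ := (kk_iff hδ).1 hx
      push_cast at b1 b2
      exact hge _ _ (by linarith) (by linarith) (by linarith) h2
    · obtain ⟨b1, b2⟩ := (kk_iff hδ).1 hx
      push_cast at b1 b2
      exact le_sub_iff_add_le.2 (hge _ _ (by linarith) (by linarith) (by linarith) h2)
  · refine ⟨8 * j + 5, 8 * j + 7, ∑ a ∈ P, log (A + 13 / 2 * δ - q a), by omega, by omega,
      by omega, fun x hx => ?_, fun x hx => ?_⟩
    · obtain ⟨b1, b2⟩ := (kk_iff hδ).1 hx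
      push_cast at b1 b2
      exact hle _ _ (by linarith) (by linarith) (by linarith) h2
    · obtain ⟨b1, b2⟩ := (kk_iff hδ).1 hx
      push_cast at b1 b2
      exact le_sub_iff_add_le.2 (hle _ _ (by linarith) (by linarith) (by linarith) h2)

/-- A bounded nonnegative weight with mean one on every cell of mesh `δ`. -/
structure Wt (μ : Measure ℝ) (δ : ℝ) (W : ℝ → ℝ) : Prop where
  meas : Measurable W
  nonneg : ∀ x, 0 ≤ W x
  bdd : ∃ B, ∀ x, W x ≤ B
  mean : ∀ k, ∫ x in kk δ ⁻¹' {k}, W x ∂μ = μ.real (kk δ ⁻¹' {k})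

lemma Wt.integrable_mul {μ : Measure ℝ} {δ : ℝ} {W : ℝ → ℝ} (h : Wt μ δ W) {f : ℝ → ℝ}
    (hf : Integrable f μ) : Integrable (fun x => W x * f x) μ := by
  obtain ⟨B, hB⟩ := h.bdd
  exact hf.bdd_mul (c := B) h.meas.aestronglyMeasurable
    (Eventually.of_forall fun x => by rw [norm_of_nonneg (h.nonneg x)]; exact hB x)

lemma Wt.integrable {μ : Measure ℝ} [IsFiniteMeasure μ] {δ : ℝ} {W : ℝ → ℝ} (h : Wt μ δ W) :
    Integrable W μ := by
  simpa using h.integrable_mul (integrable_const (1 : ℝ))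

lemma coarse_eq (δ : ℝ) (j : ℤ) :
    kk (8 * δ) ⁻¹' {j} = kk δ ⁻¹' (Finset.Ico (8 * j) (8 * j + 8) : Finset ℤ) := by
  ext x
  simp only [mem_preimage, mem_singleton_iff, kk_eight, Finset.mem_coe, Finset.mem_Ico]
  omega

lemma Wt.mean_finset {μ : Measure ℝ} [IsFiniteMeasure μ] {δ : ℝ} {W : ℝ → ℝ} (h : Wt μ δ W)
    (F : Finset ℤ) : ∫ x in kk δ ⁻¹' F, W x ∂μ = μ.real (kk δ ⁻¹' F) := by
  have hm : ∀ k ∈ F, MeasurableSet (kk δ ⁻¹' {k}) := fun k _ =>
    measurable_kk δ (measurableSet_singleton k)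
  rw [← sum_measureReal_preimage_singleton F hm, ← Finset.set_biUnion_preimage_singleton,
    integral_biUnion_finset F hm (pairwiseDisjoint_fiber (kk δ) F)
      fun _ _ => h.integrable.integrableOn]
  exact Finset.sum_congr rfl fun k _ => h.mean k

theorem exists_test (μ : Measure ℝ) [IsFiniteMeasure μ] {δ β : ℝ} (hδ : 0 < δ) (hβ : 0 ≤ β)
    (hm : ∀ k, μ.real (kk δ ⁻¹' {k}) ≤ δ) (G : ℝ → ℝ) (hG : Integrable G μ) (J : Finset ℤ)
    (hJ : ∀ j ∈ J, Good G δ β j) :
    ∃ ε : ℝ → ℝ, Measurable ε ∧ (∀ x, |ε x| ≤ 1) ∧ ∀ W, Wt μ δ W →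
      Wt μ (8 * δ) (fun x => W x * (1 + ε x)) ∧ Wt μ (8 * δ) (fun x => W x * (1 - ε x)) ∧
      ∫ x, W x * ε x ∂μ = 0 ∧
      2 * β * ∑ j ∈ J, (μ.real (kk (8 * δ) ⁻¹' {j}) - 7 * δ) ≤ ∫ x, W x * ε x * G x ∂μ := by
  classical
  choose! l r c hl hr hlr hc1 hc2 using hJ
  set m : ℤ → ℝ := fun k => μ.real (kk δ ⁻¹' {k}) with hmdef
  have hm0 : ∀ k, 0 ≤ m k := fun k => measureReal_nonneg
  have hcell : ∀ k, MeasurableSet (kk δ ⁻¹' {k}) := fun k =>
    measurable_kk δ (measurableSet_singleton k)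
  set e : ℤ → ℝ := fun k => ∑ j ∈ J,
    ((if k = l j then m (r j) / δ else 0) - if k = r j then m (l j) / δ else 0) with he
  have he1 : ∀ k, |e k| ≤ 1 := by
    intro k
    have a1 : ∀ k, 0 ≤ m k / δ ∧ m k / δ ≤ 1 := fun k =>
      ⟨div_nonneg (hm0 k) hδ.le, (div_le_one hδ).2 (hm k)⟩
    by_cases hk : k / 8 ∈ J
    · rw [he]
      simp only
      rw [Finset.sum_eq_single_of_mem _ hk]
      · have a2 := a1 (r (k / 8))
        have a3 := a1 (l (k / 8))
        rw [abs_le]
        split_ifs <;> constructor <;> linarith [a2.1, a2.2, a3.1, a3.2]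
      · intro j hj hne
        rw [if_neg fun h => hne (by rw [h, hl j hj]), if_neg fun h => hne (by rw [h, hr j hj]),
          sub_zero]
    · rw [he]
      simp only
      rw [Finset.sum_eq_zero]
      · simp
      · intro j hj
        rw [if_neg fun h => hk (by rw [h, hl j hj]; exact hj),
          if_neg fun h => hk (by rw [h, hr j hj]; exact hj), sub_zero]
  have hεm : Measurable fun x => e (kk δ x) := (measurable_of_countable e).comp (measurable_kk δ)
  have key : ∀ f : ℝ → ℝ, Integrable f μ → ∫ x, e (kk δ x) * f x ∂μ = ∑ j ∈ J,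
      (m (r j) / δ * ∫ x in kk δ ⁻¹' {l j}, f x ∂μ
        - m (l j) / δ * ∫ x in kk δ ⁻¹' {r j}, f x ∂μ) := by
    intro f hf
    have a1 : ∀ x, e (kk δ x) * f x = ∑ j ∈ J,
        (m (r j) / δ * (kk δ ⁻¹' {l j}).indicator f x
          - m (l j) / δ * (kk δ ⁻¹' {r j}).indicator f x) := by
      intro x
      rw [he]
      simp only
      rw [Finset.sum_mul]
      refine Finset.sum_congr rfl fun j _ => ?_
      simp only [indicator_apply, mem_preimage, mem_singleton_iff]
      split_ifs <;> ring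
    simp only [a1]
    refine (integral_finsetSum _ fun j _ => ((hf.indicator (hcell _)).const_mul _).sub
      ((hf.indicator (hcell _)).const_mul _)).trans (Finset.sum_congr rfl fun j _ => ?_)
    simp only [Pi.sub_apply]
    rw [integral_sub ((hf.indicator (hcell _)).const_mul _) ((hf.indicator (hcell _)).const_mul _),
      integral_const_mul, integral_const_mul, integral_indicator (hcell _),
      integral_indicator (hcell _)]
  refine ⟨fun x => e (kk δ x), hεm, fun x => he1 _, fun W hW => ?_⟩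
  have hWi := hW.integrable
  have hWe : Integrable (fun x => W x * e (kk δ x)) μ :=
    hW.integrable_mul ((integrable_const (1 : ℝ)).mono' hεm.aestronglyMeasurable
      (Eventually.of_forall fun x => he1 _))
  have hzero : ∀ j0 : ℤ, ∫ x in kk (8 * δ) ⁻¹' {j0}, W x * e (kk δ x) ∂μ = 0 := by
    intro j0
    have hc : MeasurableSet (kk (8 * δ) ⁻¹' {j0}) := measurable_kk _ (measurableSet_singleton _)
    have a1 : ∀ k, ∫ x in kk δ ⁻¹' {k}, (kk (8 * δ) ⁻¹' {j0}).indicator W x ∂μ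
        = if k / 8 = j0 then m k else 0 := by
      intro k
      split_ifs with h
      · rw [← show _ = m k from hW.mean k]
        refine setIntegral_congr_fun (hcell k) fun x hx => indicator_of_mem ?_ _
        change kk (8 * δ) x = j0
        rw [kk_eight, show kk δ x = k from hx, h]
      · refine setIntegral_eq_zero_of_forall_eq_zero fun x hx => indicator_of_notMem ?_ _
        change ¬ kk (8 * δ) x = j0
        rw [kk_eight, show kk δ x = k from hx]
        exact h
    have a2 := key _ (hWi.indicator hc)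
    rw [Finset.sum_eq_zero] at a2
    · rw [← a2, ← integral_indicator hc]
      refine integral_congr_ae (Eventually.of_forall fun x => ?_)
      simp only [indicator_apply]
      split_ifs <;> ring
    · intro j hj
      rw [a1, a1, hl j hj, hr j hj]
      split_ifs <;> ring
  obtain ⟨B, hB⟩ := hW.bdd
  have hcm : ∀ j0 : ℤ, ∫ x in kk (8 * δ) ⁻¹' {j0}, W x ∂μ = μ.real (kk (8 * δ) ⁻¹' {j0}) := by
    intro j0
    rw [coarse_eq, hW.mean_finset]
  refine ⟨⟨hW.meas.mul (measurable_const.add hεm), fun x => mul_nonneg (hW.nonneg x) ?_,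
    ⟨B * 2, fun x => ?_⟩, fun j0 => ?_⟩,
    ⟨hW.meas.mul (measurable_const.sub hεm), fun x => mul_nonneg (hW.nonneg x) ?_,
    ⟨B * 2, fun x => ?_⟩, fun j0 => ?_⟩, ?_, ?_⟩
  · linarith [(abs_le.1 (he1 (kk δ x))).1]
  · have a1 := abs_le.1 (he1 (kk δ x))
    exact mul_le_mul (hB x) (by linarith [a1.2]) (by linarith [a1.1]) ((hW.nonneg x).trans (hB x))
  · simp only [mul_add, mul_one]
    rw [integral_add hWi.integrableOn hWe.integrableOn, hzero, hcm, add_zero]
  · linarith [(abs_le.1 (he1 (kk δ x))).2]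
  · have a1 := abs_le.1 (he1 (kk δ x))
    exact mul_le_mul (hB x) (by linarith [a1.1]) (by linarith [a1.2]) ((hW.nonneg x).trans (hB x))
  · simp only [mul_sub, mul_one]
    rw [integral_sub hWi.integrableOn hWe.integrableOn, hzero, hcm, sub_zero]
  · have a2 := key _ hWi
    rw [Finset.sum_eq_zero] at a2
    · rw [← a2]
      exact integral_congr_ae (Eventually.of_forall fun x => mul_comm _ _)
    · intro j _
      rw [hW.mean, hW.mean]
      change m (r j) / δ * m (l j) - m (l j) / δ * m (r j) = 0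
      ring
  · have hWG := hW.integrable_mul hG
    have a2 := key _ hWG
    have a3 : ∫ x, W x * e (kk δ x) * G x ∂μ = ∫ x, e (kk δ x) * (W x * G x) ∂μ :=
      integral_congr_ae (Eventually.of_forall fun x => by ring)
    rw [a3, a2, Finset.mul_sum]
    refine Finset.sum_le_sum fun j hj => ?_
    have b1 : (c j + β) * m (l j) ≤ ∫ x in kk δ ⁻¹' {l j}, W x * G x ∂μ := by
      rw [← show _ = m (l j) from hW.mean (l j), ← integral_const_mul]
      refine setIntegral_mono_on (hWi.const_mul _).integrableOn hWG.integrableOn (hcell _)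
        fun x hx => ?_
      rw [mul_comm]
      exact mul_le_mul_of_nonneg_left (hc1 j hj x hx) (hW.nonneg x)
    have b2 : ∫ x in kk δ ⁻¹' {r j}, W x * G x ∂μ ≤ (c j - β) * m (r j) := by
      rw [← show _ = m (r j) from hW.mean (r j), ← integral_const_mul]
      refine setIntegral_mono_on hWG.integrableOn (hWi.const_mul _).integrableOn (hcell _)
        fun x hx => ?_
      rw [mul_comm (c j - β)]
      exact mul_le_mul_of_nonneg_left (hc2 j hj x hx) (hW.nonneg x)
    have b3 : μ.real (kk (8 * δ) ⁻¹' {j}) ≤ m (l j) + m (r j) + 6 * δ := by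
      have c1 : l j ∈ Finset.Ico (8 * j) (8 * j + 8) := by
        have := hl j hj
        rw [Finset.mem_Ico]; omega
      have c2 : r j ∈ (Finset.Ico (8 * j) (8 * j + 8)).erase (l j) := by
        have := hr j hj
        have := hlr j hj
        rw [Finset.mem_erase, Finset.mem_Ico]; omega
      rw [coarse_eq, ← sum_measureReal_preimage_singleton _ fun k _ => hcell k,
        ← Finset.add_sum_erase _ _ c1, ← Finset.add_sum_erase _ _ c2, ← add_assoc]
      have c3 := Finset.sum_le_card_nsmul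
        (((Finset.Ico (8 * j) (8 * j + 8)).erase (l j)).erase (r j)) m δ fun k _ => hm k
      rw [Finset.card_erase_of_mem c2, Finset.card_erase_of_mem c1, Int.card_Ico,
        show (8 * j + 8 - 8 * j).toNat - 1 - 1 = 6 by omega, nsmul_eq_mul] at c3
      push_cast at c3
      exact add_le_add_right c3 _
    have b4 : m (l j) + m (r j) - δ ≤ m (l j) * m (r j) / δ := by
      rw [le_div_iff₀ hδ]
      have c1 : m (l j) ≤ δ := hm _
      have c2 : m (r j) ≤ δ := hm _
      nlinarith [mul_nonneg (sub_nonneg.2 c1) (sub_nonneg.2 c2)]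
    have b5 := mul_le_mul_of_nonneg_left b1 (div_nonneg (hm0 (r j)) hδ.le)
    have b6 := mul_le_mul_of_nonneg_left b2 (div_nonneg (hm0 (l j)) hδ.le)
    have b7 : 2 * β * (μ.real (kk (8 * δ) ⁻¹' {j}) - 7 * δ) ≤ 2 * β * (m (l j) * m (r j) / δ) :=
      mul_le_mul_of_nonneg_left (by linarith) (by positivity)
    have b8 : m (r j) / δ * ((c j + β) * m (l j)) - m (l j) / δ * ((c j - β) * m (r j))
        = 2 * β * (m (l j) * m (r j) / δ) := by ring
    linarith

end Pool.Agent.Lib.MP_6083a5_an.Nested
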