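import Pool.Agent.Lib.MP_6083a5_an.NestedC

/-!
Two sided control of the normalised node polynomial by the Lebesgue function, and the measure of
the set where the Lebesgue functions of a nested sequence of nodes grow slowly.
-/

open MeasureTheory Filter Topology Set Real Lagrange

namespace Pool.Agent.Lib.MP_6083a5_an.Nested

/-- The Lebesgue function of interpolation at the first `n` nodes. -/
noncomputable def leb (t : ℕ → ℝ) (n : ℕ) (x : ℝ) : ℝ :=
  ∑ k ∈ Finset.range n, |(Lagrange.basis (Finset.range n) t k).eval x|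

/-- The sum of the absolute nodal weights. -/
noncomputable def wsum (t : ℕ → ℝ) (n : ℕ) : ℝ :=
  ∑ k ∈ Finset.range n, |nodalWeight (Finset.range n) t k|

lemma wsum_pos {t : ℕ → ℝ} (ht : Function.Injective t) {n : ℕ} (hn : 1 ≤ n) : 0 < wsum t n :=
  Finset.sum_pos (fun _ hk => abs_pos.2 (nodalWeight_ne_zero ht.injOn hk))
    ⟨0, Finset.mem_range.2 hn⟩

lemma leb_eq (t : ℕ → ℝ) (n : ℕ) {x : ℝ} (hx : ∀ k, x ≠ t k) :
    leb t n x = |∏ i ∈ Finset.range n, (x - t i)|
      * ∑ k ∈ Finset.range n, |nodalWeight (Finset.range n) t k| * |x - t k|⁻¹ := by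
  rw [leb, Finset.mul_sum]
  refine Finset.sum_congr rfl fun k hk => ?_
  rw [eval_basis_not_at_node hk (hx k), eval_nodal, abs_mul, abs_mul, abs_inv]

lemma one_le_leb {t : ℕ → ℝ} (ht : Function.Injective t) {n : ℕ} (hn : 1 ≤ n) (x : ℝ) :
    1 ≤ leb t n x := by
  have h := congrArg (Polynomial.eval x)
    (Lagrange.sum_basis (s := Finset.range n) ht.injOn ⟨0, Finset.mem_range.2 hn⟩)
  rw [Polynomial.eval_finsetSum, Polynomial.eval_one] at h
  rw [← h]
  exact Finset.sum_le_sum fun _ _ => le_abs_self _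

lemma sum_log_eq (t : ℕ → ℝ) (n : ℕ) {x : ℝ} (hx : ∀ k, x ≠ t k) :
    ∑ i ∈ Finset.range n, log (x - t i) = log |∏ i ∈ Finset.range n, (x - t i)| := by
  rw [log_abs, log_prod fun i _ => sub_ne_zero.2 (hx i)]

lemma upper {t : ℕ → ℝ} (ht : Function.Injective t) (htI : ∀ i, t i ∈ Icc (-1 : ℝ) 1) {n : ℕ}
    (hn : 1 ≤ n) {x : ℝ} (hxI : x ∈ Icc (-1 : ℝ) 1) (hx : ∀ k, x ≠ t k) :
    ∑ i ∈ Finset.range n, log (x - t i) + log (wsum t n) ≤ log (2 * leb t n x) := by
  have h0 : 0 < |∏ i ∈ Finset.range n, (x - t i)| :=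
    abs_pos.2 (Finset.prod_ne_zero_iff.2 fun i _ => sub_ne_zero.2 (hx i))
  have h1 := wsum_pos ht hn
  rw [sum_log_eq t n hx, ← log_mul h0.ne' h1.ne', leb_eq t n hx, mul_left_comm]
  refine log_le_log (by positivity) (mul_le_mul_of_nonneg_left ?_ h0.le)
  rw [wsum, Finset.mul_sum]
  refine Finset.sum_le_sum fun k _ => ?_
  have h2 : 0 < |x - t k| := abs_pos.2 (sub_ne_zero.2 (hx k))
  have h3 : |x - t k| ≤ 2 := by
    rw [abs_le]
    constructor <;> linarith [hxI.1, hxI.2, (htI k).1, (htI k).2]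
  have h4 : (2 : ℝ)⁻¹ ≤ |x - t k|⁻¹ := inv_anti₀ h2 h3
  nlinarith [abs_nonneg (nodalWeight (Finset.range n) t k)]

lemma lower_pt {t : ℕ → ℝ} (ht : Function.Injective t) {n : ℕ} (hn : 1 ≤ n) {θ : ℝ} (hθ : 0 < θ)
    {x : ℝ} (hx : ∀ k, x ≠ t k) :
    -(θ * log n + ∑ k ∈ Finset.range n,
        (|nodalWeight (Finset.range n) t k| / wsum t n + θ / n) * |x - t k| ^ (-(1 + θ)⁻¹))
      ≤ ∑ i ∈ Finset.range n, log (x - t i) + log (wsum t n) := by
  have hne : (Finset.range n).Nonempty := ⟨0, Finset.mem_range.2 hn⟩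
  have h0 : 0 < |∏ i ∈ Finset.range n, (x - t i)| :=
    abs_pos.2 (Finset.prod_ne_zero_iff.2 fun i _ => sub_ne_zero.2 (hx i))
  have h1 := wsum_pos ht hn
  have hn0 : (0 : ℝ) < n := by exact_mod_cast hn
  have hu : ∀ k, 0 < |x - t k| := fun k => abs_pos.2 (sub_ne_zero.2 (hx k))
  set y : ℕ → ℝ := fun k => |x - t k| ^ (-(1 + θ)⁻¹) with hy
  have hy0 : ∀ k, 0 < y k := fun k => rpow_pos_of_pos (hu k) _
  set R := ∑ k ∈ Finset.range n, y k with hR
  set S := ∑ k ∈ Finset.range n, |nodalWeight (Finset.range n) t k| / wsum t n * y k with hS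
  have hR0 : 0 < R := Finset.sum_pos (fun k _ => hy0 k) hne
  have hS0 : 0 < S := Finset.sum_pos (fun k hk => mul_pos
    (div_pos (abs_pos.2 (nodalWeight_ne_zero ht.injOn hk)) h1) (hy0 k)) hne
  have h2 : ∀ k ∈ Finset.range n, |x - t k|⁻¹ ≤ y k * R ^ θ := by
    intro k hk
    have a1 : |x - t k|⁻¹ = y k * y k ^ θ := by
      rw [← rpow_one_add' (hy0 k).le (by positivity), hy]
      simp only
      rw [← rpow_mul (hu k).le, neg_mul, inv_mul_cancel₀ (by positivity), rpow_neg_one]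
    rw [a1]
    exact mul_le_mul_of_nonneg_left (rpow_le_rpow (hy0 k).le
      (Finset.single_le_sum (fun k _ => (hy0 k).le) hk) hθ.le) (hy0 k).le
  have h3 : 1 ≤ |∏ i ∈ Finset.range n, (x - t i)| * (wsum t n * (S * R ^ θ)) := by
    refine (one_le_leb ht hn x).trans ?_
    rw [leb_eq t n hx]
    refine mul_le_mul_of_nonneg_left ?_ h0.le
    rw [hS, Finset.sum_mul, Finset.mul_sum]
    refine Finset.sum_le_sum fun k hk => ?_
    refine (mul_le_mul_of_nonneg_left (h2 k hk) (abs_nonneg _)).trans (le_of_eq ?_)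
    field_simp
  have hRθ : 0 < R ^ θ := rpow_pos_of_pos hR0 _
  have h4 := log_nonneg h3
  rw [log_mul h0.ne' (by positivity), log_mul h1.ne' (by positivity), log_mul hS0.ne' hRθ.ne',
    log_rpow hR0, ← sum_log_eq t n hx] at h4
  have h5 := log_le_sub_one_of_pos hS0
  have h6 := log_le_sub_one_of_pos (div_pos hR0 hn0)
  rw [log_div hR0.ne' hn0.ne'] at h6
  have h7 : ∑ k ∈ Finset.range n, (|nodalWeight (Finset.range n) t k| / wsum t n + θ / n) * y k
      = S + θ * (R / n) := by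
    rw [hS, hR, Finset.sum_div, Finset.mul_sum, ← Finset.sum_add_distrib]
    exact Finset.sum_congr rfl fun k _ => by ring
  have h8 := mul_le_mul_of_nonneg_left h6 hθ.le
  change -(θ * log n + ∑ k ∈ Finset.range n,
    (|nodalWeight (Finset.range n) t k| / wsum t n + θ / n) * y k) ≤ _
  rw [h7]
  nlinarith

lemma exists_rpow_bound {p : ℝ} (hp : -1 < p) : ∃ C : ℝ, 0 ≤ C ∧ ∀ E : Set ℝ, MeasurableSet E →
    E ⊆ Icc (-1 : ℝ) 1 → ∀ b ∈ Icc (-1 : ℝ) 1,
      Integrable (fun x => |x - b| ^ p) (volume.restrict E) ∧ ∫ x in E, |x - b| ^ p ≤ C := by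
  have h1 : IntervalIntegrable (fun u : ℝ => |u| ^ p) volume 0 2 := by
    refine (intervalIntegral.intervalIntegrable_rpow' (a := 0) (b := 2) hp).congr fun u hu => ?_
    rw [uIoc_of_le (by norm_num)] at hu
    simp only [abs_of_pos hu.1]
  have h2 : IntervalIntegrable (fun u : ℝ => |u| ^ p) volume (-2) 0 := by
    have := (IntervalIntegrable.iff_comp_neg (f := fun u : ℝ => |u| ^ p)).1 h1
    simpa using this.symm
  have h3 := (intervalIntegrable_iff_integrableOn_Icc_of_le (by norm_num)).1 (h2.trans h1)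
  set f := (Icc (-2 : ℝ) 2).indicator fun u : ℝ => |u| ^ p with hf
  have h4 : Integrable f := h3.integrable_indicator measurableSet_Icc
  have h5 : ∀ u, 0 ≤ f u := fun u => indicator_nonneg (fun _ _ => by positivity) u
  refine ⟨∫ u, f u, integral_nonneg h5, fun E hE hEI b hb => ?_⟩
  have h6 : EqOn (fun x => f (x - b)) (fun x => |x - b| ^ p) E := fun x hx =>
    indicator_of_mem (show x - b ∈ Icc (-2 : ℝ) 2 from
      ⟨by linarith [(hEI hx).1, hb.2], by linarith [(hEI hx).2, hb.1]⟩) _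
  have h7 := h4.comp_sub_right b
  refine ⟨h7.integrableOn.congr_fun h6 hE, ?_⟩
  rw [← setIntegral_congr_fun hE h6, ← integral_sub_right_eq_self f b]
  exact setIntegral_le_integral h7 (Eventually.of_forall fun x => h5 _)

lemma volume_le_two {E : Set ℝ} (hEI : E ⊆ Icc (-1 : ℝ) 1) : volume.real E ≤ 2 := by
  refine (measureReal_mono hEI isCompact_Icc.measure_lt_top.ne).trans ?_
  rw [Real.volume_real_Icc_of_le (by norm_num)]
  norm_num

lemma ae_not_node (t : ℕ → ℝ) (E : Set ℝ) : ∀ᵐ x ∂volume.restrict E, ∀ k, x ≠ t k := by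
  filter_upwards [ae_restrict_of_ae ((countable_range t).ae_notMem volume)] with x hx k h
  exact hx ⟨k, h.symm⟩

lemma lower {θ : ℝ} (hθ : 0 < θ) : ∃ C : ℝ, ∀ E : Set ℝ, IsCompact E → E ⊆ Icc (-1 : ℝ) 1 →
    ∀ t : ℕ → ℝ, Function.Injective t → (∀ i, t i ∈ Icc (-1 : ℝ) 1) → ∀ n : ℕ, 1 ≤ n →
      -(2 * θ * log n + C) ≤ ∫ x in E, vv t (fun n => log (wsum t n)) n x := by
  obtain ⟨C, hC0, hC⟩ := exists_rpow_bound (p := -(1 + θ)⁻¹)
    (neg_lt_neg (inv_lt_one_of_one_lt₀ (by linarith)))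
  refine ⟨(1 + θ) * C, fun E hE hEI t ht htI n hn => ?_⟩
  have hC' := fun k => hC E hE.measurableSet hEI _ (htI k)
  have h1 := wsum_pos ht hn
  have hn0 : (0 : ℝ) < n := by exact_mod_cast hn
  have hlog : 0 ≤ log n := log_natCast_nonneg n
  have i0 : Integrable (fun _ : ℝ => θ * log n) (volume.restrict E) :=
    integrableOn_const hE.measure_lt_top.ne
  have i1 : ∀ k ∈ Finset.range n, Integrable (fun x =>
      (|nodalWeight (Finset.range n) t k| / wsum t n + θ / n) * |x - t k| ^ (-(1 + θ)⁻¹))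
      (volume.restrict E) := fun k _ => (hC' k).1.const_mul _
  have i2 := integrable_finsetSum _ i1
  have i3 : Integrable (fun x => -(θ * log n + ∑ k ∈ Finset.range n,
      (|nodalWeight (Finset.range n) t k| / wsum t n + θ / n) * |x - t k| ^ (-(1 + θ)⁻¹)))
      (volume.restrict E) := (i0.add i2).neg
  refine le_trans ?_ (integral_mono_ae i3 (integrable_vv hE hEI t _ n) ?_)
  · rw [integral_neg, integral_add i0 i2, integral_finsetSum _ i1, setIntegral_const,
      smul_eq_mul, neg_le_neg_iff]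
    have a1 : ∑ k ∈ Finset.range n, ∫ x in E,
        (|nodalWeight (Finset.range n) t k| / wsum t n + θ / n) * |x - t k| ^ (-(1 + θ)⁻¹)
        ≤ ∑ k ∈ Finset.range n, (|nodalWeight (Finset.range n) t k| / wsum t n + θ / n) * C := by
      refine Finset.sum_le_sum fun k _ => ?_
      rw [integral_const_mul]
      exact mul_le_mul_of_nonneg_left (hC' k).2 (by positivity)
    have a2 : ∑ k ∈ Finset.range n, (|nodalWeight (Finset.range n) t k| / wsum t n + θ / n)
        = 1 + θ := by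
      rw [Finset.sum_add_distrib, ← Finset.sum_div, Finset.sum_const, Finset.card_range,
        nsmul_eq_mul]
      change wsum t n / wsum t n + _ = _
      field_simp
    rw [← Finset.sum_mul, a2] at a1
    have a3 := mul_le_mul_of_nonneg_right (volume_le_two hEI) (by positivity : 0 ≤ θ * log n)
    linarith
  · filter_upwards [ae_not_node t E] with x hx
    exact lower_pt ht hn hθ hx

theorem small_set {e0 : ℝ} (he0 : 0 < e0) : ∃ c : ℝ, 0 < c ∧ ∀ t : ℕ → ℝ, Function.Injective t →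
    (∀ i, t i ∈ Icc (-1 : ℝ) 1) → ∀ N : ℕ,
      volume.real {x ∈ Icc (-1 : ℝ) 1 | ∀ n, N ≤ n → leb t n x ≤ (n : ℝ) ^ c} < e0 := by
  set g := e0 ^ 3 / 20971520 with hg
  have hg0 : 0 < g := by positivity
  refine ⟨g / 24, by positivity, fun t ht htI N => ?_⟩
  set c := g / 24 with hc
  have hc0 : 0 < c := by positivity
  set E := {x ∈ Icc (-1 : ℝ) 1 | ∀ n, N ≤ n → leb t n x ≤ (n : ℝ) ^ c} with hEdef
  have hEI : E ⊆ Icc (-1 : ℝ) 1 := fun x hx => hx.1
  have hE : IsCompact E := by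
    refine isCompact_Icc.inter_right (t := {x | ∀ n, N ≤ n → leb t n x ≤ (n : ℝ) ^ c}) ?_
    simp only [Set.ofPred_forall]
    refine isClosed_iInter fun n => isClosed_iInter fun _ => isClosed_le ?_ continuous_const
    exact continuous_finsetSum _ fun k _ => (Polynomial.continuous _).abs
  by_contra hne
  have he : e0 ≤ volume.real E := not_lt.1 hne
  have hEf : volume E ≠ ⊤ := hE.measure_lt_top.ne
  have : IsFiniteMeasure (volume.restrict E) := isFiniteMeasure_restrict.2 hEf
  obtain ⟨C, hC⟩ := lower hc0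
  have t1 : Tendsto (fun r => volume.real (Metric.cthickening r E)) (𝓝 0) (𝓝 (volume.real E)) :=
    (ENNReal.tendsto_toReal hEf).comp (tendsto_measure_cthickening_of_isCompact hE)
  have t2 : Tendsto (fun a : ℕ => e0 / 8 / (8 : ℝ) ^ a) atTop (𝓝 0) :=
    tendsto_const_nhds.div_atTop (tendsto_pow_atTop_atTop_of_one_lt (by norm_num))
  obtain ⟨a0, ha0⟩ := eventually_atTop.1 ((t1.comp t2).eventually
    (ge_mem_nhds (show volume.real E < volume.real E + e0 / 28 by linarith)))
  set γ : ℕ → ℝ := fun n => log (wsum t n) - log (2 * (n : ℝ) ^ c) with hγ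
  obtain ⟨b, hb1, hb2⟩ := ((tendsto_natCast_atTop_atTop (R := ℝ).eventually_gt_atTop
    ((2 * (C + 2) + g * (a0 + 1)) / g)).and (eventually_ge_atTop (N + 1))).exists
  have hs : N + 1 ≤ 8 ^ (a0 + b) :=
    hb2.trans ((Nat.le_add_left b a0).trans (Nat.lt_pow_self (by norm_num)).le)
  have hd := descent hE hEI he0 he t γ htI (N + 1) a0 (fun n hn => ?_)
    (fun a ha => sub_le_iff_le_add'.2 (ha0 a ha)) b (fun _ => 1)
    ⟨measurable_const, fun _ => zero_le_one, ⟨1, fun _ => le_rfl⟩, fun k => by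
      rw [setIntegral_const, smul_eq_mul, mul_one]⟩ 1 _ hs
  · set T := 8 ^ (a0 + b) with hT
    rw [one_mul, ← hg] at hd
    have hl2 : log 2 ≤ 1 := by linarith [log_le_sub_one_of_pos (show (0 : ℝ) < 2 by norm_num)]
    have h1 : ∀ n ∈ Finset.range T, -(4 * c * (3 * (a0 + b) + 1) + C + 2)
        ≤ ∫ x in E, 1 * vv t γ (T + n) x := by
      intro n hn
      have hn1 : 1 ≤ T + n := by omega
      have hn0 : (0 : ℝ) < (T + n : ℕ) := by exact_mod_cast hn1
      have a1 : ∀ x, 1 * vv t γ (T + n) x = vv t (fun n => log (wsum t n)) (T + n) x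
          - log (2 * ((T + n : ℕ) : ℝ) ^ c) := fun x => by
        simp only [vv, hγ]; ring
      simp only [a1]
      rw [integral_sub (integrable_vv hE hEI t _ _) (integrable_const _), setIntegral_const,
        smul_eq_mul, log_mul two_ne_zero (rpow_pos_of_pos hn0 _).ne', log_rpow hn0]
      have a2 := hC E hE hEI t ht htI _ hn1
      have a3 : log ((T + n : ℕ) : ℝ) ≤ 3 * (a0 + b) + 1 := by
        have b1 : T + n ≤ 2 ^ (3 * (a0 + b) + 1) := by
          have := Finset.mem_range.1 hn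
          rw [pow_succ, pow_mul]
          norm_num
          omega
        have b2 : ((T + n : ℕ) : ℝ) ≤ 2 ^ (3 * (a0 + b) + 1) := by exact_mod_cast b1
        refine (log_le_log hn0 b2).trans ?_
        rw [log_pow]
        push_cast
        exact mul_le_of_le_one_right (by positivity) hl2
      have a4 : 0 ≤ log ((T + n : ℕ) : ℝ) := log_natCast_nonneg _
      have a5 : 0 ≤ log 2 := log_nonneg one_le_two
      have a6 := mul_le_mul_of_nonneg_right (volume_le_two hEI)
        (by positivity : 0 ≤ log 2 + c * log ((T + n : ℕ) : ℝ))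
      have a7 := mul_le_mul_of_nonneg_left a3 hc0.le
      linarith
    have h2 := Finset.sum_le_sum h1
    rw [Finset.sum_const, Finset.card_range, nsmul_eq_mul] at h2
    have hT0 : (0 : ℝ) < T := by rw [hT]; positivity
    have h3 : T * (b * g) ≤ T * (4 * c * (3 * (a0 + b) + 1) + C + 2) := by linarith
    have h4 := le_of_mul_le_mul_left h3 hT0
    rw [div_lt_iff₀ hg0] at hb1
    rw [hc] at h4
    have h5 : (0 : ℝ) ≤ a0 := Nat.cast_nonneg _
    nlinarith
  · filter_upwards [ae_not_node t E, ae_restrict_mem hE.measurableSet] with x hx hxE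
    have a1 := upper ht htI (by omega : 1 ≤ n) hxE.1 hx
    have a2 := one_le_leb ht (by omega : 1 ≤ n) x
    have a3 : log (2 * leb t n x) ≤ log (2 * (n : ℝ) ^ c) :=
      log_le_log (by positivity) (by linarith [hxE.2 n (by omega)])
    simp only [vv, hγ]
    linarith

end Pool.Agent.Lib.MP_6083a5_an.Nested
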