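import Pool.Agent.Lib.MP_6083a5_an.ZeroInt

/-!
The Poisson kernel of the upper half plane.
-/

open Polynomial MeasureTheory Filter Topology Set Real

namespace Pool.Agent.Lib.MP_6083a5_an

/-- The Poisson kernel of the upper half plane at height `h`. -/
noncomputable def pk (h u : ℝ) : ℝ := h / (π * (u ^ 2 + h ^ 2))

lemma pk_pos {h : ℝ} (hh : 0 < h) (u : ℝ) : 0 < pk h u := by
  unfold pk; have := pi_pos; positivity

lemma pk_sub_comm (h u v : ℝ) : pk h (u - v) = pk h (v - u) := by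
  unfold pk; ring_nf

lemma continuous_pk {h : ℝ} (hh : 0 < h) : Continuous (pk h) := by
  unfold pk
  refine continuous_const.div (by fun_prop) fun u => ?_
  have := pi_pos; positivity

lemma pk_eq {h : ℝ} (hh : 0 < h) (u : ℝ) : pk h u = (π * h)⁻¹ * (1 + (u / h) ^ 2)⁻¹ := by
  unfold pk
  have := pi_pos
  field_simp
  ring

lemma integrable_pk {h : ℝ} (hh : 0 < h) : Integrable (pk h) := by
  have : pk h = fun u => (π * h)⁻¹ * (1 + (u / h) ^ 2)⁻¹ := funext (pk_eq hh)
  rw [this]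
  exact (integrable_inv_one_add_sq.comp_div hh.ne').const_mul _

lemma integral_pk {h : ℝ} (hh : 0 < h) : ∫ u, pk h u = 1 := by
  have : pk h = fun u => (π * h)⁻¹ * (1 + (u / h) ^ 2)⁻¹ := funext (pk_eq hh)
  rw [this, integral_const_mul,
    Measure.integral_comp_div (fun x : ℝ => (1 + x ^ 2)⁻¹) h, integral_univ_inv_one_add_sq,
    abs_of_pos hh, smul_eq_mul]
  have := pi_pos
  field_simp

lemma integrable_pk_sub {h : ℝ} (hh : 0 < h) (ξ : ℝ) : Integrable fun y => pk h (ξ - y) :=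
  (integrable_pk hh).comp_sub_left ξ

lemma integral_pk_sub {h : ℝ} (hh : 0 < h) (ξ : ℝ) : ∫ y, pk h (ξ - y) = 1 := by
  rw [integral_sub_left_eq_self (pk h) volume ξ, integral_pk hh]

lemma pk_complex (η ξ y : ℝ) :
    (pk η (ξ - y) : ℂ) = (η / π : ℂ) /
      (((y : ℂ) - (ξ + η * Complex.I)) * ((y : ℂ) - (ξ - η * Complex.I))) := by
  have h1 : ((y : ℂ) - (ξ + η * Complex.I)) * ((y : ℂ) - (ξ - η * Complex.I))
      = (((ξ - y) ^ 2 + η ^ 2 : ℝ) : ℂ) := by
    push_cast
    linear_combination (-(η : ℂ) ^ 2) * Complex.I_mul_I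
  rw [h1]
  unfold pk
  push_cast
  rw [div_div]

/-- The Poisson integral reproduces a rational function with no pole in the closed upper
half plane that is bounded at infinity. -/
lemma poisson_reproduce (N D : ℂ[X]) (hD : ∀ z : ℂ, 0 ≤ z.im → D.eval z ≠ 0)
    (hdeg : N.natDegree ≤ D.natDegree) (ξ η : ℝ) (hη : 0 < η) :
    Integrable (fun y : ℝ => (pk η (ξ - y) : ℂ) * (N.eval (y : ℂ) / D.eval (y : ℂ))) ∧
    ∫ y : ℝ, (pk η (ξ - y) : ℂ) * (N.eval (y : ℂ) / D.eval (y : ℂ))
      = N.eval (ξ + η * Complex.I) / D.eval (ξ + η * Complex.I) := by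
  set z0 : ℂ := ξ + η * Complex.I with hz0
  have hz0im : z0.im = η := by simp [hz0]
  have hDz0 : D.eval z0 ≠ 0 := hD z0 (by rw [hz0im]; exact hη.le)
  set c := N.eval z0 / D.eval z0 with hc
  have hroot : (N - C c * D).IsRoot z0 := by
    simp only [IsRoot.def, eval_sub, eval_mul, eval_C, hc]
    field_simp
    ring
  obtain ⟨N', hN'⟩ := dvd_iff_isRoot.mpr hroot
  have hD0 : D ≠ 0 := fun h => hDz0 (by simp [h])
  set D' : ℂ[X] := D * (X - C (ξ - η * Complex.I : ℂ)) with hD'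
  have hD'ne : ∀ z : ℂ, 0 ≤ z.im → D'.eval z ≠ 0 := by
    intro z hz
    simp only [hD', eval_mul, eval_sub, eval_X, eval_C]
    refine mul_ne_zero (hD z hz) fun h => ?_
    have := congrArg Complex.im h
    simp at this
    linarith
  have hdeg' : N' ≠ 0 → N'.natDegree + 2 ≤ D'.natDegree := by
    intro h0
    have e1 : D'.natDegree = D.natDegree + 1 := by
      rw [hD', natDegree_mul hD0 (X_sub_C_ne_zero _), natDegree_X_sub_C]
    have e2 : (N - C c * D).natDegree ≤ D.natDegree :=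
      (natDegree_sub_le _ _).trans (max_le hdeg (natDegree_C_mul_le _ _))
    rw [hN', natDegree_mul (X_sub_C_ne_zero _) h0, natDegree_X_sub_C] at e2
    omega
  have hi := rat_integrable N' D' hD'ne hdeg'
  have hz := rat_integral_eq_zero N' D' hD'ne hdeg'
  have hfun : (fun y : ℝ => (pk η (ξ - y) : ℂ) * (N.eval (y : ℂ) / D.eval (y : ℂ)))
      = fun y : ℝ => (η / π : ℂ) * (N'.eval (y : ℂ) / D'.eval (y : ℂ))
        + c * (pk η (ξ - y) : ℂ) := by
    funext y
    have hDy : D.eval (y : ℂ) ≠ 0 := hD y (by simp)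
    have h1 : (y : ℂ) - z0 ≠ 0 := by
      intro h
      have := congrArg Complex.im h
      simp [hz0im] at this
      linarith
    have h2 : (y : ℂ) - (ξ - η * Complex.I) ≠ 0 := by
      intro h
      have := congrArg Complex.im h
      simp at this
      linarith
    have h3 := congrArg (eval (y : ℂ)) hN'
    simp only [eval_sub, eval_mul, eval_C, eval_X] at h3
    have h4 : N.eval (y : ℂ) = c * D.eval (y : ℂ) + (y - z0) * N'.eval (y : ℂ) := by
      linear_combination h3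
    rw [pk_complex η ξ y, h4]
    simp only [hD', eval_mul, eval_sub, eval_X, eval_C, ← hz0]
    field_simp
    ring
  have hp : Integrable fun y : ℝ => (pk η (ξ - y) : ℂ) := (integrable_pk_sub hη ξ).ofReal
  rw [hfun]
  refine ⟨(hi.const_mul _).add (hp.const_mul _), ?_⟩
  rw [integral_add (hi.const_mul _) (hp.const_mul _), integral_const_mul, integral_const_mul, hz,
    integral_complex_ofReal, integral_pk_sub hη]
  simp

lemma pk_eq_im (η u : ℝ) :
    pk η u = -(π⁻¹ * (1 / ((u : ℂ) + η * Complex.I)).im) := by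
  unfold pk
  rw [one_div, Complex.inv_im, Complex.normSq_apply]
  simp only [Complex.add_im, Complex.ofReal_im, Complex.mul_im, Complex.ofReal_re, Complex.I_im,
    mul_one, Complex.I_re, mul_zero, add_zero, zero_add, Complex.add_re, Complex.mul_re, sub_self]
  rw [neg_div, mul_neg, neg_neg, div_mul_eq_div_div_swap, div_eq_inv_mul]
  ring

lemma pk_semigroup {h η : ℝ} (hh : 0 < h) (hη : 0 < η) (ξ t : ℝ) :
    Integrable (fun y => pk h (ξ - y) * pk η (y - t)) ∧
    ∫ y, pk h (ξ - y) * pk η (y - t) = pk (h + η) (ξ - t) := by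
  obtain ⟨h1, h2⟩ := poisson_reproduce 1 (X - C (t - η * Complex.I : ℂ)) (by
    intro z hz h
    have := congrArg Complex.im h
    simp at this
    linarith) (by simp) ξ h hh
  have hfun : (fun y => pk h (ξ - y) * pk η (y - t)) = fun y : ℝ => -(π⁻¹ *
      ((pk h (ξ - y) : ℂ) * ((1 : ℂ[X]).eval (y : ℂ) /
        (X - C (t - η * Complex.I : ℂ)).eval (y : ℂ))).im) := by
    funext y
    rw [pk_eq_im η (y - t), Complex.im_ofReal_mul]
    have : (X - C (t - η * Complex.I : ℂ)).eval (y : ℂ) = ((y - t : ℝ) : ℂ) + η * Complex.I := by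
      simp; ring
    rw [this, eval_one]
    ring
  rw [hfun]
  refine ⟨(h1.im.const_mul _).neg, ?_⟩
  have h3 := integral_im h1
  simp only [RCLike.im_to_complex] at h3
  rw [integral_neg, integral_const_mul, h3, h2, pk_eq_im (h + η) (ξ - t)]
  have : (X - C (t - η * Complex.I : ℂ)).eval ((ξ : ℂ) + h * Complex.I)
      = ((ξ - t : ℝ) : ℂ) + ((h + η : ℝ) : ℂ) * Complex.I := by
    simp; ring
  rw [this, eval_one]

lemma pk_harnack {h δ u v : ℝ} (hh : 0 < h) (hδ : 0 ≤ δ) (hv : |v - u| ≤ δ * h) :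
    (1 - δ) * pk h u ≤ pk h v := by
  by_cases hδ1 : 1 ≤ δ
  · have := pk_pos hh u
    have := pk_pos hh v
    nlinarith
  push Not at hδ1
  unfold pk
  have hp := pi_pos
  rw [← mul_div_assoc, div_le_div_iff₀ (by positivity) (by positivity)]
  have key : (1 - δ) * (v ^ 2 + h ^ 2) ≤ u ^ 2 + h ^ 2 := by
    obtain ⟨w, rfl⟩ : ∃ w, v = u + w := ⟨v - u, by ring⟩
    rw [add_sub_cancel_left] at hv
    have h1 : w ^ 2 ≤ (δ * h) ^ 2 := by
      rw [← sq_abs w]; gcongr
    have h2 : 2 * u * w ≤ δ * (u ^ 2 + h ^ 2) := by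
      have a1 : u * w ≤ |u| * (δ * h) := by
        calc u * w ≤ |u * w| := le_abs_self _
          _ = |u| * |w| := abs_mul _ _
          _ ≤ |u| * (δ * h) := by gcongr
      have a2 : 2 * |u| * h ≤ u ^ 2 + h ^ 2 := by
        rw [← sq_abs u]; nlinarith [sq_nonneg (|u| - h)]
      nlinarith
    have h3 : (u + w) ^ 2 + h ^ 2 ≤ (1 + δ + δ ^ 2) * (u ^ 2 + h ^ 2) := by
      nlinarith [mul_nonneg (sq_nonneg δ) (sq_nonneg u)]
    have h4 : (1 - δ) * ((u + w) ^ 2 + h ^ 2) ≤ (1 - δ) * ((1 + δ + δ ^ 2) * (u ^ 2 + h ^ 2)) := by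
      gcongr
    have h5 : 0 ≤ δ ^ 3 * (u ^ 2 + h ^ 2) := by positivity
    nlinarith
  calc (1 - δ) * h * (π * (v ^ 2 + h ^ 2)) = h * π * ((1 - δ) * (v ^ 2 + h ^ 2)) := by ring
    _ ≤ h * π * (u ^ 2 + h ^ 2) := by gcongr
    _ = h * (π * (u ^ 2 + h ^ 2)) := by ring

lemma arctan_step {a b : ℝ} (ha : 0 ≤ a) (hab : a ≤ b) :
    (b - a) / (1 + b ^ 2) ≤ arctan b - arctan a := by
  rw [← integral_inv_one_add_sq]
  have h1 : (b - a) / (1 + b ^ 2) = ∫ _ in a..b, (1 + b ^ 2)⁻¹ := by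
    simp [div_eq_mul_inv]
  rw [h1]
  refine intervalIntegral.integral_mono_on hab (by simp)
    (integrable_inv_one_add_sq.intervalIntegrable) fun x hx => ?_
  have : x ^ 2 ≤ b ^ 2 := by
    have := hx.1
    have := hx.2
    gcongr
    linarith
  gcongr

lemma pk_sum_le {D u : ℝ} (hD : 0 < D) (hu : u ≠ 0) (m : ℕ) :
    ∑ j ∈ Finset.range m, pk ((j + 1) * D) u / (j + 1) ≤ 1 / (2 * |u|) := by
  have hu' : 0 < |u| := abs_pos.mpr hu
  have hp := pi_pos
  have key : ∑ j ∈ Finset.range m, pk ((j + 1) * D) u / (j + 1)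
      ≤ arctan (m * D / |u|) / (π * |u|) := by
    induction m with
    | zero => simp
    | succ m ih =>
      rw [Finset.sum_range_succ]
      have h1 := arctan_step (a := m * D / |u|) (b := (m + 1) * D / |u|) (by positivity)
        (by gcongr; linarith)
      have h2 : pk ((m + 1) * D) u / (m + 1) =
          ((m + 1) * D / |u| - m * D / |u|) / (1 + ((m + 1) * D / |u|) ^ 2) / (π * |u|) := by
        unfold pk
        rw [← sq_abs u]
        field_simp
        ring
      rw [h2]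
      push_cast
      calc _ ≤ arctan (m * D / |u|) / (π * |u|)
            + (arctan ((m + 1) * D / |u|) - arctan (m * D / |u|)) / (π * |u|) := by gcongr
        _ = _ := by ring
  refine key.trans ?_
  have := (arctan_lt_pi_div_two (m * D / |u|)).le
  calc _ ≤ (π / 2) / (π * |u|) := by gcongr
    _ = _ := by field_simp

lemma pk_tail {h r u : ℝ} (hh : 0 < h) (hr : 0 < r) (hu : r ≤ |u|) :
    pk h u ≤ 2 * h / r * pk r u := by
  unfold pk
  have hp := pi_pos
  have h1 : r ^ 2 ≤ u ^ 2 := by rw [← sq_abs u]; gcongr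
  have h2 : 2 * h / r * (r / (π * (u ^ 2 + r ^ 2))) = 2 * h / (π * (u ^ 2 + r ^ 2)) := by
    field_simp
  rw [h2, div_le_div_iff₀ (by positivity) (by positivity)]
  have : u ^ 2 + r ^ 2 ≤ 2 * (u ^ 2 + h ^ 2) := by nlinarith [sq_nonneg h]
  calc h * (π * (u ^ 2 + r ^ 2)) ≤ h * (π * (2 * (u ^ 2 + h ^ 2))) := by gcongr
    _ = _ := by ring

end Pool.Agent.Lib.MP_6083a5_an
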