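import Pool.Agent.Lib.MP_6083a5_an.Poisson

/-!
A residue formula with real simple poles, and the Herglotz property of the quotient of the two
node polynomials given by the sign of the nodal weight.
-/

open Polynomial MeasureTheory Filter Topology Set Real Lagrange

namespace Pool.Agent.Lib.MP_6083a5_an

variable {ι : Type*} [DecidableEq ι]

omit [DecidableEq ι] in
lemma eval_nodal_real (S : Finset ι) (t : ι → ℝ) (y : ℝ) :
    (nodal S (fun k => (t k : ℂ))).eval (y : ℂ) = ((∏ k ∈ S, (y - t k) : ℝ) : ℂ) := by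
  rw [eval_nodal]; push_cast; rfl

lemma nodalWeight_real (S : Finset ι) (t : ι → ℝ) (k : ι) :
    nodalWeight S (fun k => (t k : ℂ)) k = ((nodalWeight S t k : ℝ) : ℂ) := by
  unfold nodalWeight; push_cast; rfl

omit [DecidableEq ι] in
lemma eval_nodal_ne_zero_of_im (S : Finset ι) (t : ι → ℝ) {z : ℂ} (hz : 0 < z.im) :
    (nodal S (fun k => (t k : ℂ))).eval z ≠ 0 := by
  apply eval_nodal_not_at_node
  intro k _ h
  rw [h] at hz
  simp at hz

lemma residue_real [Fintype ι] (t : ι → ℝ) (ht : Function.Injective t) (N D : ℂ[X])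
    (hD : ∀ z : ℂ, 0 ≤ z.im → D.eval z ≠ 0)
    (hdeg : N.natDegree + 2 ≤ Fintype.card ι + D.natDegree) (hn : 1 ≤ Fintype.card ι)
    (c : ι → ℝ)
    (hc : ∀ k, N.eval (t k : ℂ) * (nodalWeight Finset.univ t k : ℝ) / D.eval (t k : ℂ) = c k) :
    Integrable (fun y : ℝ => (N.eval (y : ℂ) /
      (((∏ k, (y - t k) : ℝ) : ℂ) * D.eval (y : ℂ))).im) ∧
    ∫ y : ℝ, (N.eval (y : ℂ) / (((∏ k, (y - t k) : ℝ) : ℂ) * D.eval (y : ℂ))).im
      = π * ∑ k, c k := by
  set v : ι → ℂ := fun k => (t k : ℂ) with hv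
  have hvinj : Function.Injective v := fun a b h => ht (Complex.ofReal_injective h)
  set V : ℂ[X] := ∑ k, C ((c k : ℂ) * (v k + Complex.I)) * nodal (Finset.univ.erase k) v with hV
  have hVdeg : V.natDegree + 1 ≤ Fintype.card ι := by
    have : V.natDegree ≤ Fintype.card ι - 1 := by
      refine natDegree_sum_le_of_forall_le _ _ fun k _ => ?_
      refine (natDegree_C_mul_le _ _).trans ?_
      rw [natDegree_nodal, Finset.card_erase_of_mem (Finset.mem_univ k), Finset.card_univ]
    omega
  have hD0 : D ≠ 0 := fun h => hD 0 (by simp) (by simp [h])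
  set P0 : ℂ[X] := N * (X + C Complex.I) - D * V with hP0
  have hroot : ∀ k, P0.IsRoot (v k) := by
    intro k
    have e1 : V.eval (v k) = (c k : ℂ) * (v k + Complex.I)
        * (nodal (Finset.univ.erase k) v).eval (v k) := by
      rw [hV, eval_finsetSum, Finset.sum_eq_single k]
      · simp only [eval_mul, eval_C]
      · intro j _ hj
        rw [eval_mul, eval_nodal_at_node (by simp [Ne.symm hj]), mul_zero]
      · simp
    have e2 := nodalWeight_eq_eval_nodal_erase_inv (s := Finset.univ) (v := v) (i := k)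
    have e3 : nodalWeight Finset.univ v k ≠ 0 :=
      nodalWeight_ne_zero hvinj.injOn (Finset.mem_univ k)
    have e4 : (nodal (Finset.univ.erase k) v).eval (v k) ≠ 0 := by
      intro h; rw [h] at e2; exact e3 (by simpa using e2)
    have e5 := hc k
    rw [← nodalWeight_real, e2] at e5
    have e6 : D.eval (v k) ≠ 0 := hD _ (by simp [hv])
    simp only [IsRoot.def, hP0, eval_sub, eval_mul, eval_add, eval_X, eval_C, e1, ← e5]
    change _ - _ * (eval (v k) N * _ / eval (v k) D * _ * _) = 0
    field_simp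
    ring
  have hdvd : nodal Finset.univ v ∣ P0 := by
    rw [nodal_eq]
    refine Finset.prod_dvd_of_coprime ?_ fun k _ => dvd_iff_isRoot.mpr (hroot k)
    exact (pairwise_coprime_X_sub_C hvinj).set_pairwise _
  obtain ⟨Num, hNum⟩ := hdvd
  set D' : ℂ[X] := D * (X + C Complex.I) with hD'
  have hXi : (X + C Complex.I : ℂ[X]) ≠ 0 := X_add_C_ne_zero _
  have hD'ne : ∀ z : ℂ, 0 ≤ z.im → D'.eval z ≠ 0 := by
    intro z hz
    simp only [hD', eval_mul, eval_add, eval_X, eval_C]
    refine mul_ne_zero (hD z hz) fun h => ?_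
    have := congrArg Complex.im h
    simp at this
    linarith
  have hdeg' : Num ≠ 0 → Num.natDegree + 2 ≤ D'.natDegree := by
    intro h0
    have e1 : D'.natDegree = D.natDegree + 1 := by
      rw [hD', natDegree_mul hD0 hXi, natDegree_X_add_C]
    have e2 : P0.natDegree + 1 ≤ Fintype.card ι + D.natDegree := by
      have a1 : (N * (X + C Complex.I)).natDegree ≤ N.natDegree + 1 := by
        refine natDegree_mul_le.trans ?_
        rw [natDegree_X_add_C]
      have a2 : (D * V).natDegree ≤ D.natDegree + V.natDegree := natDegree_mul_le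
      have a3 := natDegree_sub_le (N * (X + C Complex.I)) (D * V)
      rw [← hP0] at a3
      rcases le_max_iff.mp a3 with h | h <;> omega
    rw [hNum, natDegree_mul nodal_ne_zero h0, natDegree_nodal, Finset.card_univ] at e2
    omega
  have hi := rat_integrable Num D' hD'ne hdeg'
  have hz := rat_integral_eq_zero Num D' hD'ne hdeg'
  have hae : (fun y : ℝ => (N.eval (y : ℂ) /
      (((∏ k, (y - t k) : ℝ) : ℂ) * D.eval (y : ℂ))).im) =ᵐ[volume]
      fun y : ℝ => (Num.eval (y : ℂ) / D'.eval (y : ℂ)).im + (∑ k, c k) * (1 + y ^ 2)⁻¹ := by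
    have hfin : (Set.range t).Finite := Set.finite_range t
    filter_upwards [hfin.countable.ae_notMem volume] with y hy
    have hyk : ∀ k, y - t k ≠ 0 := fun k h => hy ⟨k, by linarith⟩
    have hykc : ∀ k, (y : ℂ) - v k ≠ 0 := fun k h => hyk k (by
      have : ((y - t k : ℝ) : ℂ) = 0 := by push_cast; exact h
      exact_mod_cast this)
    have hω : (nodal Finset.univ v).eval (y : ℂ) ≠ 0 :=
      eval_nodal_not_at_node fun k _ h => hykc k (sub_eq_zero.mpr h)
    have hDy : D.eval (y : ℂ) ≠ 0 := hD _ (by simp)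
    have hyi : (y : ℂ) + Complex.I ≠ 0 := fun h => by
      have := congrArg Complex.im h
      simp at this
    have e1 : V.eval (y : ℂ) = (nodal Finset.univ v).eval (y : ℂ) * ((y : ℂ) + Complex.I) *
        ∑ k, (c k : ℂ) * (((y : ℂ) - v k)⁻¹ - ((y : ℂ) + Complex.I)⁻¹) := by
      rw [hV, eval_finsetSum, Finset.mul_sum]
      refine Finset.sum_congr rfl fun k _ => ?_
      rw [nodal_eq_mul_nodal_erase (Finset.mem_univ k)]
      simp only [eval_mul, eval_C, eval_sub, eval_X]
      have := hykc k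
      field_simp
      ring
    have e2 := congrArg (eval (y : ℂ)) hNum
    simp only [hP0, eval_sub, eval_mul, eval_add, eval_X, eval_C] at e2
    have e3 : N.eval (y : ℂ) / ((nodal Finset.univ v).eval (y : ℂ) * D.eval (y : ℂ))
        = Num.eval (y : ℂ) / D'.eval (y : ℂ)
          + ∑ k, (c k : ℂ) * (((y : ℂ) - v k)⁻¹ - ((y : ℂ) + Complex.I)⁻¹) := by
      rw [e1] at e2
      simp only [hD', eval_mul, eval_add, eval_X, eval_C]
      generalize (∑ k, (c k : ℂ) * (((y : ℂ) - v k)⁻¹ - ((y : ℂ) + Complex.I)⁻¹)) = σ at e2 ⊢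
      field_simp
      linear_combination e2
    rw [← eval_nodal_real, e3, Complex.add_im, Complex.im_sum, Finset.sum_mul]
    congr 1
    refine Finset.sum_congr rfl fun k _ => ?_
    rw [Complex.im_ofReal_mul, Complex.sub_im]
    have a1 : (((y : ℂ) - v k)⁻¹).im = 0 := by
      have : ((y : ℂ) - v k)⁻¹ = (((y - t k)⁻¹ : ℝ) : ℂ) := by push_cast; rfl
      rw [this, Complex.ofReal_im]
    have a2 : (((y : ℂ) + Complex.I)⁻¹).im = -(1 + y ^ 2)⁻¹ := by
      rw [Complex.inv_im, Complex.normSq_apply]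
      simp only [Complex.add_im, Complex.ofReal_im, Complex.I_im, zero_add, Complex.add_re,
        Complex.ofReal_re, Complex.I_re, add_zero, mul_one]
      rw [neg_div, one_div]
      congr 2
      ring
    rw [a1, a2]
    ring
  have hi2 := integrable_inv_one_add_sq.const_mul (∑ k, c k)
  refine ⟨(hi.im.add hi2).congr hae.symm, ?_⟩
  have h3 := integral_im hi
  simp only [RCLike.im_to_complex] at h3
  have h4 : Integrable fun y : ℝ => (Num.eval (y : ℂ) / D'.eval (y : ℂ)).im := hi.im
  rw [integral_congr_ae hae, integral_add h4 hi2, h3, hz, integral_const_mul,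
    integral_univ_inv_one_add_sq]
  simp [mul_comm]

lemma im_ratio (t : ι → ℝ) (ht : Function.Injective t) (S1 S2 : Finset ι)
    (hcard : S1.card ≤ S2.card) {z : ℂ} (hz : 0 < z.im) :
    ((nodal S1 (fun k => (t k : ℂ))).eval z / (nodal S2 (fun k => (t k : ℂ))).eval z).im
      = ∑ k ∈ S2, (nodalWeight S2 t k * ∏ j ∈ S1, (t k - t j)) * ((z - t k)⁻¹).im := by
  set v : ι → ℂ := fun k => (t k : ℂ) with hv
  have hvinj : Function.Injective v := fun a b h => ht (Complex.ofReal_injective h)
  obtain ⟨ε, hε⟩ : ∃ ε : ℝ, (nodal S1 v - C (ε : ℂ) * nodal S2 v).degree < S2.card := by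
    rcases hcard.eq_or_lt with h | h
    · refine ⟨1, ?_⟩
      have := degree_sub_lt_left (p := nodal S1 v) (q := nodal S2 v)
        (by rw [degree_nodal, degree_nodal, h]) nodal_ne_zero
        (by rw [nodal_monic.leadingCoeff, nodal_monic.leadingCoeff])
      rw [degree_nodal, h] at this
      simpa using this
    · refine ⟨0, ?_⟩
      simp only [Complex.ofReal_zero, map_zero, zero_mul, sub_zero, degree_nodal]
      exact_mod_cast h
  have h1 := eq_interpolate hvinj.injOn hε
  have hzk : ∀ k ∈ S2, z ≠ v k := fun k _ h => by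
    rw [h] at hz; simp [hv] at hz
  have h2 := eval_interpolate_not_at_node
    (fun i => (nodal S1 v - C (ε : ℂ) * nodal S2 v).eval (v i)) hzk
  rw [← h1] at h2
  have h3 : (nodal S2 v).eval z ≠ 0 := eval_nodal_not_at_node hzk
  have h4 : (nodal S1 v).eval z / (nodal S2 v).eval z = ε +
      ∑ k ∈ S2, ((nodalWeight S2 t k * ∏ j ∈ S1, (t k - t j) : ℝ) : ℂ) * (z - t k)⁻¹ := by
    have : ∑ k ∈ S2, ((nodalWeight S2 t k * ∏ j ∈ S1, (t k - t j) : ℝ) : ℂ) * (z - t k)⁻¹
        = ∑ i ∈ S2, nodalWeight S2 v i * (z - v i)⁻¹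
          * (nodal S1 v - C (ε : ℂ) * nodal S2 v).eval (v i) := by
      refine Finset.sum_congr rfl fun k hk => ?_
      rw [eval_sub, eval_mul, eval_nodal_at_node hk, mul_zero, sub_zero, nodalWeight_real,
        Complex.ofReal_mul, ← eval_nodal_real]
      ring
    rw [this]
    generalize (∑ i ∈ S2, nodalWeight S2 v i * (z - v i)⁻¹
          * (nodal S1 v - C (ε : ℂ) * nodal S2 v).eval (v i)) = σ at h2 ⊢
    simp only [eval_sub, eval_mul, eval_C] at h2 ⊢
    field_simp
    linear_combination h2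
  rw [h4, Complex.add_im, Complex.ofReal_im, zero_add, Complex.im_sum]
  refine Finset.sum_congr rfl fun k _ => ?_
  rw [Complex.im_ofReal_mul]

lemma weight_split [Fintype ι] (t : ι → ℝ) (S1 S2 : Finset ι) (hd : Disjoint S1 S2)
    (hu : S1 ∪ S2 = Finset.univ) {k : ι} (hk : k ∈ S2) :
    nodalWeight Finset.univ t k = nodalWeight S2 t k * (∏ j ∈ S1, (t k - t j))⁻¹ := by
  have h1 : Finset.univ.erase k = S2.erase k ∪ S1 := by
    rw [← hu]
    ext j
    simp only [Finset.mem_erase, Finset.mem_union]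
    constructor
    · tauto
    · rintro (h | h)
      · tauto
      · refine ⟨?_, Or.inl h⟩
        rintro rfl
        exact Finset.disjoint_left.mp hd h hk
  unfold nodalWeight
  rw [h1, Finset.prod_union (Finset.disjoint_of_subset_left (Finset.erase_subset _ _) hd.symm),
    Finset.prod_inv_distrib (s := S1)]

lemma im_inv_sub_nonpos {z : ℂ} (hz : 0 < z.im) (a : ℝ) : ((z - a)⁻¹).im ≤ 0 := by
  rw [Complex.inv_im]
  simp only [Complex.sub_im, Complex.ofReal_im, sub_zero]
  exact div_nonpos_of_nonpos_of_nonneg (by linarith) (Complex.normSq_nonneg _)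

lemma herglotz [Fintype ι] (t : ι → ℝ) (ht : Function.Injective t) (A B : Finset ι)
    (hd : Disjoint A B) (hu : A ∪ B = Finset.univ)
    (hA : ∀ k ∈ A, 0 ≤ nodalWeight Finset.univ t k)
    (hB : ∀ k ∈ B, nodalWeight Finset.univ t k ≤ 0) {z : ℂ} (hz : 0 < z.im) :
    0 ≤ ((nodal A (fun k => (t k : ℂ))).eval z / (nodal B (fun k => (t k : ℂ))).eval z).im := by
  have sgn : ∀ (S1 S2 : Finset ι), Disjoint S1 S2 → S1 ∪ S2 = Finset.univ → ∀ k ∈ S2,
      nodalWeight S2 t k * ∏ j ∈ S1, (t k - t j)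
        = nodalWeight Finset.univ t k * (∏ j ∈ S1, (t k - t j)) ^ 2 := by
    intro S1 S2 h1 h2 k hk
    rw [weight_split t S1 S2 h1 h2 hk]
    by_cases h0 : ∏ j ∈ S1, (t k - t j) = 0
    · simp [h0]
    · field_simp
  rcases le_total A.card B.card with h | h
  · rw [im_ratio t ht A B h hz]
    refine Finset.sum_nonneg fun k hk => ?_
    rw [sgn A B hd hu k hk]
    exact mul_nonneg_of_nonpos_of_nonpos
      (mul_nonpos_of_nonpos_of_nonneg (hB k hk) (sq_nonneg _)) (im_inv_sub_nonpos hz _)
  · have h1 : ((nodal B (fun k => (t k : ℂ))).eval z /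
        (nodal A (fun k => (t k : ℂ))).eval z).im ≤ 0 := by
      rw [im_ratio t ht B A h hz]
      refine Finset.sum_nonpos fun k hk => ?_
      rw [sgn B A hd.symm (by rw [Finset.union_comm, hu]) k hk]
      exact mul_nonpos_of_nonneg_of_nonpos
        (mul_nonneg (hA k hk) (sq_nonneg _)) (im_inv_sub_nonpos hz _)
    rw [← inv_div, Complex.inv_im]
    exact div_nonneg (by linarith) (Complex.normSq_nonneg _)

end Pool.Agent.Lib.MP_6083a5_an
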