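import Mathlib

/-!
Integrals over the real line of rational functions with no pole in the closed upper half plane.
-/

open Polynomial MeasureTheory Filter Topology Set Complex

namespace Pool.Agent.Lib.MP_6083a5_an

lemma rat_decay (N D : ℂ[X]) (hD : ∀ z : ℂ, 0 ≤ z.im → D.eval z ≠ 0)
    (hdeg : N ≠ 0 → N.natDegree + 2 ≤ D.natDegree) :
    ∃ C : ℝ, 0 ≤ C ∧ ∀ z : ℂ, 0 ≤ z.im → ‖N.eval z / D.eval z‖ ≤ C / (1 + ‖z‖ ^ 2) := by
  by_cases hN : N = 0
  · exact ⟨0, le_rfl, fun z _ => by simp [hN]⟩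
  have hD0 : D ≠ 0 := by
    intro h
    exact hD 0 (by simp) (by simp [h])
  have hdeg' : (X ^ 2 * N).degree ≤ D.degree := by
    have h1 : (X ^ 2 * N : ℂ[X]) ≠ 0 := mul_ne_zero (pow_ne_zero _ X_ne_zero) hN
    rw [degree_eq_natDegree h1, degree_eq_natDegree hD0,
      natDegree_mul (pow_ne_zero _ X_ne_zero) hN, natDegree_X_pow]
    have := hdeg hN
    exact_mod_cast (by omega : 2 + N.natDegree ≤ D.natDegree)
  obtain ⟨C, hC0, hC⟩ := (isBigO_cobounded_of_degree_le hdeg').exists_nonneg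
  rw [Asymptotics.isBigOWith_iff] at hC
  obtain ⟨R0, -, hR0⟩ := (Metric.hasBasis_cobounded_compl_closedBall (0 : ℂ)).eventually_iff.mp hC
  set R := max R0 1 with hR
  have hK : IsCompact (Metric.closedBall (0 : ℂ) R ∩ {z : ℂ | 0 ≤ z.im}) :=
    (isCompact_closedBall _ _).inter_right (isClosed_le continuous_const Complex.continuous_im)
  have hcont : ContinuousOn (fun z : ℂ => N.eval z / D.eval z)
      (Metric.closedBall (0 : ℂ) R ∩ {z : ℂ | 0 ≤ z.im}) :=
    (N.continuous.continuousOn).div (D.continuous.continuousOn) (fun z hz => hD z hz.2)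
  obtain ⟨B, hB⟩ := hK.exists_bound_of_continuousOn hcont
  have hB0 : 0 ≤ B := (norm_nonneg _).trans (hB 0 ⟨by simp [hR], by simp⟩)
  refine ⟨2 * C + B * (1 + R ^ 2), by positivity, fun z hz => ?_⟩
  have hpos : 0 < 1 + ‖z‖ ^ 2 := by positivity
  rw [le_div_iff₀ hpos]
  by_cases hzR : ‖z‖ ≤ R
  · have h1 := hB z ⟨by simpa using hzR, hz⟩
    have h2 : ‖z‖ ^ 2 ≤ R ^ 2 := by gcongr
    have : ‖N.eval z / D.eval z‖ * (1 + ‖z‖ ^ 2) ≤ B * (1 + R ^ 2) := by gcongr
    linarith
  · push Not at hzR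
    have h1 : ‖(X ^ 2 * N).eval z‖ ≤ C * ‖D.eval z‖ := by
      apply hR0
      simp only [mem_compl_iff, Metric.mem_closedBall, dist_zero_right, not_le]
      exact lt_of_le_of_lt (le_max_left _ _) hzR
    have hz1 : 1 ≤ ‖z‖ := le_trans (le_max_right _ _) hzR.le
    have hDz : 0 < ‖D.eval z‖ := norm_pos_iff.mpr (hD z hz)
    rw [eval_mul, eval_pow, eval_X, norm_mul, norm_pow] at h1
    have h2 : ‖N.eval z / D.eval z‖ * ‖z‖ ^ 2 ≤ C := by
      rw [norm_div, div_mul_eq_mul_div, div_le_iff₀ hDz]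
      linarith
    have h3 : 1 ≤ ‖z‖ ^ 2 := one_le_pow₀ hz1
    have h4 : 0 ≤ ‖N.eval z / D.eval z‖ := norm_nonneg _
    have h5 : 0 ≤ B * (1 + R ^ 2) := by positivity
    nlinarith

lemma rat_continuous (N D : ℂ[X]) (hD : ∀ z : ℂ, 0 ≤ z.im → D.eval z ≠ 0) :
    Continuous fun y : ℝ => N.eval (y : ℂ) / D.eval (y : ℂ) :=
  (N.continuous.comp continuous_ofReal).div (D.continuous.comp continuous_ofReal)
    (fun y => hD y (by simp))

lemma rat_integrable (N D : ℂ[X]) (hD : ∀ z : ℂ, 0 ≤ z.im → D.eval z ≠ 0)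
    (hdeg : N ≠ 0 → N.natDegree + 2 ≤ D.natDegree) :
    Integrable fun y : ℝ => N.eval (y : ℂ) / D.eval (y : ℂ) := by
  obtain ⟨C, -, hC⟩ := rat_decay N D hD hdeg
  refine (integrable_inv_one_add_sq.const_mul C).mono'
    (rat_continuous N D hD).aestronglyMeasurable (Eventually.of_forall fun y => ?_)
  have := hC y (by simp)
  simpa [div_eq_mul_inv] using this

lemma rat_integral_eq_zero (N D : ℂ[X]) (hD : ∀ z : ℂ, 0 ≤ z.im → D.eval z ≠ 0)
    (hdeg : N ≠ 0 → N.natDegree + 2 ≤ D.natDegree) :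
    ∫ y : ℝ, N.eval (y : ℂ) / D.eval (y : ℂ) = 0 := by
  obtain ⟨C, hC0, hC⟩ := rat_decay N D hD hdeg
  set f : ℂ → ℂ := fun z => N.eval z / D.eval z with hf
  have hint := rat_integrable N D hD hdeg
  have hlim : Tendsto (fun X : ℝ => ∫ y in (-X)..X, f y) atTop (𝓝 (∫ y : ℝ, f y)) :=
    intervalIntegral_tendsto_integral hint tendsto_neg_atTop_atBot tendsto_id
  have hbound : ∀ X : ℝ, 0 < X → ‖∫ y in (-X)..X, f y‖ ≤ 4 * C / X := by
    intro X hX
    have hrect := integral_boundary_rect_eq_zero_of_differentiableOn f (-X) (X + X * I) (by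
      intro z hz
      have hz' : 0 ≤ z.im := by
        have := hz.2
        simp only [neg_im, ofReal_im, neg_zero, add_im, mul_im, ofReal_re, I_im, mul_one, I_re,
          mul_zero, add_zero, zero_add, mem_preimage, uIcc_of_le hX.le] at this
        exact this.1
      exact ((N.differentiableAt).div (D.differentiableAt) (hD z hz')).differentiableWithinAt)
    simp only [neg_re, ofReal_re, add_re, mul_re, I_re, mul_zero, ofReal_im, I_im, mul_one,
      sub_self, add_zero, neg_im, neg_zero, ofReal_zero, zero_mul, add_im, mul_im, zero_add,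
      ofReal_neg, smul_eq_mul] at hrect
    have key : ∀ z : ℂ, 0 ≤ z.im → X ≤ ‖z‖ → ‖f z‖ ≤ C / X ^ 2 := by
      intro z hz hzX
      refine (hC z hz).trans ?_
      have : X ^ 2 ≤ ‖z‖ ^ 2 := by gcongr
      gcongr
      linarith
    have e1 : ‖∫ x : ℝ in (-X)..X, f (x + X * I)‖ ≤ C / X ^ 2 * |X - -X| := by
      apply intervalIntegral.norm_integral_le_of_norm_le_const
      intro x _
      apply key _ (by simp [hX.le])
      have := Complex.abs_im_le_norm ((x : ℂ) + X * I)
      simpa [abs_of_pos hX] using this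
    have e2 : ‖∫ y : ℝ in (0 : ℝ)..X, f (X + y * I)‖ ≤ C / X ^ 2 * |X - 0| := by
      apply intervalIntegral.norm_integral_le_of_norm_le_const
      intro y hy
      rw [uIoc_of_le hX.le] at hy
      apply key _ (by simp [hy.1.le])
      have := Complex.abs_re_le_norm ((X : ℂ) + y * I)
      simpa [abs_of_pos hX] using this
    have e3 : ‖∫ y : ℝ in (0 : ℝ)..X, f (-X + y * I)‖ ≤ C / X ^ 2 * |X - 0| := by
      apply intervalIntegral.norm_integral_le_of_norm_le_const
      intro y hy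
      rw [uIoc_of_le hX.le] at hy
      apply key _ (by simp [hy.1.le])
      have := Complex.abs_re_le_norm (-(X : ℂ) + y * I)
      simpa [abs_of_pos hX] using this
    have e0 : (∫ y in (-X)..X, f y) = (∫ x : ℝ in (-X)..X, f (x + X * I))
        - I * (∫ y : ℝ in (0 : ℝ)..X, f (X + y * I))
        + I * (∫ y : ℝ in (0 : ℝ)..X, f (-X + y * I)) := by
      linear_combination hrect
    rw [e0]
    have e4 : |X - -X| = 2 * X := by rw [abs_of_pos (by linarith)]; ring
    have e5 : |X - 0| = X := by rw [sub_zero, abs_of_pos hX]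
    rw [e4] at e1
    rw [e5] at e2 e3
    calc _ ≤ ‖∫ x : ℝ in (-X)..X, f (x + X * I)‖ + ‖∫ y : ℝ in (0 : ℝ)..X, f (X + y * I)‖
          + ‖∫ y : ℝ in (0 : ℝ)..X, f (-X + y * I)‖ := by
          refine (norm_add_le _ _).trans ?_
          refine add_le_add ((norm_sub_le _ _).trans ?_) ?_
          · simp
          · simp
      _ ≤ C / X ^ 2 * (2 * X) + C / X ^ 2 * X + C / X ^ 2 * X := by gcongr
      _ = 4 * C / X := by field_simp; ring
  have hlim0 : Tendsto (fun X : ℝ => ∫ y in (-X)..X, f y) atTop (𝓝 0) := by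
    rw [tendsto_zero_iff_norm_tendsto_zero]
    refine squeeze_zero' (Eventually.of_forall fun _ => norm_nonneg _)
      ((eventually_gt_atTop 0).mono hbound) ?_
    exact tendsto_const_nhds.div_atTop tendsto_id
  exact tendsto_nhds_unique hlim hlim0

end Pool.Agent.Lib.MP_6083a5_an
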